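import Mathlib

set_option maxHeartbeats 4000000

namespace Pool.Agent.L0h20.MM

open Finset

/-- index set of the certificate `A1` -/
def IA1 : Fin 7 → ℤ × ℤ × ℤ := ![(0, 0, 0), (0, 0, 1), (0, 1, 0), (0, 1, 1), (1, 0, 0), (1, 1, 0), (1, 1, 1)]

theorem cert_A1 (k d h : ℤ) (X : ℤ → ℤ → ℤ → ℝ) (hd : 0 < d) (hh : 0 < h) (hk : d + h < k)
    (hz : ∀ i j l : ℤ, i * k + j * d + l * h < 0 → X i j l = 0) (hb : ∀ i j l : ℤ, |X i j l| ≤ 1)
    (hG : ∀ p q : Fin 7 → ℝ, 0 ≤ ∑ a, p a ^ 2 + ∑ a, q a ^ 2 +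
      2 * ∑ a, ∑ b, p a * q b * X ((IA1 a).1 - (IA1 b).1) ((IA1 a).2.1 - (IA1 b).2.1) ((IA1 a).2.2 - (IA1 b).2.2))
    (hF : ∀ p q : Fin 7 → ℝ, 0 ≤ ∑ a, p a ^ 2 + ∑ a, q a ^ 2 +
      2 * ∑ a, ∑ b, p a * q b *
        (X ((IA1 a).1 - (IA1 b).1) ((IA1 a).2.1 - (IA1 b).2.1) ((IA1 a).2.2 - (IA1 b).2.2) + X (((IA1 a).1 - (IA1 b).1)-1) ((IA1 a).2.1 - (IA1 b).2.1) ((IA1 a).2.2 - (IA1 b).2.2) + X (((IA1 a).1 - (IA1 b).1)-1) (((IA1 a).2.1 - (IA1 b).2.1)-1) ((IA1 a).2.2 - (IA1 b).2.2) + X (((IA1 a).1 - (IA1 b).1)-1) (((IA1 a).2.1 - (IA1 b).2.1)-1) (((IA1 a).2.2 - (IA1 b).2.2)-1))) :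
    X 0 0 0 ≤ 733 / 1000 := by
  have z0 : X (-2) (-2) (-2) = 0 := hz (-2) (-2) (-2) (by omega)
  have z1 : X (-2) (-2) (-1) = 0 := hz (-2) (-2) (-1) (by omega)
  have z2 : X (-2) (-2) 0 = 0 := hz (-2) (-2) 0 (by omega)
  have z3 : X (-2) (-2) 1 = 0 := hz (-2) (-2) 1 (by omega)
  have z4 : X (-2) (-1) (-2) = 0 := hz (-2) (-1) (-2) (by omega)
  have z5 : X (-2) (-1) (-1) = 0 := hz (-2) (-1) (-1) (by omega)
  have z6 : X (-2) (-1) 0 = 0 := hz (-2) (-1) 0 (by omega)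
  have z7 : X (-2) (-1) 1 = 0 := hz (-2) (-1) 1 (by omega)
  have z8 : X (-2) 0 (-1) = 0 := hz (-2) 0 (-1) (by omega)
  have z9 : X (-2) 0 0 = 0 := hz (-2) 0 0 (by omega)
  have z10 : X (-2) 0 1 = 0 := hz (-2) 0 1 (by omega)
  have z11 : X (-2) 1 0 = 0 := hz (-2) 1 0 (by omega)
  have z12 : X (-2) 1 1 = 0 := hz (-2) 1 1 (by omega)
  have z13 : X (-1) (-2) (-2) = 0 := hz (-1) (-2) (-2) (by omega)
  have z14 : X (-1) (-2) (-1) = 0 := hz (-1) (-2) (-1) (by omega)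
  have z15 : X (-1) (-2) 0 = 0 := hz (-1) (-2) 0 (by omega)
  have z16 : X (-1) (-2) 1 = 0 := hz (-1) (-2) 1 (by omega)
  have z17 : X (-1) (-1) (-2) = 0 := hz (-1) (-1) (-2) (by omega)
  have z18 : X (-1) (-1) (-1) = 0 := hz (-1) (-1) (-1) (by omega)
  have z19 : X (-1) (-1) 0 = 0 := hz (-1) (-1) 0 (by omega)
  have z20 : X (-1) (-1) 1 = 0 := hz (-1) (-1) 1 (by omega)
  have z21 : X (-1) 0 (-2) = 0 := hz (-1) 0 (-2) (by omega)
  have z22 : X (-1) 0 (-1) = 0 := hz (-1) 0 (-1) (by omega)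
  have z23 : X (-1) 0 0 = 0 := hz (-1) 0 0 (by omega)
  have z24 : X (-1) 0 1 = 0 := hz (-1) 0 1 (by omega)
  have z25 : X (-1) 1 (-1) = 0 := hz (-1) 1 (-1) (by omega)
  have z26 : X (-1) 1 0 = 0 := hz (-1) 1 0 (by omega)
  have z27 : X (-1) 1 1 = 0 := hz (-1) 1 1 (by omega)
  have z28 : X 0 (-2) (-2) = 0 := hz 0 (-2) (-2) (by omega)
  have z29 : X 0 (-2) (-1) = 0 := hz 0 (-2) (-1) (by omega)
  have z30 : X 0 (-2) 0 = 0 := hz 0 (-2) 0 (by omega)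
  have z31 : X 0 (-1) (-2) = 0 := hz 0 (-1) (-2) (by omega)
  have z32 : X 0 (-1) (-1) = 0 := hz 0 (-1) (-1) (by omega)
  have z33 : X 0 (-1) 0 = 0 := hz 0 (-1) 0 (by omega)
  have z34 : X 0 0 (-2) = 0 := hz 0 0 (-2) (by omega)
  have z35 : X 0 0 (-1) = 0 := hz 0 0 (-1) (by omega)
  have b0 := abs_le.mp (hb 0 (-1) 1)
  have b2 := abs_le.mp (hb 0 0 1)
  have b3 := abs_le.mp (hb 0 1 (-1))
  have b4 := abs_le.mp (hb 0 1 0)
  have b5 := abs_le.mp (hb 0 1 1)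
  have b6 := abs_le.mp (hb 1 (-1) (-1))
  have b7 := abs_le.mp (hb 1 (-1) 0)
  have b8 := abs_le.mp (hb 1 0 (-1))
  have b9 := abs_le.mp (hb 1 0 0)
  have b10 := abs_le.mp (hb 1 0 1)
  have b11 := abs_le.mp (hb 1 1 (-1))
  have b12 := abs_le.mp (hb 1 1 0)
  have b13 := abs_le.mp (hb 1 1 1)
  have e1 := hF ![(27/100), (-39/1000), (-9/100), (-41/500), (227/1000), (59/500), (47/500)]
    ![(-369/1000), (-2/125), (2/125), (13/500), (-1/8), (-37/500), (-69/1000)]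
  simp only [IA1, Fin.sum_univ_succ, Fin.sum_univ_zero, Matrix.cons_val_zero,
    Matrix.cons_val_succ] at e1
  norm_num [z0, z1, z2, z3, z4, z5, z6, z7, z8, z9, z10, z11, z12, z13, z14, z15, z16, z17, z18, z19, z20, z21, z22, z23, z24, z25, z26, z27, z28, z29, z30, z31, z32, z33, z34, z35] at e1
  have e2 := hF ![0, (23/1000), (69/1000), (-53/1000), (-19/1000), (19/200), (-11/250)]
    ![0, (-1/250), (-12/125), (11/200), (27/1000), (-3/40), (4/125)]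
  simp only [IA1, Fin.sum_univ_succ, Fin.sum_univ_zero, Matrix.cons_val_zero,
    Matrix.cons_val_succ] at e2
  norm_num [z0, z1, z2, z3, z4, z5, z6, z7, z8, z9, z10, z11, z12, z13, z14, z15, z16, z17, z18, z19, z20, z21, z22, z23, z24, z25, z26, z27, z28, z29, z30, z31, z32, z33, z34, z35] at e2
  have e3 := hG ![(27/100), (-39/1000), (-9/100), (-41/500), (-227/1000), (-59/500), (-47/500)]
    ![(-369/1000), (-2/125), (2/125), (13/500), (1/8), (37/500), (69/1000)]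
  simp only [IA1, Fin.sum_univ_succ, Fin.sum_univ_zero, Matrix.cons_val_zero,
    Matrix.cons_val_succ] at e3
  norm_num [z0, z1, z2, z3, z4, z5, z6, z7, z8, z9, z10, z11, z12, z13, z14, z15, z16, z17, z18, z19, z20, z21, z22, z23, z24, z25, z26, z27, z28, z29, z30, z31, z32, z33, z34, z35] at e3
  have e4 := hG ![0, (-23/1000), (-69/1000), (53/1000), (-19/1000), (19/200), (-11/250)]
    ![0, (1/250), (12/125), (-11/200), (27/1000), (-3/40), (4/125)]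
  simp only [IA1, Fin.sum_univ_succ, Fin.sum_univ_zero, Matrix.cons_val_zero,
    Matrix.cons_val_succ] at e4
  norm_num [z0, z1, z2, z3, z4, z5, z6, z7, z8, z9, z10, z11, z12, z13, z14, z15, z16, z17, z18, z19, z20, z21, z22, z23, z24, z25, z26, z27, z28, z29, z30, z31, z32, z33, z34, z35] at e4
  linarith [e1, e2, e3, e4, b0.1, b0.2, b2.1, b2.2, b3.1, b3.2, b4.1, b4.2, b5.1, b5.2, b6.1, b6.2, b7.1, b7.2, b8.1, b8.2, b9.1, b9.2, b10.1, b10.2, b11.1, b11.2, b12.1, b12.2, b13.1, b13.2]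

/-- index set of the certificate `A2` -/
def IA2 : Fin 5 → ℤ × ℤ × ℤ := ![(0, 0, 0), (0, 1, 1), (1, 0, 0), (1, 1, 0), (1, 1, 1)]

theorem cert_A2 (k d h : ℤ) (X : ℤ → ℤ → ℤ → ℝ) (hd : 0 < d) (hh : 0 < h) (hk : d + h < k)
    (hz : ∀ i j l : ℤ, i * k + j * d + l * h < 0 → X i j l = 0) (hb : ∀ i j l : ℤ, |X i j l| ≤ 1)
    (hG : ∀ p q : Fin 5 → ℝ, 0 ≤ ∑ a, p a ^ 2 + ∑ a, q a ^ 2 +
      2 * ∑ a, ∑ b, p a * q b * X ((IA2 a).1 - (IA2 b).1) ((IA2 a).2.1 - (IA2 b).2.1) ((IA2 a).2.2 - (IA2 b).2.2))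
    (hF : ∀ p q : Fin 5 → ℝ, 0 ≤ ∑ a, p a ^ 2 + ∑ a, q a ^ 2 +
      2 * ∑ a, ∑ b, p a * q b *
        (X ((IA2 a).1 - (IA2 b).1) ((IA2 a).2.1 - (IA2 b).2.1) ((IA2 a).2.2 - (IA2 b).2.2) + X (((IA2 a).1 - (IA2 b).1)-1) ((IA2 a).2.1 - (IA2 b).2.1) ((IA2 a).2.2 - (IA2 b).2.2) + X (((IA2 a).1 - (IA2 b).1)-1) (((IA2 a).2.1 - (IA2 b).2.1)-1) ((IA2 a).2.2 - (IA2 b).2.2) + 2 * X (((IA2 a).1 - (IA2 b).1)-1) (((IA2 a).2.1 - (IA2 b).2.1)-1) (((IA2 a).2.2 - (IA2 b).2.2)-1))) :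
    X 0 0 0 ≤ 733 / 1000 := by
  have z0 : X (-2) (-2) (-2) = 0 := hz (-2) (-2) (-2) (by omega)
  have z1 : X (-2) (-2) (-1) = 0 := hz (-2) (-2) (-1) (by omega)
  have z2 : X (-2) (-2) 0 = 0 := hz (-2) (-2) 0 (by omega)
  have z3 : X (-2) (-1) (-1) = 0 := hz (-2) (-1) (-1) (by omega)
  have z4 : X (-2) (-1) 0 = 0 := hz (-2) (-1) 0 (by omega)
  have z5 : X (-2) (-1) 1 = 0 := hz (-2) (-1) 1 (by omega)
  have z6 : X (-2) 0 0 = 0 := hz (-2) 0 0 (by omega)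
  have z7 : X (-2) 0 1 = 0 := hz (-2) 0 1 (by omega)
  have z8 : X (-2) 1 1 = 0 := hz (-2) 1 1 (by omega)
  have z9 : X (-1) (-2) (-2) = 0 := hz (-1) (-2) (-2) (by omega)
  have z10 : X (-1) (-2) (-1) = 0 := hz (-1) (-2) (-1) (by omega)
  have z11 : X (-1) (-2) 0 = 0 := hz (-1) (-2) 0 (by omega)
  have z12 : X (-1) (-1) (-2) = 0 := hz (-1) (-1) (-2) (by omega)
  have z13 : X (-1) (-1) (-1) = 0 := hz (-1) (-1) (-1) (by omega)
  have z14 : X (-1) (-1) 0 = 0 := hz (-1) (-1) 0 (by omega)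
  have z15 : X (-1) (-1) 1 = 0 := hz (-1) (-1) 1 (by omega)
  have z16 : X (-1) 0 (-1) = 0 := hz (-1) 0 (-1) (by omega)
  have z17 : X (-1) 0 0 = 0 := hz (-1) 0 0 (by omega)
  have z18 : X (-1) 0 1 = 0 := hz (-1) 0 1 (by omega)
  have z19 : X (-1) 1 0 = 0 := hz (-1) 1 0 (by omega)
  have z20 : X (-1) 1 1 = 0 := hz (-1) 1 1 (by omega)
  have z21 : X 0 (-2) (-2) = 0 := hz 0 (-2) (-2) (by omega)
  have z22 : X 0 (-2) (-1) = 0 := hz 0 (-2) (-1) (by omega)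
  have z23 : X 0 (-1) (-2) = 0 := hz 0 (-1) (-2) (by omega)
  have z24 : X 0 (-1) (-1) = 0 := hz 0 (-1) (-1) (by omega)
  have z25 : X 0 (-1) 0 = 0 := hz 0 (-1) 0 (by omega)
  have z26 : X 0 0 (-1) = 0 := hz 0 0 (-1) (by omega)
  have b1 := abs_le.mp (hb 0 0 1)
  have b2 := abs_le.mp (hb 0 1 0)
  have b3 := abs_le.mp (hb 0 1 1)
  have b4 := abs_le.mp (hb 1 (-1) (-1))
  have b5 := abs_le.mp (hb 1 0 (-1))
  have b6 := abs_le.mp (hb 1 0 0)
  have b7 := abs_le.mp (hb 1 1 0)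
  have b8 := abs_le.mp (hb 1 1 1)
  have e1 := hF ![(4/25), (1/50), (-1/100), 0, (19/50)]
    ![(-23/100), (-7/50), (13/100), (3/25), (-1/4)]
  simp only [IA2, Fin.sum_univ_succ, Fin.sum_univ_zero, Matrix.cons_val_zero,
    Matrix.cons_val_succ] at e1
  norm_num [z0, z1, z2, z3, z4, z5, z6, z7, z8, z9, z10, z11, z12, z13, z14, z15, z16, z17, z18, z19, z20, z21, z22, z23, z24, z25, z26] at e1
  have e2 := hF ![0, 0, 0, 0, 0]
    ![0, 0, 0, 0, 0]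
  simp only [IA2, Fin.sum_univ_succ, Fin.sum_univ_zero, Matrix.cons_val_zero,
    Matrix.cons_val_succ] at e2
  norm_num [z0, z1, z2, z3, z4, z5, z6, z7, z8, z9, z10, z11, z12, z13, z14, z15, z16, z17, z18, z19, z20, z21, z22, z23, z24, z25, z26] at e2
  have e3 := hG ![(-4/25), (-1/50), (-1/100), 0, (19/50)]
    ![(23/100), (7/50), (13/100), (3/25), (-1/4)]
  simp only [IA2, Fin.sum_univ_succ, Fin.sum_univ_zero, Matrix.cons_val_zero,
    Matrix.cons_val_succ] at e3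
  norm_num [z0, z1, z2, z3, z4, z5, z6, z7, z8, z9, z10, z11, z12, z13, z14, z15, z16, z17, z18, z19, z20, z21, z22, z23, z24, z25, z26] at e3
  have e4 := hG ![0, 0, 0, 0, 0]
    ![0, 0, 0, 0, 0]
  simp only [IA2, Fin.sum_univ_succ, Fin.sum_univ_zero, Matrix.cons_val_zero,
    Matrix.cons_val_succ] at e4
  norm_num [z0, z1, z2, z3, z4, z5, z6, z7, z8, z9, z10, z11, z12, z13, z14, z15, z16, z17, z18, z19, z20, z21, z22, z23, z24, z25, z26] at e4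
  linarith [e1, e2, e3, e4, b1.1, b1.2, b2.1, b2.2, b3.1, b3.2, b4.1, b4.2, b5.1, b5.2, b6.1, b6.2, b7.1, b7.2, b8.1, b8.2]

/-- index set of the certificate `A0p` -/
def IA0p : Fin 6 → ℤ × ℤ := ![(0, 0), (0, 1), (0, 2), (1, 0), (1, 1), (1, 2)]

theorem cert_A0p (k d : ℤ) (X : ℤ → ℤ → ℝ) (hd : 0 < d) (hk : 2 * d < k)
    (hz : ∀ i j : ℤ, i * k + j * d < 0 → X i j = 0) (hb : ∀ i j : ℤ, |X i j| ≤ 1)
    (hG : ∀ p q : Fin 6 → ℝ, 0 ≤ ∑ a, p a ^ 2 + ∑ a, q a ^ 2 +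
      2 * ∑ a, ∑ b, p a * q b * X ((IA0p a).1 - (IA0p b).1) ((IA0p a).2 - (IA0p b).2))
    (hF : ∀ p q : Fin 6 → ℝ, 0 ≤ ∑ a, p a ^ 2 + ∑ a, q a ^ 2 +
      2 * ∑ a, ∑ b, p a * q b *
        (X ((IA0p a).1 - (IA0p b).1) ((IA0p a).2 - (IA0p b).2) + X (((IA0p a).1 - (IA0p b).1)-1) ((IA0p a).2 - (IA0p b).2) + X (((IA0p a).1 - (IA0p b).1)-1) (((IA0p a).2 - (IA0p b).2)-1) + X (((IA0p a).1 - (IA0p b).1)-1) (((IA0p a).2 - (IA0p b).2)-2))) :
    X 0 0 ≤ 733 / 1000 := by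
  have z0 : X (-2) (-4) = 0 := hz (-2) (-4) (by omega)
  have z1 : X (-2) (-3) = 0 := hz (-2) (-3) (by omega)
  have z2 : X (-2) (-2) = 0 := hz (-2) (-2) (by omega)
  have z3 : X (-2) (-1) = 0 := hz (-2) (-1) (by omega)
  have z4 : X (-2) 0 = 0 := hz (-2) 0 (by omega)
  have z5 : X (-2) 1 = 0 := hz (-2) 1 (by omega)
  have z6 : X (-2) 2 = 0 := hz (-2) 2 (by omega)
  have z7 : X (-1) (-4) = 0 := hz (-1) (-4) (by omega)
  have z8 : X (-1) (-3) = 0 := hz (-1) (-3) (by omega)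
  have z9 : X (-1) (-2) = 0 := hz (-1) (-2) (by omega)
  have z10 : X (-1) (-1) = 0 := hz (-1) (-1) (by omega)
  have z11 : X (-1) 0 = 0 := hz (-1) 0 (by omega)
  have z12 : X (-1) 1 = 0 := hz (-1) 1 (by omega)
  have z13 : X (-1) 2 = 0 := hz (-1) 2 (by omega)
  have z14 : X 0 (-4) = 0 := hz 0 (-4) (by omega)
  have z15 : X 0 (-3) = 0 := hz 0 (-3) (by omega)
  have z16 : X 0 (-2) = 0 := hz 0 (-2) (by omega)
  have z17 : X 0 (-1) = 0 := hz 0 (-1) (by omega)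
  have b1 := abs_le.mp (hb 0 1)
  have b2 := abs_le.mp (hb 0 2)
  have b3 := abs_le.mp (hb 1 (-2))
  have b4 := abs_le.mp (hb 1 (-1))
  have b5 := abs_le.mp (hb 1 0)
  have b6 := abs_le.mp (hb 1 1)
  have b7 := abs_le.mp (hb 1 2)
  have e1 := hF ![(13/200), (1/5), (-43/400), (-19/400), (121/400), (7/80)]
    ![(-7/80), (-121/400), (19/400), (43/400), (-1/5), (-13/200)]
  simp only [IA0p, Fin.sum_univ_succ, Fin.sum_univ_zero, Matrix.cons_val_zero,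
    Matrix.cons_val_succ] at e1
  norm_num [z0, z1, z2, z3, z4, z5, z6, z7, z8, z9, z10, z11, z12, z13, z14, z15, z16, z17] at e1
  have e2 := hF ![(31/400), (-11/400), (9/200), (29/400), (-1/400), (43/400)]
    ![(-43/400), (1/400), (-29/400), (-9/200), (11/400), (-31/400)]
  simp only [IA0p, Fin.sum_univ_succ, Fin.sum_univ_zero, Matrix.cons_val_zero,
    Matrix.cons_val_succ] at e2
  norm_num [z0, z1, z2, z3, z4, z5, z6, z7, z8, z9, z10, z11, z12, z13, z14, z15, z16, z17] at e2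
  have e3 := hG ![(-13/200), (-1/5), (43/400), (-19/400), (121/400), (7/80)]
    ![(7/80), (121/400), (-19/400), (43/400), (-1/5), (-13/200)]
  simp only [IA0p, Fin.sum_univ_succ, Fin.sum_univ_zero, Matrix.cons_val_zero,
    Matrix.cons_val_succ] at e3
  norm_num [z0, z1, z2, z3, z4, z5, z6, z7, z8, z9, z10, z11, z12, z13, z14, z15, z16, z17] at e3
  have e4 := hG ![(-31/400), (11/400), (-9/200), (29/400), (-1/400), (43/400)]
    ![(43/400), (-1/400), (29/400), (-9/200), (11/400), (-31/400)]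
  simp only [IA0p, Fin.sum_univ_succ, Fin.sum_univ_zero, Matrix.cons_val_zero,
    Matrix.cons_val_succ] at e4
  norm_num [z0, z1, z2, z3, z4, z5, z6, z7, z8, z9, z10, z11, z12, z13, z14, z15, z16, z17] at e4
  linarith [e1, e2, e3, e4, b1.1, b1.2, b2.1, b2.2, b3.1, b3.2, b4.1, b4.2, b5.1, b5.2, b6.1, b6.2, b7.1, b7.2]

/-- index set of the certificate `A0m` -/
def IA0m : Fin 5 → ℤ × ℤ := ![(0, 0), (0, 1), (1, 0), (1, 1), (1, 2)]

theorem cert_A0m (k d : ℤ) (X : ℤ → ℤ → ℝ) (hd : 0 < d) (hk : 2 * d < k)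
    (hz : ∀ i j : ℤ, i * k + j * d < 0 → X i j = 0) (hb : ∀ i j : ℤ, |X i j| ≤ 1)
    (hG : ∀ p q : Fin 5 → ℝ, 0 ≤ ∑ a, p a ^ 2 + ∑ a, q a ^ 2 +
      2 * ∑ a, ∑ b, p a * q b * X ((IA0m a).1 - (IA0m b).1) ((IA0m a).2 - (IA0m b).2))
    (hF : ∀ p q : Fin 5 → ℝ, 0 ≤ ∑ a, p a ^ 2 + ∑ a, q a ^ 2 +
      2 * ∑ a, ∑ b, p a * q b *
        (X ((IA0m a).1 - (IA0m b).1) ((IA0m a).2 - (IA0m b).2) + X (((IA0m a).1 - (IA0m b).1)-1) ((IA0m a).2 - (IA0m b).2) + X (((IA0m a).1 - (IA0m b).1)-1) (((IA0m a).2 - (IA0m b).2)-1) - X (((IA0m a).1 - (IA0m b).1)-1) (((IA0m a).2 - (IA0m b).2)-2))) :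
    X 0 0 ≤ 733 / 1000 := by
  have z0 : X (-2) (-4) = 0 := hz (-2) (-4) (by omega)
  have z1 : X (-2) (-3) = 0 := hz (-2) (-3) (by omega)
  have z2 : X (-2) (-2) = 0 := hz (-2) (-2) (by omega)
  have z3 : X (-2) (-1) = 0 := hz (-2) (-1) (by omega)
  have z4 : X (-2) 0 = 0 := hz (-2) 0 (by omega)
  have z5 : X (-2) 1 = 0 := hz (-2) 1 (by omega)
  have z6 : X (-1) (-4) = 0 := hz (-1) (-4) (by omega)
  have z7 : X (-1) (-3) = 0 := hz (-1) (-3) (by omega)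
  have z8 : X (-1) (-2) = 0 := hz (-1) (-2) (by omega)
  have z9 : X (-1) (-1) = 0 := hz (-1) (-1) (by omega)
  have z10 : X (-1) 0 = 0 := hz (-1) 0 (by omega)
  have z11 : X (-1) 1 = 0 := hz (-1) 1 (by omega)
  have z12 : X (-1) 2 = 0 := hz (-1) 2 (by omega)
  have z13 : X 0 (-3) = 0 := hz 0 (-3) (by omega)
  have z14 : X 0 (-2) = 0 := hz 0 (-2) (by omega)
  have z15 : X 0 (-1) = 0 := hz 0 (-1) (by omega)
  have b1 := abs_le.mp (hb 0 1)
  have b2 := abs_le.mp (hb 0 2)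
  have b3 := abs_le.mp (hb 1 (-1))
  have b4 := abs_le.mp (hb 1 0)
  have b5 := abs_le.mp (hb 1 1)
  have b6 := abs_le.mp (hb 1 2)
  have e1 := hF ![(19/100), (-1/20), (7/100), (19/100), (-1/5)]
    ![(-27/100), (3/100), (3/100), (-3/20), (7/50)]
  simp only [IA0m, Fin.sum_univ_succ, Fin.sum_univ_zero, Matrix.cons_val_zero,
    Matrix.cons_val_succ] at e1
  norm_num [z0, z1, z2, z3, z4, z5, z6, z7, z8, z9, z10, z11, z12, z13, z14, z15] at e1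
  have e2 := hF ![(1/25), (3/25), (1/10), (11/100), (3/20)]
    ![(-1/20), (-17/100), (-11/100), (-7/100), (-11/100)]
  simp only [IA0m, Fin.sum_univ_succ, Fin.sum_univ_zero, Matrix.cons_val_zero,
    Matrix.cons_val_succ] at e2
  norm_num [z0, z1, z2, z3, z4, z5, z6, z7, z8, z9, z10, z11, z12, z13, z14, z15] at e2
  have e3 := hG ![(-19/100), (1/20), (7/100), (19/100), (-1/5)]
    ![(27/100), (-3/100), (3/100), (-3/20), (7/50)]
  simp only [IA0m, Fin.sum_univ_succ, Fin.sum_univ_zero, Matrix.cons_val_zero,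
    Matrix.cons_val_succ] at e3
  norm_num [z0, z1, z2, z3, z4, z5, z6, z7, z8, z9, z10, z11, z12, z13, z14, z15] at e3
  have e4 := hG ![(-1/25), (-3/25), (1/10), (11/100), (3/20)]
    ![(1/20), (17/100), (-11/100), (-7/100), (-11/100)]
  simp only [IA0m, Fin.sum_univ_succ, Fin.sum_univ_zero, Matrix.cons_val_zero,
    Matrix.cons_val_succ] at e4
  norm_num [z0, z1, z2, z3, z4, z5, z6, z7, z8, z9, z10, z11, z12, z13, z14, z15] at e4
  linarith [e1, e2, e3, e4, b1.1, b1.2, b2.1, b2.2, b3.1, b3.2, b4.1, b4.2, b5.1, b5.2, b6.1, b6.2]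

/-- index set of the certificate `B2` -/
def IB2 : Fin 4 → ℤ × ℤ := ![(0, 0), (0, 1), (1, 0), (2, 0)]

theorem cert_B2 (k d : ℤ) (X : ℤ → ℤ → ℝ) (hd : 0 < d) (hk : d < k)
    (hz : ∀ i j : ℤ, i * k + j * d < 0 → X i j = 0) (hb : ∀ i j : ℤ, |X i j| ≤ 1)
    (hG : ∀ p q : Fin 4 → ℝ, 0 ≤ ∑ a, p a ^ 2 + ∑ a, q a ^ 2 +
      2 * ∑ a, ∑ b, p a * q b * X ((IB2 a).1 - (IB2 b).1) ((IB2 a).2 - (IB2 b).2))
    (hF : ∀ p q : Fin 4 → ℝ, 0 ≤ ∑ a, p a ^ 2 + ∑ a, q a ^ 2 +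
      2 * ∑ a, ∑ b, p a * q b *
        (X ((IB2 a).1 - (IB2 b).1) ((IB2 a).2 - (IB2 b).2) + X (((IB2 a).1 - (IB2 b).1)-1) ((IB2 a).2 - (IB2 b).2) + X (((IB2 a).1 - (IB2 b).1)-1) (((IB2 a).2 - (IB2 b).2)-1) + 2 * X (((IB2 a).1 - (IB2 b).1)-2) ((IB2 a).2 - (IB2 b).2))) :
    X 0 0 ≤ 733 / 1000 := by
  have z0 : X (-4) 0 = 0 := hz (-4) 0 (by omega)
  have z1 : X (-4) 1 = 0 := hz (-4) 1 (by omega)
  have z2 : X (-3) (-1) = 0 := hz (-3) (-1) (by omega)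
  have z3 : X (-3) 0 = 0 := hz (-3) 0 (by omega)
  have z4 : X (-3) 1 = 0 := hz (-3) 1 (by omega)
  have z5 : X (-2) (-1) = 0 := hz (-2) (-1) (by omega)
  have z6 : X (-2) 0 = 0 := hz (-2) 0 (by omega)
  have z7 : X (-2) 1 = 0 := hz (-2) 1 (by omega)
  have z8 : X (-1) (-2) = 0 := hz (-1) (-2) (by omega)
  have z9 : X (-1) (-1) = 0 := hz (-1) (-1) (by omega)
  have z10 : X (-1) 0 = 0 := hz (-1) 0 (by omega)
  have z11 : X (-1) 1 = 0 := hz (-1) 1 (by omega)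
  have z12 : X 0 (-2) = 0 := hz 0 (-2) (by omega)
  have z13 : X 0 (-1) = 0 := hz 0 (-1) (by omega)
  have b1 := abs_le.mp (hb 0 1)
  have b2 := abs_le.mp (hb 1 (-2))
  have b3 := abs_le.mp (hb 1 (-1))
  have b4 := abs_le.mp (hb 1 0)
  have b5 := abs_le.mp (hb 2 (-1))
  have b6 := abs_le.mp (hb 2 0)
  have e1 := hF ![(4/25), (-3/100), (9/50), (11/50)]
    ![(-11/50), 0, (-9/50), (-3/20)]
  simp only [IB2, Fin.sum_univ_succ, Fin.sum_univ_zero, Matrix.cons_val_zero,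
    Matrix.cons_val_succ] at e1
  norm_num [z0, z1, z2, z3, z4, z5, z6, z7, z8, z9, z10, z11, z12, z13] at e1
  have e2 := hG ![(-13/50), (-3/100), (7/20), (9/100)]
    ![(37/100), (3/25), (-1/5), (-7/100)]
  simp only [IB2, Fin.sum_univ_succ, Fin.sum_univ_zero, Matrix.cons_val_zero,
    Matrix.cons_val_succ] at e2
  norm_num [z0, z1, z2, z3, z4, z5, z6, z7, z8, z9, z10, z11, z12, z13] at e2
  have e3 := hG ![(-1/20), (3/50), (-2/25), (9/50)]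
    ![(2/25), (-3/50), (7/50), (-13/100)]
  simp only [IB2, Fin.sum_univ_succ, Fin.sum_univ_zero, Matrix.cons_val_zero,
    Matrix.cons_val_succ] at e3
  norm_num [z0, z1, z2, z3, z4, z5, z6, z7, z8, z9, z10, z11, z12, z13] at e3
  linarith [e1, e2, e3, b1.1, b1.2, b2.1, b2.2, b3.1, b3.2, b4.1, b4.2, b5.1, b5.2, b6.1, b6.2]

/-- index set of the certificate `B013` -/
def IB013 : Fin 8 → ℤ × ℤ := ![(0, 0), (0, 1), (0, 2), (1, 0), (1, 1), (1, 2), (2, -1), (2, 0)]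

theorem cert_B013 (k d : ℤ) (X : ℤ → ℤ → ℝ) (hd : 0 < d) (hk : 3 * d < k)
    (hz : ∀ i j : ℤ, i * k + j * d < 0 → X i j = 0) (hb : ∀ i j : ℤ, |X i j| ≤ 1)
    (hG : ∀ p q : Fin 8 → ℝ, 0 ≤ ∑ a, p a ^ 2 + ∑ a, q a ^ 2 +
      2 * ∑ a, ∑ b, p a * q b * X ((IB013 a).1 - (IB013 b).1) ((IB013 a).2 - (IB013 b).2))
    (hF : ∀ p q : Fin 8 → ℝ, 0 ≤ ∑ a, p a ^ 2 + ∑ a, q a ^ 2 +
      2 * ∑ a, ∑ b, p a * q b *
        (X ((IB013 a).1 - (IB013 b).1) ((IB013 a).2 - (IB013 b).2) + X (((IB013 a).1 - (IB013 b).1)-1) ((IB013 a).2 - (IB013 b).2) + X (((IB013 a).1 - (IB013 b).1)-1) (((IB013 a).2 - (IB013 b).2)-1) + X (((IB013 a).1 - (IB013 b).1)-2) ((IB013 a).2 - (IB013 b).2))) :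
    X 0 0 ≤ 733 / 1000 := by
  have z0 : X (-4) 0 = 0 := hz (-4) 0 (by omega)
  have z1 : X (-4) 1 = 0 := hz (-4) 1 (by omega)
  have z2 : X (-4) 2 = 0 := hz (-4) 2 (by omega)
  have z3 : X (-4) 3 = 0 := hz (-4) 3 (by omega)
  have z4 : X (-3) (-2) = 0 := hz (-3) (-2) (by omega)
  have z5 : X (-3) (-1) = 0 := hz (-3) (-1) (by omega)
  have z6 : X (-3) 0 = 0 := hz (-3) 0 (by omega)
  have z7 : X (-3) 1 = 0 := hz (-3) 1 (by omega)
  have z8 : X (-3) 2 = 0 := hz (-3) 2 (by omega)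
  have z9 : X (-3) 3 = 0 := hz (-3) 3 (by omega)
  have z10 : X (-2) (-3) = 0 := hz (-2) (-3) (by omega)
  have z11 : X (-2) (-2) = 0 := hz (-2) (-2) (by omega)
  have z12 : X (-2) (-1) = 0 := hz (-2) (-1) (by omega)
  have z13 : X (-2) 0 = 0 := hz (-2) 0 (by omega)
  have z14 : X (-2) 1 = 0 := hz (-2) 1 (by omega)
  have z15 : X (-2) 2 = 0 := hz (-2) 2 (by omega)
  have z16 : X (-2) 3 = 0 := hz (-2) 3 (by omega)
  have z17 : X (-1) (-3) = 0 := hz (-1) (-3) (by omega)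
  have z18 : X (-1) (-2) = 0 := hz (-1) (-2) (by omega)
  have z19 : X (-1) (-1) = 0 := hz (-1) (-1) (by omega)
  have z20 : X (-1) 0 = 0 := hz (-1) 0 (by omega)
  have z21 : X (-1) 1 = 0 := hz (-1) 1 (by omega)
  have z22 : X (-1) 2 = 0 := hz (-1) 2 (by omega)
  have z23 : X (-1) 3 = 0 := hz (-1) 3 (by omega)
  have z24 : X 0 (-4) = 0 := hz 0 (-4) (by omega)
  have z25 : X 0 (-3) = 0 := hz 0 (-3) (by omega)
  have z26 : X 0 (-2) = 0 := hz 0 (-2) (by omega)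
  have z27 : X 0 (-1) = 0 := hz 0 (-1) (by omega)
  have b1 := abs_le.mp (hb 0 1)
  have b2 := abs_le.mp (hb 0 2)
  have b3 := abs_le.mp (hb 1 (-4))
  have b4 := abs_le.mp (hb 1 (-3))
  have b5 := abs_le.mp (hb 1 (-2))
  have b6 := abs_le.mp (hb 1 (-1))
  have b7 := abs_le.mp (hb 1 0)
  have b8 := abs_le.mp (hb 1 1)
  have b9 := abs_le.mp (hb 1 2)
  have b10 := abs_le.mp (hb 2 (-3))
  have b11 := abs_le.mp (hb 2 (-2))
  have b12 := abs_le.mp (hb 2 (-1))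
  have b13 := abs_le.mp (hb 2 0)
  have e1 := hF ![(379/2000), (-537/20000), (-67/5000), (1801/10000), (831/5000), (-89/4000), (-129/2500), (2171/20000)]
    ![(-1293/5000), (-103/5000), (83/2000), (-7/50), (-1171/10000), (183/20000), (1109/20000), (-1591/20000)]
  simp only [IB013, Fin.sum_univ_succ, Fin.sum_univ_zero, Matrix.cons_val_zero,
    Matrix.cons_val_succ] at e1
  norm_num [z0, z1, z2, z3, z4, z5, z6, z7, z8, z9, z10, z11, z12, z13, z14, z15, z16, z17, z18, z19, z20, z21, z22, z23, z24, z25, z26, z27] at e1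
  have e2 := hF ![(-279/10000), (173/5000), (899/20000), (1597/20000), (-1081/10000), (1503/10000), (-579/20000), (1129/10000)]
    ![(381/10000), (-31/800), (-37/500), (-2493/20000), (557/5000), (-29/250), (79/2000), (-331/4000)]
  simp only [IB013, Fin.sum_univ_succ, Fin.sum_univ_zero, Matrix.cons_val_zero,
    Matrix.cons_val_succ] at e2
  norm_num [z0, z1, z2, z3, z4, z5, z6, z7, z8, z9, z10, z11, z12, z13, z14, z15, z16, z17, z18, z19, z20, z21, z22, z23, z24, z25, z26, z27] at e2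
  have e3 := hG ![(-23/160), (-2199/20000), (649/20000), (1521/20000), (5417/20000), (-7/200), (-1/160), (421/5000)]
    ![(3923/20000), (3869/20000), (-9/400), (523/20000), (-1989/10000), (89/4000), (91/5000), (-617/10000)]
  simp only [IB013, Fin.sum_univ_succ, Fin.sum_univ_zero, Matrix.cons_val_zero,
    Matrix.cons_val_succ] at e3
  norm_num [z0, z1, z2, z3, z4, z5, z6, z7, z8, z9, z10, z11, z12, z13, z14, z15, z16, z17, z18, z19, z20, z21, z22, z23, z24, z25, z26, z27] at e3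
  have e4 := hG ![(-111/4000), (771/10000), (-103/5000), (-1121/10000), (-411/20000), (-1057/20000), (-771/20000), (4077/20000)]
    ![(379/10000), (-121/1250), (13/5000), (417/2500), (401/20000), (29/1000), (1227/20000), (-747/5000)]
  simp only [IB013, Fin.sum_univ_succ, Fin.sum_univ_zero, Matrix.cons_val_zero,
    Matrix.cons_val_succ] at e4
  norm_num [z0, z1, z2, z3, z4, z5, z6, z7, z8, z9, z10, z11, z12, z13, z14, z15, z16, z17, z18, z19, z20, z21, z22, z23, z24, z25, z26, z27] at e4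
  have e5 := hG ![(607/20000), (-149/4000), (-63/2500), (-819/20000), (201/10000), (1257/20000), (-17/20000), (113/10000)]
    ![(-207/5000), (833/20000), (961/20000), (661/20000), (-77/20000), (-93/2000), (49/20000), (-83/10000)]
  simp only [IB013, Fin.sum_univ_succ, Fin.sum_univ_zero, Matrix.cons_val_zero,
    Matrix.cons_val_succ] at e5
  norm_num [z0, z1, z2, z3, z4, z5, z6, z7, z8, z9, z10, z11, z12, z13, z14, z15, z16, z17, z18, z19, z20, z21, z22, z23, z24, z25, z26, z27] at e5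
  linarith [e1, e2, e3, e4, e5, b1.1, b1.2, b2.1, b2.2, b3.1, b3.2, b4.1, b4.2, b5.1, b5.2, b6.1, b6.2, b7.1, b7.2, b8.1, b8.2, b9.1, b9.2, b10.1, b10.2, b11.1, b11.2, b12.1, b12.2, b13.1, b13.2]

/-- index set of the certificate `B1312` -/
def IB1312 : Fin 7 → ℤ × ℤ := ![(0, 0), (0, 1), (0, 2), (1, 0), (1, 1), (2, -1), (2, 0)]

theorem cert_B1312 (k d : ℤ) (X : ℤ → ℤ → ℝ) (hd : 0 < d) (hk : k < 3 * d) (hk2 : 2 * d < k)
    (hz : ∀ i j : ℤ, i * k + j * d < 0 → X i j = 0) (hb : ∀ i j : ℤ, |X i j| ≤ 1)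
    (hG : ∀ p q : Fin 7 → ℝ, 0 ≤ ∑ a, p a ^ 2 + ∑ a, q a ^ 2 +
      2 * ∑ a, ∑ b, p a * q b * X ((IB1312 a).1 - (IB1312 b).1) ((IB1312 a).2 - (IB1312 b).2))
    (hF : ∀ p q : Fin 7 → ℝ, 0 ≤ ∑ a, p a ^ 2 + ∑ a, q a ^ 2 +
      2 * ∑ a, ∑ b, p a * q b *
        (X ((IB1312 a).1 - (IB1312 b).1) ((IB1312 a).2 - (IB1312 b).2) + X (((IB1312 a).1 - (IB1312 b).1)-1) ((IB1312 a).2 - (IB1312 b).2) + X (((IB1312 a).1 - (IB1312 b).1)-1) (((IB1312 a).2 - (IB1312 b).2)-1) + X (((IB1312 a).1 - (IB1312 b).1)-2) ((IB1312 a).2 - (IB1312 b).2))) :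
    X 0 0 ≤ 733 / 1000 := by
  have z0 : X (-4) 0 = 0 := hz (-4) 0 (by omega)
  have z1 : X (-4) 1 = 0 := hz (-4) 1 (by omega)
  have z2 : X (-4) 2 = 0 := hz (-4) 2 (by omega)
  have z3 : X (-4) 3 = 0 := hz (-4) 3 (by omega)
  have z4 : X (-3) (-1) = 0 := hz (-3) (-1) (by omega)
  have z5 : X (-3) 0 = 0 := hz (-3) 0 (by omega)
  have z6 : X (-3) 1 = 0 := hz (-3) 1 (by omega)
  have z7 : X (-3) 2 = 0 := hz (-3) 2 (by omega)
  have z8 : X (-3) 3 = 0 := hz (-3) 3 (by omega)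
  have z9 : X (-2) (-2) = 0 := hz (-2) (-2) (by omega)
  have z10 : X (-2) (-1) = 0 := hz (-2) (-1) (by omega)
  have z11 : X (-2) 0 = 0 := hz (-2) 0 (by omega)
  have z12 : X (-2) 1 = 0 := hz (-2) 1 (by omega)
  have z13 : X (-2) 2 = 0 := hz (-2) 2 (by omega)
  have z14 : X (-2) 3 = 0 := hz (-2) 3 (by omega)
  have z15 : X (-1) (-3) = 0 := hz (-1) (-3) (by omega)
  have z16 : X (-1) (-2) = 0 := hz (-1) (-2) (by omega)
  have z17 : X (-1) (-1) = 0 := hz (-1) (-1) (by omega)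
  have z18 : X (-1) 0 = 0 := hz (-1) 0 (by omega)
  have z19 : X (-1) 1 = 0 := hz (-1) 1 (by omega)
  have z20 : X (-1) 2 = 0 := hz (-1) 2 (by omega)
  have z21 : X 0 (-3) = 0 := hz 0 (-3) (by omega)
  have z22 : X 0 (-2) = 0 := hz 0 (-2) (by omega)
  have z23 : X 0 (-1) = 0 := hz 0 (-1) (by omega)
  have z24 : X 1 (-4) = 0 := hz 1 (-4) (by omega)
  have z25 : X 1 (-3) = 0 := hz 1 (-3) (by omega)
  have b1 := abs_le.mp (hb 0 1)
  have b2 := abs_le.mp (hb 0 2)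
  have b3 := abs_le.mp (hb 1 (-2))
  have b4 := abs_le.mp (hb 1 (-1))
  have b5 := abs_le.mp (hb 1 0)
  have b6 := abs_le.mp (hb 1 1)
  have b7 := abs_le.mp (hb 2 (-3))
  have b8 := abs_le.mp (hb 2 (-2))
  have b9 := abs_le.mp (hb 2 (-1))
  have b10 := abs_le.mp (hb 2 0)
  have e1 := hF ![(149/800), (-127/4000), (57/4000), (757/4000), (577/4000), (-121/4000), (93/800)]
    ![(-1017/4000), (-27/2000), (-9/2000), (-609/4000), (-399/4000), (41/1000), (-17/200)]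
  simp only [IB1312, Fin.sum_univ_succ, Fin.sum_univ_zero, Matrix.cons_val_zero,
    Matrix.cons_val_succ] at e1
  norm_num [z0, z1, z2, z3, z4, z5, z6, z7, z8, z9, z10, z11, z12, z13, z14, z15, z16, z17, z18, z19, z20, z21, z22, z23, z24, z25] at e1
  have e2 := hF ![(119/4000), (9/125), (-189/4000), (-279/4000), (607/4000), (157/4000), (-173/2000)]
    ![(-81/2000), (-429/4000), (173/4000), (209/2000), (-463/4000), (-43/1000), (127/2000)]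
  simp only [IB1312, Fin.sum_univ_succ, Fin.sum_univ_zero, Matrix.cons_val_zero,
    Matrix.cons_val_succ] at e2
  norm_num [z0, z1, z2, z3, z4, z5, z6, z7, z8, z9, z10, z11, z12, z13, z14, z15, z16, z17, z18, z19, z20, z21, z22, z23, z24, z25] at e2
  have e3 := hG ![(-477/4000), (-267/2000), (29/800), (177/4000), (1127/4000), (-103/4000), (343/4000)]
    ![(163/1000), (7/32), (-49/4000), (49/1000), (-101/500), (131/4000), (-251/4000)]
  simp only [IB1312, Fin.sum_univ_succ, Fin.sum_univ_zero, Matrix.cons_val_zero,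
    Matrix.cons_val_succ] at e3
  norm_num [z0, z1, z2, z3, z4, z5, z6, z7, z8, z9, z10, z11, z12, z13, z14, z15, z16, z17, z18, z19, z20, z21, z22, z23, z24, z25] at e3
  have e4 := hG ![(-31/800), (341/4000), (-19/400), (-421/4000), (-11/400), (-51/1000), (57/250)]
    ![(53/1000), (-209/2000), (3/80), (667/4000), (127/4000), (299/4000), (-167/1000)]
  simp only [IB1312, Fin.sum_univ_succ, Fin.sum_univ_zero, Matrix.cons_val_zero,
    Matrix.cons_val_succ] at e4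
  norm_num [z0, z1, z2, z3, z4, z5, z6, z7, z8, z9, z10, z11, z12, z13, z14, z15, z16, z17, z18, z19, z20, z21, z22, z23, z24, z25] at e4
  have e5 := hG ![(-8/125), (43/1000), (-19/1000), (41/500), (-19/1000), (-17/800), 0]
    ![(349/4000), (-157/4000), (43/4000), (-257/4000), (7/500), (31/2000), 0]
  simp only [IB1312, Fin.sum_univ_succ, Fin.sum_univ_zero, Matrix.cons_val_zero,
    Matrix.cons_val_succ] at e5
  norm_num [z0, z1, z2, z3, z4, z5, z6, z7, z8, z9, z10, z11, z12, z13, z14, z15, z16, z17, z18, z19, z20, z21, z22, z23, z24, z25] at e5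
  linarith [e1, e2, e3, e4, e5, b1.1, b1.2, b2.1, b2.2, b3.1, b3.2, b4.1, b4.2, b5.1, b5.2, b6.1, b6.2, b7.1, b7.2, b8.1, b8.2, b9.1, b9.2, b10.1, b10.2]

/-- index set of the certificate `B121` -/
def IB121 : Fin 7 → ℤ × ℤ := ![(0, 0), (0, 1), (0, 2), (1, 0), (1, 1), (2, -1), (2, 0)]

theorem cert_B121 (k d : ℤ) (X : ℤ → ℤ → ℝ) (hd : 0 < d) (hk : k < 2 * d) (hk2 : d < k)
    (hz : ∀ i j : ℤ, i * k + j * d < 0 → X i j = 0) (hb : ∀ i j : ℤ, |X i j| ≤ 1)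
    (hG : ∀ p q : Fin 7 → ℝ, 0 ≤ ∑ a, p a ^ 2 + ∑ a, q a ^ 2 +
      2 * ∑ a, ∑ b, p a * q b * X ((IB121 a).1 - (IB121 b).1) ((IB121 a).2 - (IB121 b).2))
    (hF : ∀ p q : Fin 7 → ℝ, 0 ≤ ∑ a, p a ^ 2 + ∑ a, q a ^ 2 +
      2 * ∑ a, ∑ b, p a * q b *
        (X ((IB121 a).1 - (IB121 b).1) ((IB121 a).2 - (IB121 b).2) + X (((IB121 a).1 - (IB121 b).1)-1) ((IB121 a).2 - (IB121 b).2) + X (((IB121 a).1 - (IB121 b).1)-1) (((IB121 a).2 - (IB121 b).2)-1) + X (((IB121 a).1 - (IB121 b).1)-2) ((IB121 a).2 - (IB121 b).2))) :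
    X 0 0 ≤ 733 / 1000 := by
  have z0 : X (-4) 0 = 0 := hz (-4) 0 (by omega)
  have z1 : X (-4) 1 = 0 := hz (-4) 1 (by omega)
  have z2 : X (-4) 2 = 0 := hz (-4) 2 (by omega)
  have z3 : X (-4) 3 = 0 := hz (-4) 3 (by omega)
  have z4 : X (-3) (-1) = 0 := hz (-3) (-1) (by omega)
  have z5 : X (-3) 0 = 0 := hz (-3) 0 (by omega)
  have z6 : X (-3) 1 = 0 := hz (-3) 1 (by omega)
  have z7 : X (-3) 2 = 0 := hz (-3) 2 (by omega)
  have z8 : X (-3) 3 = 0 := hz (-3) 3 (by omega)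
  have z9 : X (-2) (-2) = 0 := hz (-2) (-2) (by omega)
  have z10 : X (-2) (-1) = 0 := hz (-2) (-1) (by omega)
  have z11 : X (-2) 0 = 0 := hz (-2) 0 (by omega)
  have z12 : X (-2) 1 = 0 := hz (-2) 1 (by omega)
  have z13 : X (-2) 2 = 0 := hz (-2) 2 (by omega)
  have z14 : X (-1) (-3) = 0 := hz (-1) (-3) (by omega)
  have z15 : X (-1) (-2) = 0 := hz (-1) (-2) (by omega)
  have z16 : X (-1) (-1) = 0 := hz (-1) (-1) (by omega)
  have z17 : X (-1) 0 = 0 := hz (-1) 0 (by omega)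
  have z18 : X (-1) 1 = 0 := hz (-1) 1 (by omega)
  have z19 : X 0 (-3) = 0 := hz 0 (-3) (by omega)
  have z20 : X 0 (-2) = 0 := hz 0 (-2) (by omega)
  have z21 : X 0 (-1) = 0 := hz 0 (-1) (by omega)
  have z22 : X 1 (-4) = 0 := hz 1 (-4) (by omega)
  have z23 : X 1 (-3) = 0 := hz 1 (-3) (by omega)
  have z24 : X 1 (-2) = 0 := hz 1 (-2) (by omega)
  have b0 := abs_le.mp (hb (-2) 3)
  have b1 := abs_le.mp (hb (-1) 2)
  have b3 := abs_le.mp (hb 0 1)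
  have b4 := abs_le.mp (hb 0 2)
  have b5 := abs_le.mp (hb 1 (-1))
  have b6 := abs_le.mp (hb 1 0)
  have b7 := abs_le.mp (hb 1 1)
  have b8 := abs_le.mp (hb 2 (-3))
  have b9 := abs_le.mp (hb 2 (-2))
  have b10 := abs_le.mp (hb 2 (-1))
  have b11 := abs_le.mp (hb 2 0)
  have e1 := hF ![(93/500), (-153/5000), (41/5000), (191/1000), (723/5000), (-101/2500), (149/1250)]
    ![(-127/500), (-19/1250), (1/1250), (-387/2500), (-499/5000), (1/20), (-109/1250)]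
  simp only [IB121, Fin.sum_univ_succ, Fin.sum_univ_zero, Matrix.cons_val_zero,
    Matrix.cons_val_succ] at e1
  norm_num [z0, z1, z2, z3, z4, z5, z6, z7, z8, z9, z10, z11, z12, z13, z14, z15, z16, z17, z18, z19, z20, z21, z22, z23, z24] at e1
  have e2 := hF ![(18/625), (69/1000), (-233/5000), (-41/625), (363/2500), (93/2500), (-411/5000)]
    ![(-49/1250), (-103/1000), (217/5000), (99/1000), (-553/5000), (-201/5000), (301/5000)]
  simp only [IB121, Fin.sum_univ_succ, Fin.sum_univ_zero, Matrix.cons_val_zero,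
    Matrix.cons_val_succ] at e2
  norm_num [z0, z1, z2, z3, z4, z5, z6, z7, z8, z9, z10, z11, z12, z13, z14, z15, z16, z17, z18, z19, z20, z21, z22, z23, z24] at e2
  have e3 := hG ![(-677/5000), (-271/2500), (17/625), (67/1250), (659/2500), (-173/5000), (527/5000)]
    ![(231/1250), (947/5000), (-17/2500), (59/1250), (-939/5000), (11/250), (-193/2500)]
  simp only [IB121, Fin.sum_univ_succ, Fin.sum_univ_zero, Matrix.cons_val_zero,
    Matrix.cons_val_succ] at e3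
  norm_num [z0, z1, z2, z3, z4, z5, z6, z7, z8, z9, z10, z11, z12, z13, z14, z15, z16, z17, z18, z19, z20, z21, z22, z23, z24] at e3
  have e4 := hG ![(-13/500), (219/2500), (-217/5000), (-109/1000), (-21/500), (-43/1000), (1073/5000)]
    ![(177/5000), (-279/2500), (83/2500), (101/625), (209/5000), (83/1250), (-393/2500)]
  simp only [IB121, Fin.sum_univ_succ, Fin.sum_univ_zero, Matrix.cons_val_zero,
    Matrix.cons_val_succ] at e4
  norm_num [z0, z1, z2, z3, z4, z5, z6, z7, z8, z9, z10, z11, z12, z13, z14, z15, z16, z17, z18, z19, z20, z21, z22, z23, z24] at e4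
  have e5 := hG ![(-109/1250), (347/5000), (-17/625), (573/5000), (-203/5000), (-3/100), (-1/5000)]
    ![(119/1000), (-341/5000), (33/2500), (-231/2500), (37/1250), (27/1250), 0]
  simp only [IB121, Fin.sum_univ_succ, Fin.sum_univ_zero, Matrix.cons_val_zero,
    Matrix.cons_val_succ] at e5
  norm_num [z0, z1, z2, z3, z4, z5, z6, z7, z8, z9, z10, z11, z12, z13, z14, z15, z16, z17, z18, z19, z20, z21, z22, z23, z24] at e5
  linarith [e1, e2, e3, e4, e5, b0.1, b0.2, b1.1, b1.2, b3.1, b3.2, b4.1, b4.2, b5.1, b5.2, b6.1, b6.2, b7.1, b7.2, b8.1, b8.2, b9.1, b9.2, b10.1, b10.2, b11.1, b11.2]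

end Pool.Agent.L0h20.MM
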