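import Mathlib

set_option maxHeartbeats 4000000

namespace Pool.Agent.L0h20.MM

open Finset

/-- index set of the certificate `R13p` -/
def IR13p : Fin 7 → ℤ := ![0, 1, 2, 3, 4, 5, 6]

theorem cert_R13p  (X : ℤ → ℝ)
    (hz : ∀ i : ℤ, i < 0 → X i = 0) (hb : ∀ i : ℤ, |X i| ≤ 1)
    (hG : ∀ p q : Fin 7 → ℝ, 0 ≤ ∑ a, p a ^ 2 + ∑ a, q a ^ 2 +
      2 * ∑ a, ∑ b, p a * q b * X (IR13p a - IR13p b))
    (hF : ∀ p q : Fin 7 → ℝ, 0 ≤ ∑ a, p a ^ 2 + ∑ a, q a ^ 2 +
      2 * ∑ a, ∑ b, p a * q b *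
        (X (IR13p a - IR13p b) + X ((IR13p a - IR13p b)-3) + X ((IR13p a - IR13p b)-4) + X ((IR13p a - IR13p b)-6))) :
    X 0 ≤ 733 / 1000 := by
  have z0 : X (-12) = 0 := hz (-12) (by norm_num)
  have z1 : X (-11) = 0 := hz (-11) (by norm_num)
  have z2 : X (-10) = 0 := hz (-10) (by norm_num)
  have z3 : X (-9) = 0 := hz (-9) (by norm_num)
  have z4 : X (-8) = 0 := hz (-8) (by norm_num)
  have z5 : X (-7) = 0 := hz (-7) (by norm_num)
  have z6 : X (-6) = 0 := hz (-6) (by norm_num)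
  have z7 : X (-5) = 0 := hz (-5) (by norm_num)
  have z8 : X (-4) = 0 := hz (-4) (by norm_num)
  have z9 : X (-3) = 0 := hz (-3) (by norm_num)
  have z10 : X (-2) = 0 := hz (-2) (by norm_num)
  have z11 : X (-1) = 0 := hz (-1) (by norm_num)
  have b1 := abs_le.mp (hb 1)
  have b2 := abs_le.mp (hb 2)
  have b3 := abs_le.mp (hb 3)
  have b4 := abs_le.mp (hb 4)
  have b5 := abs_le.mp (hb 5)
  have b6 := abs_le.mp (hb 6)
  have e1 := hF ![(29/200), (-9/100), (2/25), (3/20), (19/200), (-19/200), (41/200)]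
    ![(-41/200), (19/200), (-19/200), (-3/20), (-2/25), (9/100), (-29/200)]
  simp only [IR13p, Fin.sum_univ_succ, Fin.sum_univ_zero, Matrix.cons_val_zero,
    Matrix.cons_val_succ] at e1
  norm_num [z0, z1, z2, z3, z4, z5, z6, z7, z8, z9, z10, z11] at e1
  have e2 := hF ![(1/50), (13/200), (3/100), 0, (11/200), (1/10), (1/40)]
    ![(-1/40), (-1/10), (-11/200), 0, (-3/100), (-13/200), (-1/50)]
  simp only [IR13p, Fin.sum_univ_succ, Fin.sum_univ_zero, Matrix.cons_val_zero,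
    Matrix.cons_val_succ] at e2
  norm_num [z0, z1, z2, z3, z4, z5, z6, z7, z8, z9, z10, z11] at e2
  have e3 := hF ![(-9/200), (-1/100), (11/200), (-3/200), (-3/40), (1/40), (3/50)]
    ![(3/50), (1/40), (-3/40), (-3/200), (11/200), (-1/100), (-9/200)]
  simp only [IR13p, Fin.sum_univ_succ, Fin.sum_univ_zero, Matrix.cons_val_zero,
    Matrix.cons_val_succ] at e3
  norm_num [z0, z1, z2, z3, z4, z5, z6, z7, z8, z9, z10, z11] at e3
  have e4 := hG ![(31/200), (-3/40), (1/20), (-3/50), (-11/200), (13/200), (-11/50)]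
    ![(-11/50), (13/200), (-11/200), (-3/50), (1/20), (-3/40), (31/200)]
  simp only [IR13p, Fin.sum_univ_succ, Fin.sum_univ_zero, Matrix.cons_val_zero,
    Matrix.cons_val_succ] at e4
  norm_num [z0, z1, z2, z3, z4, z5, z6, z7, z8, z9, z10, z11] at e4
  have e5 := hG ![(-3/200), (-21/200), (-7/100), (3/200), (1/8), (3/20), (1/50)]
    ![(1/50), (3/20), (1/8), (3/200), (-7/100), (-21/200), (-3/200)]
  simp only [IR13p, Fin.sum_univ_succ, Fin.sum_univ_zero, Matrix.cons_val_zero,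
    Matrix.cons_val_succ] at e5
  norm_num [z0, z1, z2, z3, z4, z5, z6, z7, z8, z9, z10, z11] at e5
  have e6 := hG ![(7/100), (1/25), (-2/25), (-23/200), (-19/200), (3/40), (1/10)]
    ![(-1/10), (-3/40), (19/200), (23/200), (2/25), (-1/25), (-7/100)]
  simp only [IR13p, Fin.sum_univ_succ, Fin.sum_univ_zero, Matrix.cons_val_zero,
    Matrix.cons_val_succ] at e6
  norm_num [z0, z1, z2, z3, z4, z5, z6, z7, z8, z9, z10, z11] at e6
  have e7 := hG ![(3/200), (-1/40), (3/100), (-11/200), (1/25), (-3/100), (1/40)]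
    ![(-1/40), (3/100), (-1/25), (11/200), (-3/100), (1/40), (-3/200)]
  simp only [IR13p, Fin.sum_univ_succ, Fin.sum_univ_zero, Matrix.cons_val_zero,
    Matrix.cons_val_succ] at e7
  norm_num [z0, z1, z2, z3, z4, z5, z6, z7, z8, z9, z10, z11] at e7
  linarith [e1, e2, e3, e4, e5, e6, e7, b1.1, b1.2, b2.1, b2.2, b3.1, b3.2, b4.1, b4.2, b5.1, b5.2, b6.1, b6.2]

/-- index set of the certificate `R13m` -/
def IR13m : Fin 7 → ℤ := ![0, 1, 2, 3, 4, 5, 6]

theorem cert_R13m  (X : ℤ → ℝ)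
    (hz : ∀ i : ℤ, i < 0 → X i = 0) (hb : ∀ i : ℤ, |X i| ≤ 1)
    (hG : ∀ p q : Fin 7 → ℝ, 0 ≤ ∑ a, p a ^ 2 + ∑ a, q a ^ 2 +
      2 * ∑ a, ∑ b, p a * q b * X (IR13m a - IR13m b))
    (hF : ∀ p q : Fin 7 → ℝ, 0 ≤ ∑ a, p a ^ 2 + ∑ a, q a ^ 2 +
      2 * ∑ a, ∑ b, p a * q b *
        (X (IR13m a - IR13m b) + X ((IR13m a - IR13m b)-3) - X ((IR13m a - IR13m b)-4) + X ((IR13m a - IR13m b)-6))) :
    X 0 ≤ 733 / 1000 := by
  have z0 : X (-12) = 0 := hz (-12) (by norm_num)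
  have z1 : X (-11) = 0 := hz (-11) (by norm_num)
  have z2 : X (-10) = 0 := hz (-10) (by norm_num)
  have z3 : X (-9) = 0 := hz (-9) (by norm_num)
  have z4 : X (-8) = 0 := hz (-8) (by norm_num)
  have z5 : X (-7) = 0 := hz (-7) (by norm_num)
  have z6 : X (-6) = 0 := hz (-6) (by norm_num)
  have z7 : X (-5) = 0 := hz (-5) (by norm_num)
  have z8 : X (-4) = 0 := hz (-4) (by norm_num)
  have z9 : X (-3) = 0 := hz (-3) (by norm_num)
  have z10 : X (-2) = 0 := hz (-2) (by norm_num)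
  have z11 : X (-1) = 0 := hz (-1) (by norm_num)
  have b1 := abs_le.mp (hb 1)
  have b2 := abs_le.mp (hb 2)
  have b3 := abs_le.mp (hb 3)
  have b4 := abs_le.mp (hb 4)
  have b5 := abs_le.mp (hb 5)
  have b6 := abs_le.mp (hb 6)
  have e1 := hF ![(97/800), (7/400), (-11/200), (107/800), (-3/32), (-1/80), (67/400)]
    ![(-67/400), (1/80), (3/32), (-107/800), (11/200), (-7/400), (-97/800)]
  simp only [IR13m, Fin.sum_univ_succ, Fin.sum_univ_zero, Matrix.cons_val_zero,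
    Matrix.cons_val_succ] at e1
  norm_num [z0, z1, z2, z3, z4, z5, z6, z7, z8, z9, z10, z11] at e1
  have e2 := hF ![(7/800), (51/800), (9/80), (19/160), (27/200), (17/200), (9/800)]
    ![(-9/800), (-17/200), (-27/200), (-19/160), (-9/80), (-51/800), (-7/800)]
  simp only [IR13m, Fin.sum_univ_succ, Fin.sum_univ_zero, Matrix.cons_val_zero,
    Matrix.cons_val_succ] at e2
  norm_num [z0, z1, z2, z3, z4, z5, z6, z7, z8, z9, z10, z11] at e2
  have e3 := hF ![(21/400), (-13/400), (23/400), (7/400), (-67/800), (49/800), (-29/400)]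
    ![(-29/400), (49/800), (-67/800), (7/400), (23/400), (-13/400), (21/400)]
  simp only [IR13m, Fin.sum_univ_succ, Fin.sum_univ_zero, Matrix.cons_val_zero,
    Matrix.cons_val_succ] at e3
  norm_num [z0, z1, z2, z3, z4, z5, z6, z7, z8, z9, z10, z11] at e3
  have e4 := hF ![(-49/800), (-51/400), (-7/160), (-1/40), (13/800), (5/32), (67/800)]
    ![(67/800), (5/32), (13/800), (-1/40), (-7/160), (-51/400), (-49/800)]
  simp only [IR13m, Fin.sum_univ_succ, Fin.sum_univ_zero, Matrix.cons_val_zero,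
    Matrix.cons_val_succ] at e4
  norm_num [z0, z1, z2, z3, z4, z5, z6, z7, z8, z9, z10, z11] at e4
  have e5 := hG ![(81/800), (-53/800), (-97/800), (-43/800), (4/25), (3/25), (-111/800)]
    ![(-111/800), (3/25), (4/25), (-43/800), (-97/800), (-53/800), (81/800)]
  simp only [IR13m, Fin.sum_univ_succ, Fin.sum_univ_zero, Matrix.cons_val_zero,
    Matrix.cons_val_succ] at e5
  norm_num [z0, z1, z2, z3, z4, z5, z6, z7, z8, z9, z10, z11] at e5
  have e6 := hG ![(-29/800), (79/800), (-31/400), (41/800), (-53/400), (117/800), (-1/20)]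
    ![(1/20), (-117/800), (53/400), (-41/800), (31/400), (-79/800), (29/800)]
  simp only [IR13m, Fin.sum_univ_succ, Fin.sum_univ_zero, Matrix.cons_val_zero,
    Matrix.cons_val_succ] at e6
  norm_num [z0, z1, z2, z3, z4, z5, z6, z7, z8, z9, z10, z11] at e6
  have e7 := hG ![(9/400), (3/200), (-1/800), (-19/400), (-7/800), (11/800), (1/32)]
    ![(-1/32), (-11/800), (7/800), (19/400), (1/800), (-3/200), (-9/400)]
  simp only [IR13m, Fin.sum_univ_succ, Fin.sum_univ_zero, Matrix.cons_val_zero,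
    Matrix.cons_val_succ] at e7
  norm_num [z0, z1, z2, z3, z4, z5, z6, z7, z8, z9, z10, z11] at e7
  linarith [e1, e2, e3, e4, e5, e6, e7, b1.1, b1.2, b2.1, b2.2, b3.1, b3.2, b4.1, b4.2, b5.1, b5.2, b6.1, b6.2]

/-- index set of the certificate `R23p` -/
def IR23p : Fin 7 → ℤ := ![0, 1, 2, 3, 4, 5, 6]

theorem cert_R23p  (X : ℤ → ℝ)
    (hz : ∀ i : ℤ, i < 0 → X i = 0) (hb : ∀ i : ℤ, |X i| ≤ 1)
    (hG : ∀ p q : Fin 7 → ℝ, 0 ≤ ∑ a, p a ^ 2 + ∑ a, q a ^ 2 +
      2 * ∑ a, ∑ b, p a * q b * X (IR23p a - IR23p b))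
    (hF : ∀ p q : Fin 7 → ℝ, 0 ≤ ∑ a, p a ^ 2 + ∑ a, q a ^ 2 +
      2 * ∑ a, ∑ b, p a * q b *
        (X (IR23p a - IR23p b) + X ((IR23p a - IR23p b)-3) + X ((IR23p a - IR23p b)-5) + X ((IR23p a - IR23p b)-6))) :
    X 0 ≤ 733 / 1000 := by
  have z0 : X (-12) = 0 := hz (-12) (by norm_num)
  have z1 : X (-11) = 0 := hz (-11) (by norm_num)
  have z2 : X (-10) = 0 := hz (-10) (by norm_num)
  have z3 : X (-9) = 0 := hz (-9) (by norm_num)
  have z4 : X (-8) = 0 := hz (-8) (by norm_num)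
  have z5 : X (-7) = 0 := hz (-7) (by norm_num)
  have z6 : X (-6) = 0 := hz (-6) (by norm_num)
  have z7 : X (-5) = 0 := hz (-5) (by norm_num)
  have z8 : X (-4) = 0 := hz (-4) (by norm_num)
  have z9 : X (-3) = 0 := hz (-3) (by norm_num)
  have z10 : X (-2) = 0 := hz (-2) (by norm_num)
  have z11 : X (-1) = 0 := hz (-1) (by norm_num)
  have b1 := abs_le.mp (hb 1)
  have b2 := abs_le.mp (hb 2)
  have b3 := abs_le.mp (hb 3)
  have b4 := abs_le.mp (hb 4)
  have b5 := abs_le.mp (hb 5)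
  have b6 := abs_le.mp (hb 6)
  have e1 := hF ![(11/80), (9/200), (-29/800), (17/100), (-3/800), (57/800), (151/800)]
    ![(-151/800), (-57/800), (3/800), (-17/100), (29/800), (-9/200), (-11/80)]
  simp only [IR23p, Fin.sum_univ_succ, Fin.sum_univ_zero, Matrix.cons_val_zero,
    Matrix.cons_val_succ] at e1
  norm_num [z0, z1, z2, z3, z4, z5, z6, z7, z8, z9, z10, z11] at e1
  have e2 := hF ![(-21/400), (7/80), (-23/400), (-9/400), (71/800), (-47/400), (29/400)]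
    ![(29/400), (-47/400), (71/800), (-9/400), (-23/400), (7/80), (-21/400)]
  simp only [IR23p, Fin.sum_univ_succ, Fin.sum_univ_zero, Matrix.cons_val_zero,
    Matrix.cons_val_succ] at e2
  norm_num [z0, z1, z2, z3, z4, z5, z6, z7, z8, z9, z10, z11] at e2
  have e3 := hG ![(3/20), (3/50), (-33/800), (-47/800), (1/200), (-37/400), (-33/160)]
    ![(-33/160), (-37/400), (1/200), (-47/800), (-33/800), (3/50), (3/20)]
  simp only [IR23p, Fin.sum_univ_succ, Fin.sum_univ_zero, Matrix.cons_val_zero,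
    Matrix.cons_val_succ] at e3
  norm_num [z0, z1, z2, z3, z4, z5, z6, z7, z8, z9, z10, z11] at e3
  have e4 := hG ![(1/50), (-59/800), (-87/800), (1/160), (59/400), (79/800), (-11/400)]
    ![(-11/400), (79/800), (59/400), (1/160), (-87/800), (-59/800), (1/50)]
  simp only [IR23p, Fin.sum_univ_succ, Fin.sum_univ_zero, Matrix.cons_val_zero,
    Matrix.cons_val_succ] at e4
  norm_num [z0, z1, z2, z3, z4, z5, z6, z7, z8, z9, z10, z11] at e4
  have e5 := hG ![(-9/200), (87/800), (-11/160), (9/400), (-81/800), (117/800), (-1/16)]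
    ![(1/16), (-117/800), (81/800), (-9/400), (11/160), (-87/800), (9/200)]
  simp only [IR23p, Fin.sum_univ_succ, Fin.sum_univ_zero, Matrix.cons_val_zero,
    Matrix.cons_val_succ] at e5
  norm_num [z0, z1, z2, z3, z4, z5, z6, z7, z8, z9, z10, z11] at e5
  have e6 := hG ![(11/160), (19/800), (-27/800), (-133/800), (-9/400), (29/800), (3/32)]
    ![(-3/32), (-29/800), (9/400), (133/800), (27/800), (-19/800), (-11/160)]
  simp only [IR23p, Fin.sum_univ_succ, Fin.sum_univ_zero, Matrix.cons_val_zero,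
    Matrix.cons_val_succ] at e6
  norm_num [z0, z1, z2, z3, z4, z5, z6, z7, z8, z9, z10, z11] at e6
  linarith [e1, e2, e3, e4, e5, e6, b1.1, b1.2, b2.1, b2.2, b3.1, b3.2, b4.1, b4.2, b5.1, b5.2, b6.1, b6.2]

/-- index set of the certificate `R23m` -/
def IR23m : Fin 7 → ℤ := ![0, 1, 2, 3, 4, 5, 6]

theorem cert_R23m  (X : ℤ → ℝ)
    (hz : ∀ i : ℤ, i < 0 → X i = 0) (hb : ∀ i : ℤ, |X i| ≤ 1)
    (hG : ∀ p q : Fin 7 → ℝ, 0 ≤ ∑ a, p a ^ 2 + ∑ a, q a ^ 2 +
      2 * ∑ a, ∑ b, p a * q b * X (IR23m a - IR23m b))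
    (hF : ∀ p q : Fin 7 → ℝ, 0 ≤ ∑ a, p a ^ 2 + ∑ a, q a ^ 2 +
      2 * ∑ a, ∑ b, p a * q b *
        (X (IR23m a - IR23m b) + X ((IR23m a - IR23m b)-3) - X ((IR23m a - IR23m b)-5) + X ((IR23m a - IR23m b)-6))) :
    X 0 ≤ 733 / 1000 := by
  have z0 : X (-12) = 0 := hz (-12) (by norm_num)
  have z1 : X (-11) = 0 := hz (-11) (by norm_num)
  have z2 : X (-10) = 0 := hz (-10) (by norm_num)
  have z3 : X (-9) = 0 := hz (-9) (by norm_num)
  have z4 : X (-8) = 0 := hz (-8) (by norm_num)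
  have z5 : X (-7) = 0 := hz (-7) (by norm_num)
  have z6 : X (-6) = 0 := hz (-6) (by norm_num)
  have z7 : X (-5) = 0 := hz (-5) (by norm_num)
  have z8 : X (-4) = 0 := hz (-4) (by norm_num)
  have z9 : X (-3) = 0 := hz (-3) (by norm_num)
  have z10 : X (-2) = 0 := hz (-2) (by norm_num)
  have z11 : X (-1) = 0 := hz (-1) (by norm_num)
  have b1 := abs_le.mp (hb 1)
  have b2 := abs_le.mp (hb 2)
  have b3 := abs_le.mp (hb 3)
  have b4 := abs_le.mp (hb 4)
  have b5 := abs_le.mp (hb 5)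
  have b6 := abs_le.mp (hb 6)
  have e1 := hF ![(7/400), (3/40), (41/400), (43/400), (13/100), (41/400), (1/40)]
    ![(-1/40), (-41/400), (-13/100), (-43/400), (-41/400), (-3/40), (-7/400)]
  simp only [IR23m, Fin.sum_univ_succ, Fin.sum_univ_zero, Matrix.cons_val_zero,
    Matrix.cons_val_succ] at e1
  norm_num [z0, z1, z2, z3, z4, z5, z6, z7, z8, z9, z10, z11] at e1
  have e2 := hF ![(-7/80), (-21/200), (-1/200), (-7/200), (-11/400), (7/50), (3/25)]
    ![(3/25), (7/50), (-11/400), (-7/200), (-1/200), (-21/200), (-7/80)]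
  simp only [IR23m, Fin.sum_univ_succ, Fin.sum_univ_zero, Matrix.cons_val_zero,
    Matrix.cons_val_succ] at e2
  norm_num [z0, z1, z2, z3, z4, z5, z6, z7, z8, z9, z10, z11] at e2
  have e3 := hF ![(3/25), (-3/50), (-1/200), (3/25), (-3/80), (-9/100), (33/200)]
    ![(-33/200), (9/100), (3/80), (-3/25), (1/200), (3/50), (-3/25)]
  simp only [IR23m, Fin.sum_univ_succ, Fin.sum_univ_zero, Matrix.cons_val_zero,
    Matrix.cons_val_succ] at e3
  norm_num [z0, z1, z2, z3, z4, z5, z6, z7, z8, z9, z10, z11] at e3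
  have e4 := hG ![(-43/400), (51/400), (9/200), (11/200), (-17/200), (-73/400), (3/20)]
    ![(3/20), (-73/400), (-17/200), (11/200), (9/200), (51/400), (-43/400)]
  simp only [IR23m, Fin.sum_univ_succ, Fin.sum_univ_zero, Matrix.cons_val_zero,
    Matrix.cons_val_succ] at e4
  norm_num [z0, z1, z2, z3, z4, z5, z6, z7, z8, z9, z10, z11] at e4
  have e5 := hG ![(1/200), (17/200), (-39/400), (1/25), (-7/50), (23/200), (1/200)]
    ![(-1/200), (-23/200), (7/50), (-1/25), (39/400), (-17/200), (-1/200)]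
  simp only [IR23m, Fin.sum_univ_succ, Fin.sum_univ_zero, Matrix.cons_val_zero,
    Matrix.cons_val_succ] at e5
  norm_num [z0, z1, z2, z3, z4, z5, z6, z7, z8, z9, z10, z11] at e5
  have e6 := hG ![(7/100), (1/80), (1/400), (-57/400), (-1/50), (1/80), (19/200)]
    ![(-19/200), (-1/80), (1/50), (57/400), (-1/400), (-1/80), (-7/100)]
  simp only [IR23m, Fin.sum_univ_succ, Fin.sum_univ_zero, Matrix.cons_val_zero,
    Matrix.cons_val_succ] at e6
  norm_num [z0, z1, z2, z3, z4, z5, z6, z7, z8, z9, z10, z11] at e6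
  linarith [e1, e2, e3, e4, e5, e6, b1.1, b1.2, b2.1, b2.2, b3.1, b3.2, b4.1, b4.2, b5.1, b5.2, b6.1, b6.2]

/-- index set of the certificate `R12m` -/
def IR12m : Fin 5 → ℤ := ![0, 1, 2, 3, 4]

theorem cert_R12m  (X : ℤ → ℝ)
    (hz : ∀ i : ℤ, i < 0 → X i = 0) (hb : ∀ i : ℤ, |X i| ≤ 1)
    (hG : ∀ p q : Fin 5 → ℝ, 0 ≤ ∑ a, p a ^ 2 + ∑ a, q a ^ 2 +
      2 * ∑ a, ∑ b, p a * q b * X (IR12m a - IR12m b))
    (hF : ∀ p q : Fin 5 → ℝ, 0 ≤ ∑ a, p a ^ 2 + ∑ a, q a ^ 2 +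
      2 * ∑ a, ∑ b, p a * q b *
        (X (IR12m a - IR12m b) - X ((IR12m a - IR12m b)-2) + X ((IR12m a - IR12m b)-3) + X ((IR12m a - IR12m b)-4))) :
    X 0 ≤ 733 / 1000 := by
  have z0 : X (-8) = 0 := hz (-8) (by norm_num)
  have z1 : X (-7) = 0 := hz (-7) (by norm_num)
  have z2 : X (-6) = 0 := hz (-6) (by norm_num)
  have z3 : X (-5) = 0 := hz (-5) (by norm_num)
  have z4 : X (-4) = 0 := hz (-4) (by norm_num)
  have z5 : X (-3) = 0 := hz (-3) (by norm_num)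
  have z6 : X (-2) = 0 := hz (-2) (by norm_num)
  have z7 : X (-1) = 0 := hz (-1) (by norm_num)
  have b1 := abs_le.mp (hb 1)
  have b2 := abs_le.mp (hb 2)
  have b3 := abs_le.mp (hb 3)
  have b4 := abs_le.mp (hb 4)
  have e1 := hF ![(4/25), (11/100), (-3/20), (13/100), (23/100)]
    ![(-23/100), (-13/100), (3/20), (-11/100), (-4/25)]
  simp only [IR12m, Fin.sum_univ_succ, Fin.sum_univ_zero, Matrix.cons_val_zero,
    Matrix.cons_val_succ] at e1
  norm_num [z0, z1, z2, z3, z4, z5, z6, z7] at e1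
  have e2 := hF ![(-1/25), (1/20), (1/100), (-2/25), (3/50)]
    ![(3/50), (-2/25), (1/100), (1/20), (-1/25)]
  simp only [IR12m, Fin.sum_univ_succ, Fin.sum_univ_zero, Matrix.cons_val_zero,
    Matrix.cons_val_succ] at e2
  norm_num [z0, z1, z2, z3, z4, z5, z6, z7] at e2
  have e3 := hG ![(-9/50), (-2/25), (-7/100), (2/25), (1/4)]
    ![(1/4), (2/25), (-7/100), (-2/25), (-9/50)]
  simp only [IR12m, Fin.sum_univ_succ, Fin.sum_univ_zero, Matrix.cons_val_zero,
    Matrix.cons_val_succ] at e3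
  norm_num [z0, z1, z2, z3, z4, z5, z6, z7] at e3
  have e4 := hG ![(7/100), (-3/25), (11/100), (-9/50), (1/10)]
    ![(-1/10), (9/50), (-11/100), (3/25), (-7/100)]
  simp only [IR12m, Fin.sum_univ_succ, Fin.sum_univ_zero, Matrix.cons_val_zero,
    Matrix.cons_val_succ] at e4
  norm_num [z0, z1, z2, z3, z4, z5, z6, z7] at e4
  have e5 := hG ![(-1/25), (-3/50), (-3/25), (-2/25), (-3/50)]
    ![(3/50), (2/25), (3/25), (3/50), (1/25)]
  simp only [IR12m, Fin.sum_univ_succ, Fin.sum_univ_zero, Matrix.cons_val_zero,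
    Matrix.cons_val_succ] at e5
  norm_num [z0, z1, z2, z3, z4, z5, z6, z7] at e5
  linarith [e1, e2, e3, e4, e5, b1.1, b1.2, b2.1, b2.2, b3.1, b3.2, b4.1, b4.2]

end Pool.Agent.L0h20.MM
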