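import Mathlib

/-! Power series that are contractive multipliers, and the sequences of their (real parts of)
coefficients. -/

namespace Pool.Agent.L0h20.MM

open Finset

/-- `F` is a contractive multiplier: for every power series `u` and every `N` the first `N`
coefficients of `F * u` have square sum at most that of the first `N` coefficients of `u`. -/
def CM (F : PowerSeries ℂ) : Prop :=
  ∀ (u : PowerSeries ℂ) (N : ℕ),
    ∑ n ∈ range N, ‖PowerSeries.coeff n (F * u)‖ ^ 2 ≤ ∑ n ∈ range N, ‖PowerSeries.coeff n u‖ ^ 2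

theorem CM.mul {F G : PowerSeries ℂ} (hF : CM F) (hG : CM G) : CM (F * G) := fun u N => by
  rw [mul_assoc]; exact (hF _ N).trans (hG _ N)

theorem CM_one : CM 1 := fun u N => by simp

theorem CM_C {c : ℂ} (hc : ‖c‖ ≤ 1) : CM (PowerSeries.C c) := fun u N => by
  refine Finset.sum_le_sum fun n _ => ?_
  rw [PowerSeries.coeff_C_mul, norm_mul, mul_pow]
  have h1 : ‖c‖ ^ 2 ≤ 1 := pow_le_one₀ (norm_nonneg _) hc
  nlinarith [sq_nonneg ‖PowerSeries.coeff n u‖]

theorem CM_multiset_prod (s : Multiset (PowerSeries ℂ)) (h : ∀ F ∈ s, CM F) : CM s.prod := by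
  induction s using Multiset.induction_on with
  | empty => simpa using CM_one
  | cons a s ih =>
    rw [Multiset.prod_cons]
    exact (h a (Multiset.mem_cons_self _ _)).mul
      (ih fun F hF => h F (Multiset.mem_cons_of_mem hF))

theorem norm_identity (α a b : ℂ) :
    ‖a - (starRingEnd ℂ) α * b‖ ^ 2 - ‖b - α * a‖ ^ 2 = (1 - ‖α‖ ^ 2) * (‖a‖ ^ 2 - ‖b‖ ^ 2) := by
  simp only [Complex.sq_norm, Complex.normSq_apply]
  simp only [Complex.sub_re, Complex.sub_im, Complex.mul_re, Complex.mul_im, Complex.conj_re,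
    Complex.conj_im]
  ring

theorem telescope (α : ℂ) (h : PowerSeries ℂ) (N : ℕ) :
    ∑ n ∈ range N, ‖PowerSeries.coeff n
        (h - PowerSeries.C ((starRingEnd ℂ) α) * (PowerSeries.X * h))‖ ^ 2 -
      ∑ n ∈ range N, ‖PowerSeries.coeff n (PowerSeries.X * h - PowerSeries.C α * h)‖ ^ 2 =
    (1 - ‖α‖ ^ 2) * ‖PowerSeries.coeff N (PowerSeries.X * h)‖ ^ 2 := by
  induction N with
  | zero => simp
  | succ N ih =>
    rw [sum_range_succ, sum_range_succ]
    have key := norm_identity α (PowerSeries.coeff N h) (PowerSeries.coeff N (PowerSeries.X * h))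
    have e1 : PowerSeries.coeff N
        (h - PowerSeries.C ((starRingEnd ℂ) α) * (PowerSeries.X * h)) =
        PowerSeries.coeff N h - (starRingEnd ℂ) α * PowerSeries.coeff N (PowerSeries.X * h) := by
      rw [map_sub, PowerSeries.coeff_C_mul]
    have e2 : PowerSeries.coeff N (PowerSeries.X * h - PowerSeries.C α * h) =
        PowerSeries.coeff N (PowerSeries.X * h) - α * PowerSeries.coeff N h := by
      rw [map_sub, PowerSeries.coeff_C_mul]
    have e3 : PowerSeries.coeff (N + 1) (PowerSeries.X * h) = PowerSeries.coeff N h := by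
      rw [PowerSeries.coeff_succ_X_mul]
    rw [e1, e2, e3]
    linarith

/-- the Blaschke factor of a number in the closed unit disc -/
noncomputable def Bl (α : ℂ) : PowerSeries ℂ :=
  (PowerSeries.X - PowerSeries.C α) * (1 - PowerSeries.C ((starRingEnd ℂ) α) * PowerSeries.X)⁻¹

/-- the reciprocal factor, for a number outside the unit disc -/
noncomputable def Cl (α : ℂ) : PowerSeries ℂ :=
  (1 - PowerSeries.C ((starRingEnd ℂ) α) * PowerSeries.X) * (PowerSeries.X - PowerSeries.C α)⁻¹

theorem Bl_spec (α : ℂ) : Bl α * (1 - PowerSeries.C ((starRingEnd ℂ) α) * PowerSeries.X) =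
    PowerSeries.X - PowerSeries.C α := by
  unfold Bl
  rw [mul_assoc, PowerSeries.inv_mul_cancel, mul_one]
  simp

theorem Cl_spec {α : ℂ} (hα : α ≠ 0) : Cl α * (PowerSeries.X - PowerSeries.C α) =
    1 - PowerSeries.C ((starRingEnd ℂ) α) * PowerSeries.X := by
  unfold Cl
  rw [mul_assoc, PowerSeries.inv_mul_cancel, mul_one]
  simpa using hα

theorem CM_Bl {α : ℂ} (hα : ‖α‖ ≤ 1) : CM (Bl α) := by
  intro u N
  set h : PowerSeries ℂ :=
    (1 - PowerSeries.C ((starRingEnd ℂ) α) * PowerSeries.X)⁻¹ * u with hh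
  have hu : u = h - PowerSeries.C ((starRingEnd ℂ) α) * (PowerSeries.X * h) := by
    have : u = (1 - PowerSeries.C ((starRingEnd ℂ) α) * PowerSeries.X) * h := by
      rw [hh, ← mul_assoc, PowerSeries.mul_inv_cancel, one_mul]
      simp
    rw [this]; ring
  have hB : Bl α * u = PowerSeries.X * h - PowerSeries.C α * h := by
    rw [hh]; unfold Bl; ring
  have := telescope α h N
  rw [← hu, ← hB] at this
  have h1 : 0 ≤ 1 - ‖α‖ ^ 2 := by
    have : ‖α‖ ^ 2 ≤ 1 := pow_le_one₀ (norm_nonneg _) hα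
    linarith
  nlinarith [mul_nonneg h1 (sq_nonneg ‖PowerSeries.coeff N (PowerSeries.X * h)‖)]

theorem CM_Cl {α : ℂ} (hα : 1 < ‖α‖) : CM (Cl α) := by
  intro u N
  have hα0 : α ≠ 0 := by
    rintro rfl; simp at hα; linarith
  set h : PowerSeries ℂ := (PowerSeries.X - PowerSeries.C α)⁻¹ * u with hh
  have hu : u = PowerSeries.X * h - PowerSeries.C α * h := by
    have : u = (PowerSeries.X - PowerSeries.C α) * h := by
      rw [hh, ← mul_assoc, PowerSeries.mul_inv_cancel, one_mul]
      simpa using hα0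
    rw [this]; ring
  have hB : Cl α * u = h - PowerSeries.C ((starRingEnd ℂ) α) * (PowerSeries.X * h) := by
    rw [hh]; unfold Cl; ring
  have := telescope α h N
  rw [← hu, ← hB] at this
  have h1 : 1 ≤ ‖α‖ ^ 2 := one_le_pow₀ hα.le
  nlinarith [mul_nonneg (sub_nonneg.mpr h1) (sq_nonneg ‖PowerSeries.coeff N (PowerSeries.X * h)‖)]

theorem constantCoeff_Cl (α : ℂ) : PowerSeries.constantCoeff (Cl α) = -α⁻¹ := by
  unfold Cl
  rw [map_mul, PowerSeries.constantCoeff_inv]
  simp

/-- the inequality satisfied by the coefficients of a contractive multiplier, all index sets -/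
def SC (F : ℤ → ℝ) : Prop :=
  ∀ (m : ℕ) (I : Fin m → ℤ), Function.Injective I → ∀ p q : Fin m → ℝ,
    0 ≤ ∑ a, p a ^ 2 + ∑ a, q a ^ 2 + 2 * ∑ a, ∑ b, p a * q b * F (I a - I b)

/-- real parts of the coefficients, extended by zero -/
noncomputable def rc (H : PowerSeries ℂ) (n : ℤ) : ℝ :=
  if 0 ≤ n then (PowerSeries.coeff n.toNat H).re else 0

theorem SC_rc {H : PowerSeries ℂ} (hH : CM H) : SC (rc H) := by
  classical
  intro m I hI p q
  -- shift the indices
  obtain ⟨L, hL⟩ : ∃ L : ℤ, ∀ a, 0 ≤ I a + L := by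
    refine ⟨∑ a, |I a|, fun a => ?_⟩
    have h1 : |I a| ≤ ∑ a, |I a| := Finset.single_le_sum (fun i _ => abs_nonneg (I i)) (mem_univ a)
    have h2 := neg_abs_le (I a)
    linarith
  obtain ⟨J, hJc⟩ : ∃ J : Fin m → ℕ, ∀ a, (J a : ℤ) = I a + L :=
    ⟨fun a => (I a + L).toNat, fun a => Int.toNat_of_nonneg (hL a)⟩
  have hJi : Function.Injective J := fun a b hab => hI (by
    have := congrArg (fun n : ℕ => (n : ℤ)) hab
    simp only [hJc] at this
    linarith)
  obtain ⟨N, hN⟩ : ∃ N, ∀ a, J a < N := by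
    refine ⟨(∑ a, J a) + 1, fun a => ?_⟩
    have h1 : J a ≤ ∑ a, J a := Finset.single_le_sum (fun i _ => Nat.zero_le (J i)) (mem_univ a)
    omega
  obtain ⟨u, hu⟩ : ∃ u : PowerSeries ℂ,
      u = ∑ b, PowerSeries.C ((q b : ℝ) : ℂ) * PowerSeries.X ^ (J b) := ⟨_, rfl⟩
  have hcu : ∀ n, PowerSeries.coeff n u = ∑ b, if n = J b then ((q b : ℝ) : ℂ) else 0 := by
    intro n
    rw [hu, map_sum]
    refine Finset.sum_congr rfl fun b _ => ?_
    rw [PowerSeries.coeff_C_mul, PowerSeries.coeff_X_pow]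
    split_ifs <;> simp
  have hcHu : ∀ a, (PowerSeries.coeff (J a) (H * u)).re = ∑ b, q b * rc H (I a - I b) := by
    intro a
    rw [hu, Finset.mul_sum, map_sum, Complex.re_sum]
    refine Finset.sum_congr rfl fun b _ => ?_
    rw [show H * (PowerSeries.C ((q b : ℝ) : ℂ) * PowerSeries.X ^ (J b)) =
      PowerSeries.C ((q b : ℝ) : ℂ) * (H * PowerSeries.X ^ (J b)) by ring,
      PowerSeries.coeff_C_mul, PowerSeries.coeff_mul_X_pow', Complex.re_ofReal_mul]
    unfold rc
    by_cases hab : J b ≤ J a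
    · have h1 : 0 ≤ I a - I b := by
        have := hJc a; have := hJc b
        have : (J b : ℤ) ≤ J a := by exact_mod_cast hab
        linarith
      rw [if_pos hab, if_pos h1]
      have h2 : (I a - I b).toNat = J a - J b := by
        have h3 : ((J a - J b : ℕ) : ℤ) = I a - I b := by
          rw [Nat.cast_sub hab, hJc, hJc]; ring
        rw [← h3, Int.toNat_natCast]
      rw [h2]
    · have h1 : ¬ 0 ≤ I a - I b := by
        intro h0
        apply hab
        have := hJc a; have := hJc b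
        have : (J b : ℤ) ≤ J a := by linarith
        exact_mod_cast this
      rw [if_neg hab, if_neg h1]
      simp
  have hsum_u : ∑ n ∈ range N, ‖PowerSeries.coeff n u‖ ^ 2 = ∑ b, q b ^ 2 := by
    have hsub : univ.image J ⊆ range N := by
      intro n hn
      obtain ⟨a, -, rfl⟩ := mem_image.mp hn
      exact mem_range.mpr (hN a)
    rw [← Finset.sum_subset hsub, Finset.sum_image fun a _ b _ h => hJi h]
    · refine Finset.sum_congr rfl fun b _ => ?_
      rw [hcu]
      have : (∑ c, if J b = J c then ((q c : ℝ) : ℂ) else 0) = ((q b : ℝ) : ℂ) := by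
        rw [Finset.sum_eq_single b]
        · simp
        · intro c _ hc
          rw [if_neg fun h => hc (hJi h).symm]
        · simp
      rw [this]
      simp
    · intro n _ hn
      rw [hcu, Finset.sum_eq_zero]
      · simp
      · intro b _
        rw [if_neg]
        rintro rfl
        exact hn (mem_image_of_mem J (mem_univ b))
  have hsum_w : ∑ a, ‖PowerSeries.coeff (J a) (H * u)‖ ^ 2 ≤
      ∑ n ∈ range N, ‖PowerSeries.coeff n (H * u)‖ ^ 2 := by
    have hsub : univ.image J ⊆ range N := by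
      intro n hn
      obtain ⟨a, -, rfl⟩ := mem_image.mp hn
      exact mem_range.mpr (hN a)
    rw [← Finset.sum_image (s := univ) (g := J)
      (f := fun n => ‖PowerSeries.coeff n (H * u)‖ ^ 2) fun a _ b _ h => hJi h]
    exact Finset.sum_le_sum_of_subset_of_nonneg hsub fun _ _ _ => sq_nonneg _
  have hmain := hH u N
  rw [hsum_u] at hmain
  have hre : ∑ a, (PowerSeries.coeff (J a) (H * u)).re ^ 2 ≤ ∑ b, q b ^ 2 := by
    refine le_trans (Finset.sum_le_sum fun a _ => ?_) (hsum_w.trans hmain)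
    rw [Complex.sq_norm, Complex.normSq_apply]
    nlinarith [sq_nonneg (PowerSeries.coeff (J a) (H * u)).im]
  have hsq : 0 ≤ ∑ a, (p a + (PowerSeries.coeff (J a) (H * u)).re) ^ 2 :=
    Finset.sum_nonneg fun _ _ => sq_nonneg _
  have hexp : ∑ a, (p a + (PowerSeries.coeff (J a) (H * u)).re) ^ 2 =
      ∑ a, p a ^ 2 + 2 * ∑ a, ∑ b, p a * q b * rc H (I a - I b) +
        ∑ a, (PowerSeries.coeff (J a) (H * u)).re ^ 2 := by
    rw [Finset.mul_sum, ← Finset.sum_add_distrib, ← Finset.sum_add_distrib]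
    refine Finset.sum_congr rfl fun a _ => ?_
    have : ∑ b, p a * q b * rc H (I a - I b) = p a * (PowerSeries.coeff (J a) (H * u)).re := by
      rw [hcHu, Finset.mul_sum]
      exact Finset.sum_congr rfl fun b _ => by ring
    rw [this]; ring
  linarith

end Pool.Agent.L0h20.MM
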