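import Mathlib
import Pool.Agent.L0h20.MM.Schur

/-! Transfer of the inequality `SC` to formal index sets, with signs. -/

namespace Pool.Agent.L0h20.MM

open Finset

/-- the sign `(-1) ^ n` -/
noncomputable def sg (n : ℤ) : ℝ := ((n.negOnePow : ℤˣ) : ℤ)

theorem sg_add (m n : ℤ) : sg (m + n) = sg m * sg n := by
  unfold sg
  rw [Int.negOnePow_add]
  push_cast
  ring

theorem sg_cases (n : ℤ) : sg n = 1 ∨ sg n = -1 := by
  unfold sg
  rcases Int.even_or_odd n with h | h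
  · left; rw [Int.negOnePow_even n h]; simp
  · right; rw [Int.negOnePow_odd n h]; simp

theorem sg_sq (n : ℤ) : sg n * sg n = 1 := by
  rcases sg_cases n with h | h <;> rw [h] <;> norm_num

theorem sg_neg (n : ℤ) : sg (-n) = sg n := by
  have h1 : sg (-n) * sg n = 1 := by
    rw [← sg_add]; simp [sg]
  have h2 := sg_sq n
  rcases sg_cases n with h | h <;> rw [h] at h1 ⊢ <;> linarith

theorem sg_sub (m n : ℤ) : sg (m - n) = sg m * sg n := by
  rw [sub_eq_add_neg, sg_add, sg_neg]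

theorem sg_zero : sg 0 = 1 := by simp [sg]

theorem sg_one : sg 1 = -1 := by simp [sg]

theorem sg_two_mul (n : ℤ) : sg (2 * n) = 1 := by
  rw [two_mul, sg_add, sg_sq]

/-- general transfer principle -/
theorem lift {ι : Type*} [Sub ι] (E : ι → ℤ) (χ : ι → ℝ) (hE : ∀ x y, E (x - y) = E x - E y)
    (hχ : ∀ x y, χ (x - y) = χ x * χ y) (h1 : ∀ x, χ x * χ x = 1) {F : ℤ → ℝ} (hF : SC F)
    (K : ℤ) (Y : ι → ℝ) (hY : ∀ x, E x ≤ K → Y x = χ x * F (E x)) {m : ℕ} (I : Fin m → ι)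
    (hI : Function.Injective fun a => E (I a)) (hK : ∀ a, 0 ≤ E (I a) ∧ E (I a) ≤ K)
    (p q : Fin m → ℝ) :
    0 ≤ ∑ a, p a ^ 2 + ∑ a, q a ^ 2 + 2 * ∑ a, ∑ b, p a * q b * Y (I a - I b) := by
  have h := hF m (fun a => E (I a)) hI (fun a => χ (I a) * p a) (fun a => χ (I a) * q a)
  have e1 : ∀ r : Fin m → ℝ, ∑ a, (χ (I a) * r a) ^ 2 = ∑ a, r a ^ 2 := fun r =>
    Finset.sum_congr rfl fun a _ => by
      rw [mul_pow, sq (χ (I a)), h1, one_mul]
  rw [e1, e1] at h
  convert h using 3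
  refine Finset.sum_congr rfl fun a _ => Finset.sum_congr rfl fun b _ => ?_
  have h2 : E (I a - I b) ≤ K := by
    rw [hE]; have := (hK a).2; have := (hK b).1; linarith
  rw [hY _ h2, hχ, hE]
  ring

theorem SC.abs_le_one {F : ℤ → ℝ} (hF : SC F) (n : ℤ) : |F n| ≤ 1 := by
  by_cases hn : n = 0
  · subst hn
    rw [abs_le]
    have h1 := hF 1 ![0] (fun a b _ => Subsingleton.elim a b) ![1] ![1]
    have h2 := hF 1 ![0] (fun a b _ => Subsingleton.elim a b) ![1] ![-1]
    simp at h1 h2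
    constructor <;> linarith
  · have hinj : Function.Injective ![(0 : ℤ), n] := by
      intro a b hab
      fin_cases a <;> fin_cases b <;> simp_all
    rw [abs_le]
    have h1 := hF 2 ![0, n] hinj ![0, 1] ![1, 0]
    have h2 := hF 2 ![0, n] hinj ![0, 1] ![-1, 0]
    simp [Fin.sum_univ_succ] at h1 h2
    constructor <;> linarith

theorem SC.abs_le {F : ℤ → ℝ} (hF : SC F) (hneg : ∀ n < 0, F n = 0) (n : ℤ) (hn : 0 < n) :
    |F n| ≤ 1 - F 0 ^ 2 := by
  have hinj : Function.Injective ![(0 : ℤ), n] := by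
    intro a b hab
    fin_cases a <;> fin_cases b <;> simp_all
  have h0 : F (-n) = 0 := hneg _ (by linarith)
  rw [_root_.abs_le]
  have h1 := hF 2 ![0, n] hinj ![-F 0, -1] ![1, F 0]
  have h2 := hF 2 ![0, n] hinj ![-F 0, 1] ![1, -F 0]
  simp [Fin.sum_univ_succ, h0] at h1 h2
  constructor <;> nlinarith

end Pool.Agent.L0h20.MM
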