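import Mathlib
import Pool.Agent.L0h20.MM.Lift
import Pool.Agent.L0h20.MM.CertsA
import Pool.Agent.L0h20.MM.CertsB
-- import Pool.Agent.L0h20.MM.Exact

/-! Combination of the certificates. -/

set_option maxHeartbeats 4000000

namespace Pool.Agent.L0h20.MM

open Finset

theorem abs_sg_mul (n : ℤ) (x : ℝ) : |sg n * x| = |x| := by
  rcases sg_cases n with h | h <;> rw [h] <;> simp

section two

variable {G F : ℤ → ℝ} (hG : SC G) (hF : SC F) (nG : ∀ n < 0, G n = 0)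

include hG hF nG

/-- Case `a_m = 0` for `ℓ < m < 2 k`, coefficient `v` at `2 k`; generic certificates. -/
theorem two_lift (k d ε1 ε2 v : ℤ)
    (hrel : ∀ e ≤ 2 * k, F e = G e + sg ε1 * G (e - k) + sg (ε1 + ε2) * G (e - k - d) +
      v * G (e - 2 * k)) (hk : 0 < k) {m : ℕ} (I : Fin m → ℤ × ℤ)
    (hI : Function.Injective fun a => (I a).1 * k + (I a).2 * d)
    (hK : ∀ a, 0 ≤ (I a).1 * k + (I a).2 * d ∧ (I a).1 * k + (I a).2 * d ≤ 2 * k) :
    (∀ i j : ℤ, i * k + j * d < 0 → sg (ε1 * i + ε2 * j) * G (i * k + j * d) = 0) ∧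
    (∀ i j : ℤ, |sg (ε1 * i + ε2 * j) * G (i * k + j * d)| ≤ 1) ∧
    (∀ p q : Fin m → ℝ, 0 ≤ ∑ a, p a ^ 2 + ∑ a, q a ^ 2 + 2 * ∑ a, ∑ b, p a * q b *
      (fun i j : ℤ => sg (ε1 * i + ε2 * j) * G (i * k + j * d))
        ((I a).1 - (I b).1) ((I a).2 - (I b).2)) ∧
    (∀ p q : Fin m → ℝ, 0 ≤ ∑ a, p a ^ 2 + ∑ a, q a ^ 2 + 2 * ∑ a, ∑ b, p a * q b *
      (fun i j : ℤ => (sg (ε1 * i + ε2 * j) * G (i * k + j * d) +
        sg (ε1 * (i - 1) + ε2 * j) * G ((i - 1) * k + j * d) +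
        sg (ε1 * (i - 1) + ε2 * (j - 1)) * G ((i - 1) * k + (j - 1) * d) +
        v * (sg (ε1 * (i - 2) + ε2 * j) * G ((i - 2) * k + j * d))))
        ((I a).1 - (I b).1) ((I a).2 - (I b).2)) := by
  refine ⟨fun i j h => by rw [nG _ h, mul_zero], fun i j => by
    rw [abs_sg_mul]; exact hG.abs_le_one _, fun p q => ?_, fun p q => ?_⟩
  · exact lift (ι := ℤ × ℤ) (fun x => x.1 * k + x.2 * d) (fun x => sg (ε1 * x.1 + ε2 * x.2))
      (fun x y => by simp only [Prod.fst_sub, Prod.snd_sub]; ring)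
      (fun x y => by
        simp only [Prod.fst_sub, Prod.snd_sub]
        rw [← sg_sub]; congr 1; ring)
      (fun x => sg_sq _) hG (2 * k) (fun x => sg (ε1 * x.1 + ε2 * x.2) * G (x.1 * k + x.2 * d))
      (fun x _ => rfl) I hI hK p q
  · refine lift (ι := ℤ × ℤ) (fun x => x.1 * k + x.2 * d) (fun x => sg (ε1 * x.1 + ε2 * x.2))
      (fun x y => by simp only [Prod.fst_sub, Prod.snd_sub]; ring)
      (fun x y => by
        simp only [Prod.fst_sub, Prod.snd_sub]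
        rw [← sg_sub]; congr 1; ring)
      (fun x => sg_sq _) hF (2 * k)
      (fun x => (sg (ε1 * x.1 + ε2 * x.2) * G (x.1 * k + x.2 * d) +
        sg (ε1 * (x.1 - 1) + ε2 * x.2) * G ((x.1 - 1) * k + x.2 * d) +
        sg (ε1 * (x.1 - 1) + ε2 * (x.2 - 1)) * G ((x.1 - 1) * k + (x.2 - 1) * d) +
        v * (sg (ε1 * (x.1 - 2) + ε2 * x.2) * G ((x.1 - 2) * k + x.2 * d))))
      (fun x hx => ?_) I hI hK p q
    rw [hrel _ hx]
    have s1 : sg (ε1 * (x.1 - 1) + ε2 * x.2) = sg (ε1 * x.1 + ε2 * x.2) * sg ε1 := by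
      rw [← sg_sub]; congr 1; ring
    have s2 : sg (ε1 * (x.1 - 1) + ε2 * (x.2 - 1)) =
        sg (ε1 * x.1 + ε2 * x.2) * sg (ε1 + ε2) := by
      rw [← sg_sub]; congr 1; ring
    have s3 : sg (ε1 * (x.1 - 2) + ε2 * x.2) = sg (ε1 * x.1 + ε2 * x.2) := by
      rw [show ε1 * (x.1 - 2) + ε2 * x.2 = (ε1 * x.1 + ε2 * x.2) - 2 * ε1 by ring, sg_sub,
        sg_two_mul, mul_one]
    rw [s1, s2, s3, show (x.1 - 1) * k + x.2 * d = x.1 * k + x.2 * d - k by ring,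
      show (x.1 - 1) * k + (x.2 - 1) * d = x.1 * k + x.2 * d - k - d by ring,
      show (x.1 - 2) * k + x.2 * d = x.1 * k + x.2 * d - 2 * k by ring]
    ring

theorem caseB_v2 (k d ε1 ε2 : ℤ) (hd : 0 < d) (hk : d < k)
    (hrel : ∀ e ≤ 2 * k, F e = G e + sg ε1 * G (e - k) + sg (ε1 + ε2) * G (e - k - d) +
      (2 : ℤ) * G (e - 2 * k)) : G 0 ≤ 733 / 1000 := by
  obtain ⟨h1, h2, h3, h4⟩ := two_lift hG hF nG k d ε1 ε2 2 hrel (by omega) IB2
    (by
      intro a b hab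
      fin_cases a <;> fin_cases b <;> simp [IB2] at hab ⊢ <;> omega)
    (by
      intro a
      fin_cases a <;> simp [IB2] <;> omega)
  have := cert_B2 k d (fun i j => sg (ε1 * i + ε2 * j) * G (i * k + j * d)) hd hk h1 h2 h3
    (by simpa using h4)
  simpa [sg_zero] using this

theorem caseB_generic (k d ε1 ε2 : ℤ) (hd : 0 < d) (hk : d < k)
    (hrel : ∀ e ≤ 2 * k, F e = G e + sg ε1 * G (e - k) + sg (ε1 + ε2) * G (e - k - d) +
      (1 : ℤ) * G (e - 2 * k)) (h3 : 3 * d ≠ k) (h2 : 2 * d ≠ k) (h32 : 3 * d ≠ 2 * k) :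
    G 0 ≤ 733 / 1000 := by
  rcases lt_or_ge k (2 * d) with hA | hA
  · obtain ⟨h1, h2, h3, h4⟩ := two_lift hG hF nG k d ε1 ε2 1 hrel (by omega) IB121
      (by
        intro a b hab
        fin_cases a <;> fin_cases b <;> simp [IB121] at hab ⊢ <;> omega)
      (by
        intro a
        fin_cases a <;> simp [IB121] <;> omega)
    have := cert_B121 k d (fun i j => sg (ε1 * i + ε2 * j) * G (i * k + j * d)) hd hA hk h1 h2 h3
      (by simpa using h4)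
    simpa [sg_zero] using this
  · rcases lt_or_ge k (3 * d) with hB | hB
    · obtain ⟨h1, h2, h3, h4⟩ := two_lift hG hF nG k d ε1 ε2 1 hrel (by omega) IB1312
        (by
          intro a b hab
          fin_cases a <;> fin_cases b <;> simp [IB1312] at hab ⊢ <;> omega)
        (by
          intro a
          fin_cases a <;> simp [IB1312] <;> omega)
      have := cert_B1312 k d (fun i j => sg (ε1 * i + ε2 * j) * G (i * k + j * d)) hd hB
        (by omega) h1 h2 h3 (by simpa using h4)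
      simpa [sg_zero] using this
    · obtain ⟨h1, h2, h3, h4⟩ := two_lift hG hF nG k d ε1 ε2 1 hrel (by omega) IB013
        (by
          intro a b hab
          fin_cases a <;> fin_cases b <;> simp [IB013] at hab ⊢ <;> omega)
        (by
          intro a
          fin_cases a <;> simp [IB013] <;> omega)
      have := cert_B013 k d (fun i j => sg (ε1 * i + ε2 * j) * G (i * k + j * d)) hd
        (by omega) h1 h2 h3 (by simpa using h4)
      simpa [sg_zero] using this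

/-- equal gaps `k, k + d, k + 2 d`, third coefficient `b = ± 1` -/
theorem caseA_equal (k d ε1 ε2 ε3 : ℤ) (hd : 0 < d) (hk : 2 * d < k)
    (hrel : ∀ e ≤ k + 2 * d, F e = G e + sg ε1 * G (e - k) + sg (ε1 + ε2) * G (e - k - d) +
      sg ε3 * G (e - k - 2 * d)) : G 0 ≤ 733 / 1000 := by
  have hχ : ∀ x : ℤ × ℤ, x.1 * k + x.2 * d ≤ k + 2 * d →
      sg (ε1 * x.1 + ε2 * x.2) * G (x.1 * k + x.2 * d) +
        sg (ε1 * (x.1 - 1) + ε2 * x.2) * G ((x.1 - 1) * k + x.2 * d) +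
        sg (ε1 * (x.1 - 1) + ε2 * (x.2 - 1)) * G ((x.1 - 1) * k + (x.2 - 1) * d) +
        sg (ε1 + ε3) * (sg (ε1 * (x.1 - 1) + ε2 * (x.2 - 2)) *
          G ((x.1 - 1) * k + (x.2 - 2) * d)) =
      sg (ε1 * x.1 + ε2 * x.2) * F (x.1 * k + x.2 * d) := by
    intro x hx
    rw [hrel _ hx]
    have s1 : sg (ε1 * (x.1 - 1) + ε2 * x.2) = sg (ε1 * x.1 + ε2 * x.2) * sg ε1 := by
      rw [← sg_sub]; congr 1; ring
    have s2 : sg (ε1 * (x.1 - 1) + ε2 * (x.2 - 1)) =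
        sg (ε1 * x.1 + ε2 * x.2) * sg (ε1 + ε2) := by
      rw [← sg_sub]; congr 1; ring
    have s3 : sg (ε1 * (x.1 - 1) + ε2 * (x.2 - 2)) = sg (ε1 * x.1 + ε2 * x.2) * sg ε1 := by
      rw [show ε1 * (x.1 - 1) + ε2 * (x.2 - 2) = (ε1 * x.1 + ε2 * x.2) - ε1 - 2 * ε2 by ring,
        sg_sub, sg_two_mul, mul_one, sg_sub]
    have s4 := sg_sq ε1
    rw [s1, s2, s3, sg_add ε1 ε3, show (x.1 - 1) * k + x.2 * d = x.1 * k + x.2 * d - k by ring,
      show (x.1 - 1) * k + (x.2 - 1) * d = x.1 * k + x.2 * d - k - d by ring,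
      show (x.1 - 1) * k + (x.2 - 2) * d = x.1 * k + x.2 * d - k - 2 * d by ring]
    linear_combination (sg (ε1 * x.1 + ε2 * x.2) * sg ε3 *
      G (x.1 * k + x.2 * d - k - 2 * d)) * s4
  have hE : ∀ x y : ℤ × ℤ, (fun x : ℤ × ℤ => x.1 * k + x.2 * d) (x - y) =
      (fun x : ℤ × ℤ => x.1 * k + x.2 * d) x - (fun x : ℤ × ℤ => x.1 * k + x.2 * d) y :=
    fun x y => by simp only [Prod.fst_sub, Prod.snd_sub]; ring
  have hc : ∀ x y : ℤ × ℤ, (fun x : ℤ × ℤ => sg (ε1 * x.1 + ε2 * x.2)) (x - y) =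
      (fun x : ℤ × ℤ => sg (ε1 * x.1 + ε2 * x.2)) x *
      (fun x : ℤ × ℤ => sg (ε1 * x.1 + ε2 * x.2)) y := fun x y => by
    simp only [Prod.fst_sub, Prod.snd_sub]
    rw [← sg_sub]; congr 1; ring
  have hz : ∀ i j : ℤ, i * k + j * d < 0 → sg (ε1 * i + ε2 * j) * G (i * k + j * d) = 0 :=
    fun i j h => by rw [nG _ h, mul_zero]
  have hb : ∀ i j : ℤ, |sg (ε1 * i + ε2 * j) * G (i * k + j * d)| ≤ 1 := fun i j => by
    rw [abs_sg_mul]; exact hG.abs_le_one _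
  rcases sg_cases (ε1 + ε3) with hs | hs
  · have hinj : Function.Injective fun a => (IA0p a).1 * k + (IA0p a).2 * d := by
      intro a b hab
      fin_cases a <;> fin_cases b <;> simp [IA0p] at hab ⊢ <;> omega
    have hK : ∀ a, 0 ≤ (IA0p a).1 * k + (IA0p a).2 * d ∧
        (IA0p a).1 * k + (IA0p a).2 * d ≤ k + 2 * d := by
      intro a
      fin_cases a <;> simp [IA0p] <;> omega
    have := cert_A0p k d (fun i j => sg (ε1 * i + ε2 * j) * G (i * k + j * d)) hd hk hz hb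
      (fun p q => lift (ι := ℤ × ℤ) (fun x => x.1 * k + x.2 * d)
        (fun x => sg (ε1 * x.1 + ε2 * x.2)) hE hc (fun x => sg_sq _) hG (k + 2 * d)
        (fun x => sg (ε1 * x.1 + ε2 * x.2) * G (x.1 * k + x.2 * d)) (fun x _ => rfl) IA0p
        hinj hK p q)
      (fun p q => lift (ι := ℤ × ℤ) (fun x => x.1 * k + x.2 * d)
        (fun x => sg (ε1 * x.1 + ε2 * x.2)) hE hc (fun x => sg_sq _) hF (k + 2 * d)
        (fun x => sg (ε1 * x.1 + ε2 * x.2) * G (x.1 * k + x.2 * d) +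
        sg (ε1 * (x.1 - 1) + ε2 * x.2) * G ((x.1 - 1) * k + x.2 * d) +
        sg (ε1 * (x.1 - 1) + ε2 * (x.2 - 1)) * G ((x.1 - 1) * k + (x.2 - 1) * d) +
        sg (ε1 * (x.1 - 1) + ε2 * (x.2 - 2)) * G ((x.1 - 1) * k + (x.2 - 2) * d))
        (fun x hx => by rw [← hχ x hx, hs, one_mul]) IA0p hinj hK p q)
    simpa [sg_zero] using this
  · have hinj : Function.Injective fun a => (IA0m a).1 * k + (IA0m a).2 * d := by
      intro a b hab
      fin_cases a <;> fin_cases b <;> simp [IA0m] at hab ⊢ <;> omega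
    have hK : ∀ a, 0 ≤ (IA0m a).1 * k + (IA0m a).2 * d ∧
        (IA0m a).1 * k + (IA0m a).2 * d ≤ k + 2 * d := by
      intro a
      fin_cases a <;> simp [IA0m] <;> omega
    have := cert_A0m k d (fun i j => sg (ε1 * i + ε2 * j) * G (i * k + j * d)) hd hk hz hb
      (fun p q => lift (ι := ℤ × ℤ) (fun x => x.1 * k + x.2 * d)
        (fun x => sg (ε1 * x.1 + ε2 * x.2)) hE hc (fun x => sg_sq _) hG (k + 2 * d)
        (fun x => sg (ε1 * x.1 + ε2 * x.2) * G (x.1 * k + x.2 * d)) (fun x _ => rfl) IA0m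
        hinj hK p q)
      (fun p q => lift (ι := ℤ × ℤ) (fun x => x.1 * k + x.2 * d)
        (fun x => sg (ε1 * x.1 + ε2 * x.2)) hE hc (fun x => sg_sq _) hF (k + 2 * d)
        (fun x => sg (ε1 * x.1 + ε2 * x.2) * G (x.1 * k + x.2 * d) +
        sg (ε1 * (x.1 - 1) + ε2 * x.2) * G ((x.1 - 1) * k + x.2 * d) +
        sg (ε1 * (x.1 - 1) + ε2 * (x.2 - 1)) * G ((x.1 - 1) * k + (x.2 - 1) * d) -
        sg (ε1 * (x.1 - 1) + ε2 * (x.2 - 2)) * G ((x.1 - 1) * k + (x.2 - 2) * d))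
        (fun x hx => by rw [← hχ x hx, hs]; ring) IA0m hinj hK p q)
    simpa [sg_zero] using this

/-- three coefficients below `2 k`, generic gaps -/
theorem caseA_generic (k d h ε1 ε2 ε3 b : ℤ) (hd : 0 < d) (hh : 0 < h) (hk : d + h < k)
    (hb : b = 1 ∧ h ≠ d ∨ b = 2)
    (hrel : ∀ e ≤ k + d + h, F e = G e + sg ε1 * G (e - k) + sg (ε1 + ε2) * G (e - k - d) +
      b * sg (ε1 + ε2 + ε3) * G (e - k - d - h)) : G 0 ≤ 733 / 1000 := by
  have hχ : ∀ x : ℤ × ℤ × ℤ, x.1 * k + x.2.1 * d + x.2.2 * h ≤ k + d + h →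
      sg (ε1 * x.1 + ε2 * x.2.1 + ε3 * x.2.2) * G (x.1 * k + x.2.1 * d + x.2.2 * h) +
        sg (ε1 * (x.1 - 1) + ε2 * x.2.1 + ε3 * x.2.2) *
          G ((x.1 - 1) * k + x.2.1 * d + x.2.2 * h) +
        sg (ε1 * (x.1 - 1) + ε2 * (x.2.1 - 1) + ε3 * x.2.2) *
          G ((x.1 - 1) * k + (x.2.1 - 1) * d + x.2.2 * h) +
        b * (sg (ε1 * (x.1 - 1) + ε2 * (x.2.1 - 1) + ε3 * (x.2.2 - 1)) *
          G ((x.1 - 1) * k + (x.2.1 - 1) * d + (x.2.2 - 1) * h)) =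
      sg (ε1 * x.1 + ε2 * x.2.1 + ε3 * x.2.2) * F (x.1 * k + x.2.1 * d + x.2.2 * h) := by
    intro x hx
    rw [hrel _ hx]
    have s1 : sg (ε1 * (x.1 - 1) + ε2 * x.2.1 + ε3 * x.2.2) =
        sg (ε1 * x.1 + ε2 * x.2.1 + ε3 * x.2.2) * sg ε1 := by
      rw [← sg_sub]; congr 1; ring
    have s2 : sg (ε1 * (x.1 - 1) + ε2 * (x.2.1 - 1) + ε3 * x.2.2) =
        sg (ε1 * x.1 + ε2 * x.2.1 + ε3 * x.2.2) * sg (ε1 + ε2) := by
      rw [← sg_sub]; congr 1; ring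
    have s3 : sg (ε1 * (x.1 - 1) + ε2 * (x.2.1 - 1) + ε3 * (x.2.2 - 1)) =
        sg (ε1 * x.1 + ε2 * x.2.1 + ε3 * x.2.2) * sg (ε1 + ε2 + ε3) := by
      rw [← sg_sub]; congr 1; ring
    rw [s1, s2, s3,
      show (x.1 - 1) * k + x.2.1 * d + x.2.2 * h = x.1 * k + x.2.1 * d + x.2.2 * h - k by ring,
      show (x.1 - 1) * k + (x.2.1 - 1) * d + x.2.2 * h =
        x.1 * k + x.2.1 * d + x.2.2 * h - k - d by ring,
      show (x.1 - 1) * k + (x.2.1 - 1) * d + (x.2.2 - 1) * h =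
        x.1 * k + x.2.1 * d + x.2.2 * h - k - d - h by ring]
    ring
  have hE : ∀ x y : ℤ × ℤ × ℤ, (fun x : ℤ × ℤ × ℤ => x.1 * k + x.2.1 * d + x.2.2 * h) (x - y) =
      (fun x : ℤ × ℤ × ℤ => x.1 * k + x.2.1 * d + x.2.2 * h) x -
      (fun x : ℤ × ℤ × ℤ => x.1 * k + x.2.1 * d + x.2.2 * h) y :=
    fun x y => by simp only [Prod.fst_sub, Prod.snd_sub]; ring
  have hc : ∀ x y : ℤ × ℤ × ℤ,
      (fun x : ℤ × ℤ × ℤ => sg (ε1 * x.1 + ε2 * x.2.1 + ε3 * x.2.2)) (x - y) =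
      (fun x : ℤ × ℤ × ℤ => sg (ε1 * x.1 + ε2 * x.2.1 + ε3 * x.2.2)) x *
      (fun x : ℤ × ℤ × ℤ => sg (ε1 * x.1 + ε2 * x.2.1 + ε3 * x.2.2)) y := fun x y => by
    simp only [Prod.fst_sub, Prod.snd_sub]
    rw [← sg_sub]; congr 1; ring
  have hz : ∀ i j l : ℤ, i * k + j * d + l * h < 0 →
      sg (ε1 * i + ε2 * j + ε3 * l) * G (i * k + j * d + l * h) = 0 :=
    fun i j l h => by rw [nG _ h, mul_zero]
  have hb1 : ∀ i j l : ℤ, |sg (ε1 * i + ε2 * j + ε3 * l) * G (i * k + j * d + l * h)| ≤ 1 :=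
    fun i j l => by rw [abs_sg_mul]; exact hG.abs_le_one _
  rcases hb with ⟨rfl, hhd⟩ | rfl
  · have hinj : Function.Injective
        fun a => (IA1 a).1 * k + (IA1 a).2.1 * d + (IA1 a).2.2 * h := by
      intro a b hab
      fin_cases a <;> fin_cases b <;> simp [IA1] at hab ⊢ <;> omega
    have hK : ∀ a, 0 ≤ (IA1 a).1 * k + (IA1 a).2.1 * d + (IA1 a).2.2 * h ∧
        (IA1 a).1 * k + (IA1 a).2.1 * d + (IA1 a).2.2 * h ≤ k + d + h := by
      intro a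
      fin_cases a <;> simp [IA1] <;> omega
    have := cert_A1 k d h
      (fun i j l => sg (ε1 * i + ε2 * j + ε3 * l) * G (i * k + j * d + l * h)) hd hh hk hz hb1
      (fun p q => lift (ι := ℤ × ℤ × ℤ)
        (fun x => x.1 * k + x.2.1 * d + x.2.2 * h)
        (fun x => sg (ε1 * x.1 + ε2 * x.2.1 + ε3 * x.2.2)) hE hc (fun x => sg_sq _) hG (k + d + h)
        (fun x => sg (ε1 * x.1 + ε2 * x.2.1 + ε3 * x.2.2) *
          G (x.1 * k + x.2.1 * d + x.2.2 * h)) (fun x _ => rfl) IA1 hinj hK p q)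
      (fun p q => lift (ι := ℤ × ℤ × ℤ)
        (fun x => x.1 * k + x.2.1 * d + x.2.2 * h)
        (fun x => sg (ε1 * x.1 + ε2 * x.2.1 + ε3 * x.2.2)) hE hc (fun x => sg_sq _) hF (k + d + h)
        (fun x => sg (ε1 * x.1 + ε2 * x.2.1 + ε3 * x.2.2) *
            G (x.1 * k + x.2.1 * d + x.2.2 * h) +
          sg (ε1 * (x.1 - 1) + ε2 * x.2.1 + ε3 * x.2.2) *
            G ((x.1 - 1) * k + x.2.1 * d + x.2.2 * h) +
          sg (ε1 * (x.1 - 1) + ε2 * (x.2.1 - 1) + ε3 * x.2.2) *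
            G ((x.1 - 1) * k + (x.2.1 - 1) * d + x.2.2 * h) +
          sg (ε1 * (x.1 - 1) + ε2 * (x.2.1 - 1) + ε3 * (x.2.2 - 1)) *
            G ((x.1 - 1) * k + (x.2.1 - 1) * d + (x.2.2 - 1) * h))
        (fun x hx => by rw [← hχ x hx]; push_cast; rw [one_mul]) IA1 hinj hK p q)
    simpa [sg_zero] using this
  · have hinj : Function.Injective
        fun a => (IA2 a).1 * k + (IA2 a).2.1 * d + (IA2 a).2.2 * h := by
      intro a b hab
      fin_cases a <;> fin_cases b <;> simp [IA2] at hab ⊢ <;> omega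
    have hK : ∀ a, 0 ≤ (IA2 a).1 * k + (IA2 a).2.1 * d + (IA2 a).2.2 * h ∧
        (IA2 a).1 * k + (IA2 a).2.1 * d + (IA2 a).2.2 * h ≤ k + d + h := by
      intro a
      fin_cases a <;> simp [IA2] <;> omega
    have := cert_A2 k d h
      (fun i j l => sg (ε1 * i + ε2 * j + ε3 * l) * G (i * k + j * d + l * h)) hd hh hk hz hb1
      (fun p q => lift (ι := ℤ × ℤ × ℤ)
        (fun x => x.1 * k + x.2.1 * d + x.2.2 * h)
        (fun x => sg (ε1 * x.1 + ε2 * x.2.1 + ε3 * x.2.2)) hE hc (fun x => sg_sq _) hG (k + d + h)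
        (fun x => sg (ε1 * x.1 + ε2 * x.2.1 + ε3 * x.2.2) *
          G (x.1 * k + x.2.1 * d + x.2.2 * h)) (fun x _ => rfl) IA2 hinj hK p q)
      (fun p q => lift (ι := ℤ × ℤ × ℤ)
        (fun x => x.1 * k + x.2.1 * d + x.2.2 * h)
        (fun x => sg (ε1 * x.1 + ε2 * x.2.1 + ε3 * x.2.2)) hE hc (fun x => sg_sq _) hF (k + d + h)
        (fun x => sg (ε1 * x.1 + ε2 * x.2.1 + ε3 * x.2.2) *
            G (x.1 * k + x.2.1 * d + x.2.2 * h) +
          sg (ε1 * (x.1 - 1) + ε2 * x.2.1 + ε3 * x.2.2) *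
            G ((x.1 - 1) * k + x.2.1 * d + x.2.2 * h) +
          sg (ε1 * (x.1 - 1) + ε2 * (x.2.1 - 1) + ε3 * x.2.2) *
            G ((x.1 - 1) * k + (x.2.1 - 1) * d + x.2.2 * h) +
          2 * (sg (ε1 * (x.1 - 1) + ε2 * (x.2.1 - 1) + ε3 * (x.2.2 - 1)) *
            G ((x.1 - 1) * k + (x.2.1 - 1) * d + (x.2.2 - 1) * h)))
        (fun x hx => by rw [← hχ x hx]; push_cast; rfl) IA2 hinj hK p q)
    simpa [sg_zero] using this

end two

end Pool.Agent.L0h20.MM
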