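import Mathlib

/-! The sharp certificate for the ratio `ℓ / k = 3 / 2`. -/

set_option maxHeartbeats 4000000

namespace Pool.Agent.L0h20.MM

open Finset

/-- bounds for the powers of a number close to `1.3642` -/
theorem powers_bounds (M : ℝ) (h1 : 1.36419 < M) (h2 : M < 1.36421) :
    (1.36419 ^ 2 < M ^ 2 ∧ M ^ 2 < 1.36421 ^ 2) ∧ (1.36419 ^ 3 < M ^ 3 ∧ M ^ 3 < 1.36421 ^ 3) ∧
    (1.36419 ^ 4 < M ^ 4 ∧ M ^ 4 < 1.36421 ^ 4) ∧ (1.36419 ^ 5 < M ^ 5 ∧ M ^ 5 < 1.36421 ^ 5) ∧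
    (1.36419 ^ 6 < M ^ 6 ∧ M ^ 6 < 1.36421 ^ 6) ∧ (1.36419 ^ 7 < M ^ 7 ∧ M ^ 7 < 1.36421 ^ 7) ∧
    (1.36419 ^ 8 < M ^ 8 ∧ M ^ 8 < 1.36421 ^ 8) ∧
    (1.36419 ^ 9 < M ^ 9 ∧ M ^ 9 < (1.36421 : ℝ) ^ 9) := by
  have h0 : (0 : ℝ) < M := by linarith
  have hl : ∀ n : ℕ, n ≠ 0 → (1.36419 : ℝ) ^ n < M ^ n := fun n hn =>
    pow_lt_pow_left₀ h1 (by norm_num) hn
  have hu : ∀ n : ℕ, n ≠ 0 → M ^ n < (1.36421 : ℝ) ^ n := fun n hn =>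
    pow_lt_pow_left₀ h2 h0.le hn
  exact ⟨⟨hl 2 (by norm_num), hu 2 (by norm_num)⟩, ⟨hl 3 (by norm_num), hu 3 (by norm_num)⟩,
    ⟨hl 4 (by norm_num), hu 4 (by norm_num)⟩, ⟨hl 5 (by norm_num), hu 5 (by norm_num)⟩,
    ⟨hl 6 (by norm_num), hu 6 (by norm_num)⟩, ⟨hl 7 (by norm_num), hu 7 (by norm_num)⟩,
    ⟨hl 8 (by norm_num), hu 8 (by norm_num)⟩, ⟨hl 9 (by norm_num), hu 9 (by norm_num)⟩⟩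

theorem cert_exact (M : ℝ) (hM : M ^ 10 - M ^ 7 - M ^ 6 - 2 * M ^ 5 + M + 1 = 0)
    (hM1 : 1.36419 < M) (hM2 : M < 1.36421)
    (X : ℤ → ℝ) (hz : ∀ i : ℤ, i < 0 → X i = 0)
    (hG : ∀ p q : Fin 5 → ℝ, 0 ≤ ∑ a, p a ^ 2 + ∑ a, q a ^ 2 +
      2 * ∑ a, ∑ b, p a * q b * X ((a : ℤ) - (b : ℤ)))
    (hF : ∀ p q : Fin 5 → ℝ, 0 ≤ ∑ a, p a ^ 2 + ∑ a, q a ^ 2 +
      2 * ∑ a, ∑ b, p a * q b *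
        (X ((a : ℤ) - (b : ℤ)) + X (((a : ℤ) - (b : ℤ)) - 2) - X (((a : ℤ) - (b : ℤ)) - 3)
          + X (((a : ℤ) - (b : ℤ)) - 4))) :
    X 0 * M ≤ 1 := by
  obtain ⟨⟨l2, u2⟩, ⟨l3, u3⟩, ⟨l4, u4⟩, ⟨l5, u5⟩, ⟨l6, u6⟩, ⟨l7, u7⟩, ⟨l8, u8⟩, ⟨l9, u9⟩⟩ :=
    powers_bounds M hM1 hM2
  norm_num at l2 u2 l3 u3 l4 u4 l5 u5 l6 u6 l7 u7 l8 u8 l9 u9
  obtain ⟨s, hs⟩ : ∃ s, s = M ^ 2 + M ^ 3 + M ^ 4 - M ^ 7 := ⟨_, rfl⟩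
  obtain ⟨t, ht⟩ : ∃ t, t = 1 + M + M ^ 2 - M ^ 5 := ⟨_, rfl⟩
  obtain ⟨u, hu⟩ : ∃ u, u = -1 + 2 * M ^ 4 + M ^ 5 + M ^ 6 - M ^ 9 := ⟨_, rfl⟩
  obtain ⟨y0, hy0⟩ : ∃ z, z = 9 + 15 * M + 27 * M ^ 2 + 58 * M ^ 3 + 85 * M ^ 4 + 55 * M ^ 5 + 24 * M ^ 6 - 15 * M ^ 7 - 26 * M ^ 8 - 24 * M ^ 9 := ⟨_, rfl⟩
  obtain ⟨y1, hy1⟩ : ∃ z, z = 16 + 38 * M + 36 * M ^ 2 + 16 * M ^ 3 + 9 * M ^ 4 - 8 * M ^ 5 - 8 * M ^ 6 - 6 * M ^ 7 - 6 * M ^ 9 := ⟨_, rfl⟩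
  obtain ⟨y2, hy2⟩ : ∃ z, z = 3 * M ^ 2 + 8 * M ^ 3 + 12 * M ^ 4 + 8 * M ^ 5 + 3 * M ^ 6 - 3 * M ^ 7 - 4 * M ^ 8 - 3 * M ^ 9 := ⟨_, rfl⟩
  obtain ⟨x0, hx0⟩ : ∃ z, z = 2 * M + 12 * M ^ 2 + 22 * M ^ 3 + 20 * M ^ 4 + 12 * M ^ 5 + 1 * M ^ 6 - 6 * M ^ 7 - 6 * M ^ 8 - 2 * M ^ 9 := ⟨_, rfl⟩
  obtain ⟨x1, hx1⟩ : ∃ z, z = -4 - 7 * M - 3 * M ^ 2 - 3 * M ^ 4 - 2 * M ^ 6 - 1 * M ^ 7 + 3 * M ^ 9 := ⟨_, rfl⟩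
  obtain ⟨kap, hkap⟩ : ∃ z, z = 40 + 101 * M + 128 * M ^ 2 + 129 * M ^ 3 + 117 * M ^ 4 + 46 * M ^ 5 + 5 * M ^ 6 - 24 * M ^ 7 - 22 * M ^ 8 - 25 * M ^ 9 := ⟨_, rfl⟩
  have E1 : (s ^ 2 + 2 * t) * x0 + (2 * u + 2 * t * s + 2 * s) * x1 - 2 * s * M * y0 + (s ^ 2 + 2 * M + M ^ 2) * y1 - 2 * s * y2 + (M ^ 2 * y1 - 2 * s * M * y2) - M ^ 2 * y2 = 0 := by
    subst hs ht hu hy0 hy1 hy2 hx0 hx1 hkap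
    linear_combination (8 + 42 * M + 84 * M ^ 2 + 66 * M ^ 3 + 9 * M ^ 4 - 27 * M ^ 5 - 23 * M ^ 6 - 3 * M ^ 7 + 31 * M ^ 8 + 16 * M ^ 9 + 1 * M ^ 10 - 6 * M ^ 11 - 6 * M ^ 12 - 8 * M ^ 13) * hM
  have E2 : 2 * s * x0 + (s ^ 2 + 2 * t + 1) * x1 + M ^ 2 * y0 - 2 * s * M * y1 + (s ^ 2 + 2 * M) * y2 + M ^ 2 * y2 = 0 := by
    subst hs ht hu hy0 hy1 hy2 hx0 hx1 hkap
    linear_combination (-12 - 17 * M - 5 * M ^ 2 - 22 * M ^ 3 - 31 * M ^ 4 - 24 * M ^ 5 - 5 * M ^ 6 - 1 * M ^ 7 + 17 * M ^ 8 + 12 * M ^ 9 + 1 * M ^ 10 - 4 * M ^ 11 - 4 * M ^ 12) * hM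
  have E3 : x0 + 2 * s * x1 + M ^ 2 * y1 - 2 * s * M * y2 = 0 := by
    subst hs ht hu hy0 hy1 hy2 hx0 hx1 hkap
    linear_combination (2 * M + 18 * M ^ 2 + 20 * M ^ 3 + 8 * M ^ 4 - 6 * M ^ 5 - 14 * M ^ 6 - 6 * M ^ 7) * hM
  have E4 : x1 + M ^ 2 * y2 = 0 := by
    subst hs ht hu hy0 hy1 hy2 hx0 hx1 hkap
    linear_combination (-4 - 3 * M) * hM
  have EK : (2 * u + 2 * t * s) * x0 + (t ^ 2 + 2 * u * s + s ^ 2 + 2 * t) * x1 + (s ^ 2 + 2 * M) * y0 - (2 * s + 2 * s * M) * y1 + (1 + M ^ 2) * y2 + (M ^ 2 * y0 - 2 * s * M * y1 + (s ^ 2 + 2 * M) * y2) - (M ^ 2 * y1 - 2 * s * M * y2) + M ^ 2 * y2 - kap = 0 := by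
    subst hs ht hu hy0 hy1 hy2 hx0 hx1 hkap
    linear_combination (-52 - 72 * M - 135 * M ^ 2 - 194 * M ^ 3 - 195 * M ^ 4 - 112 * M ^ 5 + 4 * M ^ 6 + 89 * M ^ 7 + 153 * M ^ 8 + 114 * M ^ 9 + 27 * M ^ 10 - 29 * M ^ 11 - 40 * M ^ 12 - 26 * M ^ 13 + 6 * M ^ 15) * hM
  have EN : x0 * (u ^ 2 + t ^ 2 + s ^ 2 + 1) + 2 * x1 * (u * t + t * s + s) + y0 * (1 + s ^ 2 + M ^ 2) - 2 * y1 * (s + s * M) + 2 * y2 * M - kap * u = 0 := by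
    subst hs ht hu hy0 hy1 hy2 hx0 hx1 hkap
    linear_combination (57 + 87 * M + 97 * M ^ 2 + 35 * M ^ 3 - 95 * M ^ 4 - 159 * M ^ 5 - 154 * M ^ 6 - 42 * M ^ 7 + 39 * M ^ 8 + 83 * M ^ 9 + 52 * M ^ 10 + 22 * M ^ 11 + 4 * M ^ 12 + 3 * M ^ 14 - 6 * M ^ 15 - 6 * M ^ 16 - 2 * M ^ 17) * hM
  have hx1n : x1 < 0 := by subst hx1; linarith
  have hwG1 : 0 ≤ x0 + 2 * x1 := by subst hx0 hx1; linarith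
  have hy1n : y1 < 0 := by subst hy1; linarith
  have hwF1 : 0 ≤ y0 + 2 * y1 - 2 * y2 := by subst hy0 hy1 hy2; linarith
  have hwF3 : 0 ≤ y2 := by subst hy2; linarith
  have hkap0 : 0 < kap := by subst hkap; linarith
  have h4 : M * u = 1 := by subst hu; linear_combination -hM
  clear hy0 hy1 hy2 hx0 hx1 hkap hs ht hu hM l2 u2 l3 u3 l4 u4 l5 u5 l6 u6 l7 u7 l8 u8 l9 u9
  have zm1 : X (-1) = 0 := hz _ (by norm_num)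
  have zm2 : X (-2) = 0 := hz _ (by norm_num)
  have zm3 : X (-3) = 0 := hz _ (by norm_num)
  have zm4 : X (-4) = 0 := hz _ (by norm_num)
  have zm5 : X (-5) = 0 := hz _ (by norm_num)
  have zm6 : X (-6) = 0 := hz _ (by norm_num)
  have zm7 : X (-7) = 0 := hz _ (by norm_num)
  have zm8 : X (-8) = 0 := hz _ (by norm_num)
  have e1 := hG ![-u, -t, -s, -1, 0] ![1, s, t, u, 0]
  have e2 := hG ![-u, u - t, t - s, s - 1, 1] ![1, s - 1, t - s, u - t, -u]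
  have e3 := hF ![-1, s, -M, 0, 0] ![M, -s, 1, 0, 0]
  have e4 := hF ![-1, s + 1, -(M + s), M, 0] ![M, -s - M, 1 + s, -1, 0]
  have e5 := hF ![-1, s, -(M + 1), s, -M] ![M, -s, 1 + M, -s, 1]
  simp [Fin.sum_univ_succ, zm1, zm2, zm3, zm4, zm5, zm6, zm7, zm8] at e1 e2 e3 e4 e5
  have key := add_nonneg (add_nonneg (add_nonneg (add_nonneg (mul_nonneg hwG1 e1)
    (mul_nonneg (neg_nonneg.mpr hx1n.le) e2)) (mul_nonneg hwF1 e3))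
    (mul_nonneg (neg_nonneg.mpr hy1n.le) e4)) (mul_nonneg hwF3 e5)
  have key2 : 0 ≤ 2 * kap * (u - X 0) := by
    refine le_of_le_of_eq key ?_
    linear_combination 2 * EN - 2 * X 0 * EK - 2 * X 1 * E1 - 2 * X 2 * E2 - 2 * X 3 * E3 - 2 * X 4 * E4
  have h3 : 0 ≤ u - X 0 := by
    by_contra hcon
    push Not at hcon
    nlinarith [mul_pos hkap0 (neg_pos.mpr hcon)]
  nlinarith

end Pool.Agent.L0h20.MM
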