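import Mathlib
import Pool.Agent.L0h20.MM.Cases
import Pool.Agent.L0h20.MM.Exact

/-! Combination of the certificates: special ratios, and the general bound. -/

set_option maxHeartbeats 4000000

namespace Pool.Agent.L0h20.MM

open Finset

theorem one_lift {H : ℤ → ℝ} (hH : SC H) (n ε K : ℤ) (hn : 0 < n) (Y : ℤ → ℝ)
    (hY : ∀ i ≤ K, Y i = sg (ε * i) * H (i * n)) {m : ℕ} (I : Fin m → ℤ)
    (hI : Function.Injective I) (hK : ∀ a, 0 ≤ I a ∧ I a ≤ K) (p q : Fin m → ℝ) :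
    0 ≤ ∑ a, p a ^ 2 + ∑ a, q a ^ 2 + 2 * ∑ a, ∑ b, p a * q b * Y (I a - I b) := by
  refine lift (ι := ℤ) (fun i => i * n) (fun i => sg (ε * i)) (fun x y => by ring)
    (fun x y => by rw [← sg_sub]; congr 1; ring) (fun x => sg_sq _) hH (K * n) Y
    (fun x hx => hY x (by nlinarith)) I (fun a b hab => hI ?_) (fun a => ?_) p q
  · have : (I a - I b) * n = 0 := by simp only at hab; linarith
    rcases mul_eq_zero.mp this with h | h
    · linarith
    · exact absurd h hn.ne'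
  · exact ⟨mul_nonneg (hK a).1 hn.le, mul_le_mul_of_nonneg_right (hK a).2 hn.le⟩

theorem inj_fin7 : Function.Injective (![0, 1, 2, 3, 4, 5, 6] : Fin 7 → ℤ) := by
  intro a b hab
  fin_cases a <;> fin_cases b <;> simp at hab ⊢

theorem rng_fin7 : ∀ a, 0 ≤ (![0, 1, 2, 3, 4, 5, 6] : Fin 7 → ℤ) a ∧
    (![0, 1, 2, 3, 4, 5, 6] : Fin 7 → ℤ) a ≤ 6 := by
  intro a
  fin_cases a <;> simp

section two

variable {G F : ℤ → ℝ} (hG : SC G) (hF : SC F) (nG : ∀ n < 0, G n = 0)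

include hG hF nG

theorem one_basic (n ε : ℤ) (hn : 0 < n) :
    (∀ i : ℤ, i < 0 → sg (ε * i) * G (i * n) = 0) ∧ (∀ i : ℤ, |sg (ε * i) * G (i * n)| ≤ 1) :=
  ⟨fun i h => by rw [nG _ (mul_neg_of_neg_of_pos h hn), mul_zero], fun i => by
    rw [abs_sg_mul]; exact hG.abs_le_one _⟩

theorem caseB_13 (n ε1 ε2 : ℤ) (hn : 0 < n)
    (hrel : ∀ e ≤ 2 * (3 * n), F e = G e + sg ε1 * G (e - 3 * n) +
      sg (ε1 + ε2) * G (e - 3 * n - n) + (1 : ℤ) * G (e - 2 * (3 * n))) :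
    G 0 ≤ 733 / 1000 := by
  obtain ⟨hz, hb⟩ := one_basic hG hF nG n ε1 hn
  have hχ : ∀ i : ℤ, i ≤ 6 → sg (ε1 * i) * G (i * n) + sg (ε1 * (i - 3)) * G ((i - 3) * n) +
      sg (ε1 + ε2) * (sg (ε1 * (i - 4)) * G ((i - 4) * n)) +
      sg (ε1 * (i - 6)) * G ((i - 6) * n) = sg (ε1 * i) * F (i * n) := by
    intro i hi
    rw [hrel _ (by nlinarith)]
    have s3 : sg (ε1 * (i - 3)) = sg (ε1 * i) * sg ε1 := by
      rw [show ε1 * (i - 3) = ε1 * i - ε1 - 2 * ε1 by ring, sg_sub, sg_two_mul, mul_one, sg_sub]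
    have s4 : sg (ε1 * (i - 4)) = sg (ε1 * i) := by
      rw [show ε1 * (i - 4) = ε1 * i - 2 * (2 * ε1) by ring, sg_sub, sg_two_mul, mul_one]
    have s6 : sg (ε1 * (i - 6)) = sg (ε1 * i) := by
      rw [show ε1 * (i - 6) = ε1 * i - 2 * (3 * ε1) by ring, sg_sub, sg_two_mul, mul_one]
    rw [s3, s4, s6, show (i - 3) * n = i * n - 3 * n by ring,
      show (i - 4) * n = i * n - 3 * n - n by ring,
      show (i - 6) * n = i * n - 2 * (3 * n) by ring]
    push_cast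
    ring
  rcases sg_cases (ε1 + ε2) with hs | hs
  · have := cert_R13p (fun i => sg (ε1 * i) * G (i * n)) hz hb
      (fun p q => one_lift hG n ε1 6 hn _ (fun _ _ => rfl) IR13p inj_fin7 rng_fin7 p q)
      (fun p q => one_lift hF n ε1 6 hn
        (fun i => sg (ε1 * i) * G (i * n) + sg (ε1 * (i - 3)) * G ((i - 3) * n) +
          sg (ε1 * (i - 4)) * G ((i - 4) * n) + sg (ε1 * (i - 6)) * G ((i - 6) * n))
        (fun i hi => by rw [← hχ i hi, hs, one_mul]) IR13p inj_fin7 rng_fin7 p q)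
    simpa [sg_zero] using this
  · have := cert_R13m (fun i => sg (ε1 * i) * G (i * n)) hz hb
      (fun p q => one_lift hG n ε1 6 hn _ (fun _ _ => rfl) IR13m inj_fin7 rng_fin7 p q)
      (fun p q => one_lift hF n ε1 6 hn
        (fun i => sg (ε1 * i) * G (i * n) + sg (ε1 * (i - 3)) * G ((i - 3) * n) -
          sg (ε1 * (i - 4)) * G ((i - 4) * n) + sg (ε1 * (i - 6)) * G ((i - 6) * n))
        (fun i hi => by rw [← hχ i hi, hs]; ring) IR13m inj_fin7 rng_fin7 p q)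
    simpa [sg_zero] using this

theorem caseB_23 (n ε1 ε2 : ℤ) (hn : 0 < n)
    (hrel : ∀ e ≤ 2 * (3 * n), F e = G e + sg ε1 * G (e - 3 * n) +
      sg (ε1 + ε2) * G (e - 3 * n - 2 * n) + (1 : ℤ) * G (e - 2 * (3 * n))) :
    G 0 ≤ 733 / 1000 := by
  obtain ⟨hz, hb⟩ := one_basic hG hF nG n ε1 hn
  have hχ : ∀ i : ℤ, i ≤ 6 → sg (ε1 * i) * G (i * n) + sg (ε1 * (i - 3)) * G ((i - 3) * n) +
      sg ε2 * (sg (ε1 * (i - 5)) * G ((i - 5) * n)) +
      sg (ε1 * (i - 6)) * G ((i - 6) * n) = sg (ε1 * i) * F (i * n) := by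
    intro i hi
    rw [hrel _ (by nlinarith)]
    have s3 : sg (ε1 * (i - 3)) = sg (ε1 * i) * sg ε1 := by
      rw [show ε1 * (i - 3) = ε1 * i - ε1 - 2 * ε1 by ring, sg_sub, sg_two_mul, mul_one, sg_sub]
    have s5 : sg (ε1 * (i - 5)) = sg (ε1 * i) * sg ε1 := by
      rw [show ε1 * (i - 5) = ε1 * i - ε1 - 2 * (2 * ε1) by ring, sg_sub, sg_two_mul, mul_one,
        sg_sub]
    have s6 : sg (ε1 * (i - 6)) = sg (ε1 * i) := by
      rw [show ε1 * (i - 6) = ε1 * i - 2 * (3 * ε1) by ring, sg_sub, sg_two_mul, mul_one]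
    rw [s3, s5, s6, sg_add, show (i - 3) * n = i * n - 3 * n by ring,
      show (i - 5) * n = i * n - 3 * n - 2 * n by ring,
      show (i - 6) * n = i * n - 2 * (3 * n) by ring]
    push_cast
    ring
  rcases sg_cases ε2 with hs | hs
  · have := cert_R23p (fun i => sg (ε1 * i) * G (i * n)) hz hb
      (fun p q => one_lift hG n ε1 6 hn _ (fun _ _ => rfl) IR23p inj_fin7 rng_fin7 p q)
      (fun p q => one_lift hF n ε1 6 hn
        (fun i => sg (ε1 * i) * G (i * n) + sg (ε1 * (i - 3)) * G ((i - 3) * n) +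
          sg (ε1 * (i - 5)) * G ((i - 5) * n) + sg (ε1 * (i - 6)) * G ((i - 6) * n))
        (fun i hi => by rw [← hχ i hi, hs, one_mul]) IR23p inj_fin7 rng_fin7 p q)
    simpa [sg_zero] using this
  · have := cert_R23m (fun i => sg (ε1 * i) * G (i * n)) hz hb
      (fun p q => one_lift hG n ε1 6 hn _ (fun _ _ => rfl) IR23m inj_fin7 rng_fin7 p q)
      (fun p q => one_lift hF n ε1 6 hn
        (fun i => sg (ε1 * i) * G (i * n) + sg (ε1 * (i - 3)) * G ((i - 3) * n) -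
          sg (ε1 * (i - 5)) * G ((i - 5) * n) + sg (ε1 * (i - 6)) * G ((i - 6) * n))
        (fun i hi => by rw [← hχ i hi, hs]; ring) IR23m inj_fin7 rng_fin7 p q)
    simpa [sg_zero] using this

theorem caseB_12 (M : ℝ) (hM : M ^ 10 - M ^ 7 - M ^ 6 - 2 * M ^ 5 + M + 1 = 0)
    (hM1 : 1.36419 < M) (hM2 : M < 1.36421) (n ε1 ε2 : ℤ) (hn : 0 < n)
    (hrel : ∀ e ≤ 2 * (2 * n), F e = G e + sg ε1 * G (e - 2 * n) +
      sg (ε1 + ε2) * G (e - 2 * n - n) + (1 : ℤ) * G (e - 2 * (2 * n))) :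
    G 0 * M ≤ 1 := by
  have hχ : ∀ ε i : ℤ, i ≤ 4 → sg (ε * i) * G (i * n) + sg ε1 * (sg (ε * (i - 2)) *
      G ((i - 2) * n)) + sg (ε1 + ε2 + ε) * (sg (ε * (i - 3)) * G ((i - 3) * n)) +
      sg (ε * (i - 4)) * G ((i - 4) * n) = sg (ε * i) * F (i * n) := by
    intro ε i hi
    rw [hrel _ (by nlinarith)]
    have s2 : sg (ε * (i - 2)) = sg (ε * i) := by
      rw [show ε * (i - 2) = ε * i - 2 * ε by ring, sg_sub, sg_two_mul, mul_one]
    have s3 : sg (ε * (i - 3)) = sg (ε * i) * sg ε := by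
      rw [show ε * (i - 3) = ε * i - ε - 2 * ε by ring, sg_sub, sg_two_mul, mul_one, sg_sub]
    have s4 : sg (ε * (i - 4)) = sg (ε * i) := by
      rw [show ε * (i - 4) = ε * i - 2 * (2 * ε) by ring, sg_sub, sg_two_mul, mul_one]
    rw [s2, s3, s4, sg_add (ε1 + ε2) ε, show (i - 2) * n = i * n - 2 * n by ring,
      show (i - 3) * n = i * n - 2 * n - n by ring,
      show (i - 4) * n = i * n - 2 * (2 * n) by ring]
    push_cast
    linear_combination (sg (ε1 + ε2) * sg (ε * i) * G (i * n - 2 * n - n)) * sg_sq ε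
  have hinj : Function.Injective (fun a : Fin 5 => ((a : ℕ) : ℤ)) := fun a b hab => by
    have : ((a : ℕ) : ℤ) = ((b : ℕ) : ℤ) := hab
    exact Fin.ext (by exact_mod_cast this)
  have hrng : ∀ a : Fin 5, 0 ≤ ((a : ℕ) : ℤ) ∧ ((a : ℕ) : ℤ) ≤ 4 := fun a => by
    have := a.2; omega
  rcases sg_cases ε1 with ha | ha
  · set ε := ε1 + ε2 + 1 with hε
    obtain ⟨hz, hb⟩ := one_basic hG hF nG n ε hn
    have hs : sg (ε1 + ε2 + ε) = -1 := by
      rw [hε, show ε1 + ε2 + (ε1 + ε2 + 1) = 1 + 2 * (ε1 + ε2) by ring, sg_add, sg_two_mul,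
        sg_one, mul_one]
    have := cert_exact M hM hM1 hM2 (fun i => sg (ε * i) * G (i * n)) hz
      (fun p q => one_lift hG n ε 4 hn _ (fun _ _ => rfl) (fun a : Fin 5 => ((a : ℕ) : ℤ))
        hinj hrng p q)
      (fun p q => one_lift hF n ε 4 hn
        (fun i => sg (ε * i) * G (i * n) + sg (ε * (i - 2)) * G ((i - 2) * n) -
          sg (ε * (i - 3)) * G ((i - 3) * n) + sg (ε * (i - 4)) * G ((i - 4) * n))
        (fun i hi => by rw [← hχ ε i hi, hs, ha]; ring) (fun a : Fin 5 => ((a : ℕ) : ℤ))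
        hinj hrng p q)
    simpa [sg_zero] using this
  · set ε := ε1 + ε2 with hε
    obtain ⟨hz, hb⟩ := one_basic hG hF nG n ε hn
    have hs : sg (ε1 + ε2 + ε) = 1 := by
      rw [hε, show ε1 + ε2 + (ε1 + ε2) = 2 * (ε1 + ε2) by ring, sg_two_mul]
    have hI5 : Function.Injective IR12m := by
      intro a b hab
      fin_cases a <;> fin_cases b <;> simp [IR12m] at hab ⊢
    have hr5 : ∀ a, 0 ≤ IR12m a ∧ IR12m a ≤ 4 := by
      intro a
      fin_cases a <;> simp [IR12m]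
    have := cert_R12m (fun i => sg (ε * i) * G (i * n)) hz hb
      (fun p q => one_lift hG n ε 4 hn _ (fun _ _ => rfl) IR12m hI5 hr5 p q)
      (fun p q => one_lift hF n ε 4 hn
        (fun i => sg (ε * i) * G (i * n) - sg (ε * (i - 2)) * G ((i - 2) * n) +
          sg (ε * (i - 3)) * G ((i - 3) * n) + sg (ε * (i - 4)) * G ((i - 4) * n))
        (fun i hi => by rw [← hχ ε i hi, hs, ha]; ring) IR12m hI5 hr5 p q)
    have h0 : G 0 ≤ 733 / 1000 := by simpa [sg_zero] using this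
    nlinarith

theorem caseB_v1 (M : ℝ) (hM : M ^ 10 - M ^ 7 - M ^ 6 - 2 * M ^ 5 + M + 1 = 0)
    (hM1 : 1.36419 < M) (hM2 : M < 1.36421) (k d ε1 ε2 : ℤ) (hd : 0 < d) (hk : d < k)
    (hrel : ∀ e ≤ 2 * k, F e = G e + sg ε1 * G (e - k) + sg (ε1 + ε2) * G (e - k - d) +
      (1 : ℤ) * G (e - 2 * k)) : G 0 * M ≤ 1 := by
  have hfin : G 0 ≤ 733 / 1000 → G 0 * M ≤ 1 := fun h => by nlinarith
  by_cases h3 : 3 * d = k
  · subst h3
    exact hfin (caseB_13 hG hF nG d ε1 ε2 hd hrel)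
  by_cases h2 : 2 * d = k
  · subst h2
    exact caseB_12 hG hF nG M hM hM1 hM2 d ε1 ε2 hd hrel
  by_cases h32 : 3 * d = 2 * k
  · obtain ⟨n, rfl⟩ : ∃ n, k = 3 * n := ⟨k - d, by linarith⟩
    obtain rfl : d = 2 * n := by linarith
    exact hfin (caseB_23 hG hF nG n ε1 ε2 (by linarith) hrel)
  exact hfin (caseB_generic hG hF nG k d ε1 ε2 hd hk hrel h3 h2 h32)

end two

/-- exchanging the two sequences -/
theorem swap_rel {G F : ℤ → ℝ} (nG : ∀ n < 0, G n = 0) (k d ε1 ε2 v : ℤ) (hd : 0 < d)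
    (hk : d < k)
    (hrel : ∀ e ≤ 2 * k, F e = G e + sg ε1 * G (e - k) + sg (ε1 + ε2) * G (e - k - d) +
      v * G (e - 2 * k)) :
    ∀ e ≤ 2 * k, G e = F e + sg (ε1 + 1) * F (e - k) + sg (ε1 + 1 + ε2) * F (e - k - d) +
      ((1 - v : ℤ) : ℝ) * F (e - 2 * k) := by
  intro e he
  rw [hrel e he, hrel (e - k) (by linarith), hrel (e - k - d) (by linarith),
    hrel (e - 2 * k) (by linarith)]
  rw [nG (e - k - k - d) (by linarith), nG (e - k - 2 * k) (by linarith),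
    nG (e - k - d - k) (by linarith), nG (e - k - d - k - d) (by linarith),
    nG (e - k - d - 2 * k) (by linarith), nG (e - 2 * k - k) (by linarith),
    nG (e - 2 * k - k - d) (by linarith), nG (e - 2 * k - 2 * k) (by linarith)]
  have s1 : sg (ε1 + 1) = - sg ε1 := by rw [sg_add, sg_one]; ring
  have s2 : sg (ε1 + 1 + ε2) = - sg (ε1 + ε2) := by
    rw [show ε1 + 1 + ε2 = ε1 + ε2 + 1 by ring, sg_add (ε1 + ε2) 1, sg_one]; ring
  rw [s1, s2, show e - k - k = e - 2 * k by ring]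
  push_cast
  linear_combination (G (e - 2 * k)) * sg_sq ε1

theorem caseB {G F : ℤ → ℝ} (hG : SC G) (hF : SC F) (nG : ∀ n < 0, G n = 0)
    (nF : ∀ n < 0, F n = 0) (hGF : F 0 = G 0)
    (M : ℝ) (hM : M ^ 10 - M ^ 7 - M ^ 6 - 2 * M ^ 5 + M + 1 = 0)
    (hM1 : 1.36419 < M) (hM2 : M < 1.36421) (k d ε1 ε2 v : ℤ) (hd : 0 < d) (hk : d < k)
    (hrel : ∀ e ≤ 2 * k, F e = G e + sg ε1 * G (e - k) + sg (ε1 + ε2) * G (e - k - d) +
      v * G (e - 2 * k)) : G 0 * M ≤ 1 := by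
  have hfin : G 0 ≤ 733 / 1000 → G 0 * M ≤ 1 := fun h => by nlinarith
  have hsw := swap_rel nG k d ε1 ε2 v hd hk hrel
  by_cases h1 : v = 1
  · subst h1; exact caseB_v1 hG hF nG M hM hM1 hM2 k d ε1 ε2 hd hk hrel
  by_cases h0 : v = 0
  · subst h0
    rw [← hGF]
    refine caseB_v1 hF hG nF M hM hM1 hM2 k d (ε1 + 1) ε2 hd hk (fun e he => ?_)
    rw [hsw e he]; norm_num
  by_cases h2 : v = 2
  · subst h2; exact hfin (caseB_v2 hG hF nG k d ε1 ε2 hd hk hrel)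
  by_cases hm : v = -1
  · subst hm
    rw [← hGF]
    rw [← hGF] at hfin
    refine hfin (caseB_v2 hF hG nF k d (ε1 + 1) ε2 hd hk (fun e he => ?_))
    rw [hsw e he]; norm_num
  -- large values
  apply hfin
  by_contra hcon
  push Not at hcon
  have r0 := hrel (2 * k) le_rfl
  have r1 := hrel k (by linarith)
  rw [show 2 * k - k = k by ring, show 2 * k - 2 * k = 0 by ring] at r0
  rw [show k - k = 0 by ring, show (0 : ℤ) - d = -d by ring, nG (-d) (by linarith),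
    nG (k - 2 * k) (by linarith)] at r1
  have b1 := hG.abs_le nG (2 * k) (by linarith)
  have b2 := hF.abs_le nF (2 * k) (by linarith)
  have b3 := hG.abs_le nG k (by linarith)
  have b4 := hF.abs_le nF k (by linarith)
  have b5 := hG.abs_le nG (k - d) (by linarith)
  rw [hGF] at b2 b4
  rw [abs_le] at b1 b2 b3 b4 b5
  have hc1 : G 0 ≤ 1 := (abs_le.mp (hG.abs_le_one 0)).2
  rcases lt_or_ge v 0 with hv | hv
  · have hv2 : v ≤ -2 := by omega
    have hv3 : (v : ℝ) ≤ -2 := by exact_mod_cast hv2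
    have h5 : (v : ℝ) * G 0 ≤ -2 * G 0 := mul_le_mul_of_nonneg_right hv3 (by linarith)
    rcases sg_cases ε1 with ha | ha <;> rcases sg_cases (ε1 + ε2) with hs | hs <;>
      rw [ha, hs] at r0 <;> rw [ha] at r1 <;> nlinarith
  · have hv2 : 3 ≤ v := by omega
    have hv3 : (3 : ℝ) ≤ v := by exact_mod_cast hv2
    have h5 : 3 * G 0 ≤ (v : ℝ) * G 0 := mul_le_mul_of_nonneg_right hv3 (by linarith)
    rcases sg_cases ε1 with ha | ha <;> rcases sg_cases (ε1 + ε2) with hs | hs <;>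
      rw [ha, hs] at r0 <;> nlinarith

end Pool.Agent.L0h20.MM
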