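import Mathlib

/-! The extremal polynomial `X ^ 5 - X ^ 2 + 1`. -/

set_option maxHeartbeats 4000000

namespace Pool.Agent.L0h20.MM

open Polynomial

/-- Mahler measure of a real quadratic polynomial with nonreal zeros -/
theorem mahler_quadratic (p q : ℝ) (h : p ^ 2 < 4 * q) :
    (X ^ 2 + C (p : ℂ) * X + C (q : ℂ) : ℂ[X]).mahlerMeasure = max 1 q := by
  set y := Real.sqrt (4 * q - p ^ 2) with hy
  have hy2 : y ^ 2 = 4 * q - p ^ 2 := Real.sq_sqrt (by linarith)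
  set r : ℂ := ⟨-p / 2, y / 2⟩ with hr
  have hnr : ‖r‖ ^ 2 = q := by
    rw [Complex.sq_norm, Complex.normSq_apply]
    simp only [hr]
    nlinarith
  have hfac : (X ^ 2 + C (p : ℂ) * X + C (q : ℂ) : ℂ[X]) =
      (X - C r) * (X - C ((starRingEnd ℂ) r)) := by
    have h1 : r + (starRingEnd ℂ) r = -(p : ℂ) := by
      rw [Complex.add_conj]; simp only [hr]; push_cast; ring
    have h2 : r * (starRingEnd ℂ) r = (q : ℂ) := by
      rw [Complex.mul_conj, Complex.normSq_eq_norm_sq, hnr]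
    have h1' : C r + C ((starRingEnd ℂ) r) = -C (p : ℂ) := by rw [← C_add, h1, C_neg]
    have h2' : C r * C ((starRingEnd ℂ) r) = C (q : ℂ) := by rw [← C_mul, h2]
    linear_combination X * h1' - h2'
  rw [hfac, mahlerMeasure_mul, mahlerMeasure_X_sub_C, mahlerMeasure_X_sub_C, RCLike.norm_conj]
  have hn0 := norm_nonneg r
  rcases le_total 1 ‖r‖ with h1 | h1
  · rw [max_eq_right h1, max_eq_right (by nlinarith), ← sq, hnr]
  · rw [max_eq_left h1, max_eq_left (by nlinarith), one_mul]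

/-- the number `μ` -/
theorem exists_mu : ∃ M : ℝ, M ^ 10 - M ^ 7 - M ^ 6 - 2 * M ^ 5 + M + 1 = 0 ∧
    1.364199 < M ∧ M < 1.3642 := by
  have hc : ContinuousOn (fun x : ℝ => x ^ 10 - x ^ 7 - x ^ 6 - 2 * x ^ 5 + x + 1)
      (Set.Icc 1.364199 1.3642) := by fun_prop
  have h := intermediate_value_Ioo (by norm_num : (1.364199 : ℝ) ≤ 1.3642) hc
  obtain ⟨M, ⟨h1, h2⟩, h3⟩ := h (show (0 : ℝ) ∈ Set.Ioo _ _ by constructor <;> norm_num)
  exact ⟨M, h3, h1, h2⟩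

theorem upper_bound (M : ℝ) (hM : M ^ 10 - M ^ 7 - M ^ 6 - 2 * M ^ 5 + M + 1 = 0)
    (h1 : 1.364199 < M) (h2 : M < 1.3642) :
    (X ^ 5 - X ^ 2 + 1 : ℂ[X]).mahlerMeasure = M := by
  have hM0 : 0 < M := by linarith
  have hl : ∀ n : ℕ, n ≠ 0 → (1.364199 : ℝ) ^ n < M ^ n := fun n hn =>
    pow_lt_pow_left₀ h1 (by norm_num) hn
  have hu' : ∀ n : ℕ, n ≠ 0 → M ^ n < (1.3642 : ℝ) ^ n := fun n hn =>
    pow_lt_pow_left₀ h2 hM0.le hn
  have l2 := hl 2 (by norm_num); have u2 := hu' 2 (by norm_num)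
  have l3 := hl 3 (by norm_num); have u3 := hu' 3 (by norm_num)
  have l4 := hl 4 (by norm_num); have u4 := hu' 4 (by norm_num)
  have l5 := hl 5 (by norm_num); have u5 := hu' 5 (by norm_num)
  have l7 := hl 7 (by norm_num); have u7 := hu' 7 (by norm_num)
  norm_num at l2 u2 l3 u3 l4 u4 l5 u5 l7 u7
  obtain ⟨s, hs⟩ : ∃ s, s = M ^ 2 + M ^ 3 + M ^ 4 - M ^ 7 := ⟨_, rfl⟩
  obtain ⟨t, ht⟩ : ∃ t, t = 1 + M + M ^ 2 - M ^ 5 := ⟨_, rfl⟩
  obtain ⟨u, hu⟩ : ∃ u, u = -1 + 2 * M ^ 4 + M ^ 5 + M ^ 6 - M ^ 9 := ⟨_, rfl⟩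
  have r1 : s ^ 2 = M + t := by subst hs ht; linear_combination (-1 - M + M ^ 4) * hM
  have r2 : u = s * t - M * s - 1 := by subst hs ht hu; linear_combination (-M ^ 2) * hM
  have r3 : s * u = M * t := by
    subst hs ht hu; linear_combination (-M - M ^ 2 - M ^ 3 + M ^ 6) * hM
  have r4 : M * u = 1 := by subst hu; linear_combination (-1) * hM
  have hs1 : -0.9301 < s := by rw [hs]; linarith
  have hs2 : s < -0.9295 := by rw [hs]; linarith
  have ht1 : -0.4998 < t := by rw [ht]; linarith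
  have ht2 : t < -0.4994 := by rw [ht]; linarith
  clear l2 u2 l3 u3 l4 u4 l5 u5 l7 u7 hs ht hu hM hl hu'
  have hu1 : 0.733 < u := by nlinarith only [r4, h1, h2, hM0]
  have hu2 : u < 0.7331 := by nlinarith only [r4, h1, h2, hM0]
  -- the real zero of the cubic factor
  have hc : ContinuousOn (fun x : ℝ => x ^ 3 + s * x ^ 2 + t * x + u)
      (Set.Icc (-0.82) (-0.8)) := by fun_prop
  have h := intermediate_value_Ioo (by norm_num : (-0.82 : ℝ) ≤ -0.8) hc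
  obtain ⟨β, ⟨hβ1, hβ2⟩, hβ⟩ := h (show (0 : ℝ) ∈ Set.Ioo _ _ by
    constructor
    · show (-0.82 : ℝ) ^ 3 + s * (-0.82) ^ 2 + t * (-0.82) + u < 0
      norm_num
      linarith
    · show 0 < (-0.8 : ℝ) ^ 3 + s * (-0.8) ^ 2 + t * (-0.8) + u
      norm_num
      linarith)
  simp only at hβ
  obtain ⟨p, hp⟩ : ∃ p, p = s + β := ⟨_, rfl⟩
  obtain ⟨q, hq⟩ : ∃ q, q = t + β * p := ⟨_, rfl⟩
  have huq : u = -(β * q) := by rw [hq, hp]; linarith
  have hq1 : 0.89 < q := by nlinarith only [huq, hβ1, hβ2, hu1, hu2]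
  have hq2 : q < 1 := by nlinarith only [huq, hβ1, hβ2, hu1, hu2]
  have hp2 : p ^ 2 < 4 * q := by
    have hpl : -1.76 < p := by linarith
    have hpu : p < -1.72 := by linarith
    nlinarith only [hpl, hpu, hq1]
  have hfac : (X ^ 5 - X ^ 2 + 1 : ℂ[X]) =
      (X ^ 2 + C ((-s : ℝ) : ℂ) * X + C (M : ℂ)) *
        ((X - C (β : ℂ)) * (X ^ 2 + C (p : ℂ) * X + C (q : ℂ))) := by
    have e1 : (C (s : ℂ)) ^ 2 = C (M : ℂ) + C (t : ℂ) := by
      rw [← C_pow, ← C_add]; congr 1; exact_mod_cast r1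
    have e2 : C (u : ℂ) = C (s : ℂ) * C (t : ℂ) - C (M : ℂ) * C (s : ℂ) - 1 := by
      rw [← C_mul, ← C_mul, ← C_sub, ← C_1, ← C_sub]; congr 1; exact_mod_cast r2
    have e3 : C (s : ℂ) * C (u : ℂ) = C (M : ℂ) * C (t : ℂ) := by
      rw [← C_mul, ← C_mul]; congr 1; exact_mod_cast r3
    have e4 : C (M : ℂ) * C (u : ℂ) = 1 := by
      rw [← C_mul, ← C_1]; congr 1; exact_mod_cast r4
    have e5 : C (p : ℂ) = C (s : ℂ) + C (β : ℂ) := by
      rw [← C_add]; congr 1; exact_mod_cast hp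
    have e6 : C (q : ℂ) = C (t : ℂ) + C (β : ℂ) * C (p : ℂ) := by
      rw [← C_mul, ← C_add]; congr 1; exact_mod_cast hq
    have e7 : C (u : ℂ) = -(C (β : ℂ) * C (q : ℂ)) := by
      rw [← C_mul, ← C_neg]; congr 1; exact_mod_cast huq
    have e8 : (C ((-s : ℝ) : ℂ) : ℂ[X]) = - C (s : ℂ) := by
      rw [← C_neg]; congr 1; push_cast; ring
    have hcub : ((X - C (β : ℂ)) * (X ^ 2 + C (p : ℂ) * X + C (q : ℂ)) : ℂ[X]) =
        X ^ 3 + C (s : ℂ) * X ^ 2 + C (t : ℂ) * X + C (u : ℂ) := by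
      rw [e7, e6, e5]; ring
    rw [hcub, e8]
    linear_combination (-X ^ 3) * (-e1) + (X ^ 2) * (-e2) + X * e3 - e4
  rw [hfac, mahlerMeasure_mul, mahlerMeasure_mul, mahler_quadratic (-s) M (by nlinarith only [hs1, hs2, h1]),
    mahler_quadratic p q hp2, mahlerMeasure_X_sub_C, max_eq_right (by linarith), max_eq_left hq2.le]
  rw [show ‖(β : ℂ)‖ = |β| by simp, max_eq_left (by rw [abs_le]; constructor <;> linarith)]
  ring

theorem irreducible_extremal : Irreducible (X ^ 5 - X ^ 2 + 1 : ℤ[X]) := by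
  have htri : (X ^ 5 - X ^ 2 + 1 : ℤ[X]) = trinomial 0 2 5 1 (-1) 1 := by
    rw [trinomial_def]; simp; ring
  have hut : IsUnitTrinomial (X ^ 5 - X ^ 2 + 1 : ℤ[X]) :=
    ⟨0, 2, 5, by norm_num, by norm_num, 1, -1, 1, by rw [htri]; simp⟩
  refine hut.irreducible_of_isCoprime ?_
  have hmir : (X ^ 5 - X ^ 2 + 1 : ℤ[X]).mirror = X ^ 5 - X ^ 3 + 1 := by
    rw [htri, trinomial_mirror (by norm_num) (by norm_num) (by norm_num) (by norm_num),
      trinomial_def]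
    simp; ring
  rw [hmir]
  refine ⟨1 - (X ^ 2 + X + 1), X ^ 2 + X + 1, ?_⟩
  ring

theorem reverse_extremal : (X ^ 5 - X ^ 2 + 1 : ℤ[X]).reverse = X ^ 5 - X ^ 3 + 1 := by
  have hd : (X ^ 5 - X ^ 2 + 1 : ℤ[X]).natDegree = 5 := by compute_degree!
  ext n
  rw [coeff_reverse, hd]
  rcases le_or_gt n 5 with h | h
  · rw [revAt_le h]
    interval_cases n <;> simp [coeff_X_pow, coeff_one]
  · rw [← revAtFun_eq, revAtFun, if_neg (by omega)]
    simp only [coeff_add, coeff_sub, coeff_X_pow, coeff_one]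
    rw [if_neg (by omega), if_neg (by omega), if_neg (by omega), if_neg (by omega)]

end Pool.Agent.L0h20.MM
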