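import Mathlib
import Pool.Agent.L0h20.MM.Cases2

/-! The general bound for two sequences whose quotient has integral coefficients. -/

set_option maxHeartbeats 4000000

namespace Pool.Agent.L0h20.MM

open Finset

/-- the convolution relation restricted to the range where only four coefficients are present -/
theorem conv_four {G F : ℤ → ℝ} (nG : ∀ n < 0, G n = 0) (nF : ∀ n < 0, F n = 0) (A : ℕ → ℤ)
    (hrel : ∀ n : ℕ, F n = ∑ i ∈ range (n + 1), (A i : ℝ) * G ((n : ℤ) - i))
    (k l w : ℕ) (h0k : 0 < k) (hkl : k < l) (hlw : l < w) (hA0 : A 0 = 1)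
    (hA : ∀ i, i ≤ w → i ≠ 0 → i ≠ k → i ≠ l → i ≠ w → A i = 0) (e : ℤ) (he : e ≤ w) :
    F e = G e + A k * G (e - k) + A l * G (e - l) + A w * G (e - w) := by
  rcases lt_or_ge e 0 with h | h
  · rw [nF e h, nG e h, nG (e - k) (by linarith [Int.natCast_nonneg k]),
      nG (e - l) (by linarith [Int.natCast_nonneg l]),
      nG (e - w) (by linarith [Int.natCast_nonneg w])]
    simp
  · obtain ⟨n, rfl⟩ := Int.eq_ofNat_of_zero_le h
    have hn : n ≤ w := by exact_mod_cast he
    rw [hrel n]
    have h1 : ∑ i ∈ range (n + 1), (A i : ℝ) * G ((n : ℤ) - i) =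
        ∑ i ∈ range (w + 1), (A i : ℝ) * G ((n : ℤ) - i) := by
      refine Finset.sum_subset (fun i hi => ?_) (fun i _ hi => ?_)
      · rw [mem_range] at hi ⊢; omega
      · rw [mem_range] at hi
        rw [nG _ (by push_cast; omega), mul_zero]
    have h2 : ∑ i ∈ range (w + 1), (A i : ℝ) * G ((n : ℤ) - i) =
        ∑ i ∈ ({0, k, l, w} : Finset ℕ), (A i : ℝ) * G ((n : ℤ) - i) := by
      refine (Finset.sum_subset (fun i hi => ?_) (fun i hi hi2 => ?_)).symm
      · simp only [mem_insert, mem_singleton] at hi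
        rw [mem_range]; omega
      · simp only [mem_insert, mem_singleton, not_or] at hi2
        rw [mem_range] at hi
        rw [hA i (by omega) hi2.1 hi2.2.1 hi2.2.2.1 hi2.2.2.2]
        simp
    rw [h1, h2, Finset.sum_insert (by simp; omega), Finset.sum_insert (by simp; omega),
      Finset.sum_insert (by simp; omega), Finset.sum_singleton, hA0]
    simp
    ring

theorem int_sg {a : ℤ} (h : a = 1 ∨ a = -1) : ∃ ε : ℤ, (a : ℝ) = sg ε := by
  rcases h with rfl | rfl
  · exact ⟨0, by simp [sg_zero]⟩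
  · exact ⟨1, by simp [sg_one]⟩

theorem seq_bound {G F : ℤ → ℝ} (hG : SC G) (hF : SC F) (nG : ∀ n < 0, G n = 0)
    (nF : ∀ n < 0, F n = 0) (A : ℕ → ℤ)
    (hrel : ∀ n : ℕ, F n = ∑ i ∈ range (n + 1), (A i : ℝ) * G ((n : ℤ) - i))
    (k l : ℕ) (h0k : 0 < k) (hkl : k < l) (hl2 : l < 2 * k) (hA0 : A 0 = 1)
    (hAk : A k ≠ 0) (hAl : A l ≠ 0) (hA : ∀ i, 0 < i → i < l → i ≠ k → A i = 0)
    (M : ℝ) (hM : M ^ 10 - M ^ 7 - M ^ 6 - 2 * M ^ 5 + M + 1 = 0)
    (hM1 : 1.36419 < M) (hM2 : M < 1.36421) : G 0 * M ≤ 1 := by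
  have hfin : G 0 ≤ 733 / 1000 → G 0 * M ≤ 1 := fun h => by nlinarith
  by_cases hbig : G 0 ≤ 733 / 1000
  · exact hfin hbig
  push Not at hbig
  have hc1 : G 0 ≤ 1 := (abs_le.mp (hG.abs_le_one 0)).2
  have hGF : F 0 = G 0 := by
    have := hrel 0
    simpa [hA0] using this
  have bG : ∀ n : ℤ, 0 < n → |G n| ≤ 1 - G 0 ^ 2 := fun n hn => hG.abs_le nG n hn
  have bF : ∀ n : ℤ, 0 < n → |F n| ≤ 1 - G 0 ^ 2 := fun n hn => by
    have := hF.abs_le nF n hn
    rwa [hGF] at this
  have hsmall : 1 - G 0 ^ 2 < 47 / 100 := by nlinarith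
  have one_le_abs : ∀ {a : ℤ}, a ≠ 0 → (1 : ℝ) ≤ |(a : ℝ)| := fun {a} ha => by
    have := Int.one_le_abs ha
    exact_mod_cast this
  -- relation up to `l`
  have rel_l : ∀ e : ℤ, e ≤ l → F e = G e + A k * G (e - k) + A l * G (e - l) := by
    intro e he
    rcases lt_or_ge e 0 with h | h
    · rw [nF e h, nG e h, nG (e - k) (by linarith [Int.natCast_nonneg k]),
        nG (e - l) (by linarith [Int.natCast_nonneg l])]
      simp
    · obtain ⟨n, rfl⟩ := Int.eq_ofNat_of_zero_le h
      have hn : n ≤ l := by exact_mod_cast he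
      rw [hrel n]
      have h1 : ∑ i ∈ range (n + 1), (A i : ℝ) * G ((n : ℤ) - i) =
          ∑ i ∈ range (l + 1), (A i : ℝ) * G ((n : ℤ) - i) := by
        refine Finset.sum_subset (fun i hi => ?_) (fun i _ hi => ?_)
        · rw [mem_range] at hi ⊢; omega
        · rw [mem_range] at hi
          rw [nG _ (by push_cast; omega), mul_zero]
      have h2 : ∑ i ∈ range (l + 1), (A i : ℝ) * G ((n : ℤ) - i) =
          ∑ i ∈ ({0, k, l} : Finset ℕ), (A i : ℝ) * G ((n : ℤ) - i) := by
        refine (Finset.sum_subset (fun i hi => ?_) (fun i hi hi2 => ?_)).symm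
        · simp only [mem_insert, mem_singleton] at hi
          rw [mem_range]; omega
        · simp only [mem_insert, mem_singleton, not_or] at hi2
          rw [mem_range] at hi
          rw [hA i (by omega) (by omega) hi2.2.1]
          simp
      rw [h1, h2, Finset.sum_insert (by simp; omega), Finset.sum_insert (by simp; omega),
        Finset.sum_singleton, hA0]
      simp
      ring
  -- `A k = ± 1`
  have hAk1 : A k = 1 ∨ A k = -1 := by
    by_contra hcon
    have h2 : 2 ≤ |A k| := by
      have h1 := Int.one_le_abs hAk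
      rcases abs_cases (A k) with h | h <;> omega
    have h2' : (2 : ℝ) ≤ |(A k : ℝ)| := by exact_mod_cast h2
    have r := rel_l k (by exact_mod_cast hkl.le)
    rw [sub_self, nG ((k : ℤ) - l) (by omega)] at r
    have h3 : |(A k : ℝ)| * G 0 = |F k - G k| := by
      rw [r, show G k + A k * G 0 + A l * 0 - G k = A k * G 0 by ring, abs_mul,
        abs_of_pos (show (0 : ℝ) < G 0 by linarith)]
    have h4 := abs_sub (F k) (G k)
    have h5 := bF k (by exact_mod_cast h0k)
    have h6 := bG k (by exact_mod_cast h0k)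
    nlinarith
  obtain ⟨ε1, hε1⟩ := int_sg hAk1
  -- `A l = ± 1`
  have hAl1 : A l = 1 ∨ A l = -1 := by
    by_contra hcon
    have h2 : 2 ≤ |A l| := by
      have h1 := Int.one_le_abs hAl
      rcases abs_cases (A l) with h | h <;> omega
    have h2' : (2 : ℝ) ≤ |(A l : ℝ)| := by exact_mod_cast h2
    have r := rel_l l le_rfl
    rw [sub_self] at r
    have h3 : |(A l : ℝ)| * G 0 = |F l - G l - A k * G (l - k)| := by
      rw [r, show G l + A k * G (l - k) + A l * G 0 - G l - A k * G (l - k) = A l * G 0 by ring,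
        abs_mul, abs_of_pos (show (0 : ℝ) < G 0 by linarith)]
    have h4 := abs_sub (F l - G l) (A k * G (l - k))
    have h4' := abs_sub (F l) (G l)
    have h5 := bF l (by omega)
    have h6 := bG l (by omega)
    have h7 := bG (l - k) (by omega)
    have h8 : |(A k : ℝ) * G (l - k)| = |G (l - k)| := by
      rw [hε1, abs_sg_mul]
    rw [h8] at h4
    nlinarith
  obtain ⟨ε', hε'⟩ := int_sg hAl1
  set ε2 := ε' - ε1 with hε2
  have hε'2 : (A l : ℝ) = sg (ε1 + ε2) := by rw [hε', hε2]; congr 1; ring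
  by_cases hex : ∃ m, l < m ∧ m < 2 * k ∧ A m ≠ 0
  · -- Case A
    classical
    set m := Nat.find hex with hm
    obtain ⟨hlm, hm2, hAm⟩ := Nat.find_spec hex
    rw [← hm] at hlm hm2 hAm
    have hmin : ∀ i, l < i → i < m → A i = 0 := by
      intro i hi him
      by_contra hne
      exact Nat.find_min hex (by rw [← hm]; exact him) ⟨hi, by omega, hne⟩
    have hrelm := conv_four nG nF A hrel k l m h0k hkl hlm hA0 (by
      intro i hi h0 hk' hl' hm'
      rcases lt_or_ge i l with h | h
      · exact hA i (by omega) h hk'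
      · exact hmin i (by omega) (by omega))
    -- sizes of `A m`
    have hAm2 : |A m| ≤ 2 := by
      by_contra hcon
      have h2 : 3 ≤ |A m| := by omega
      have h2' : (3 : ℝ) ≤ |(A m : ℝ)| := by exact_mod_cast h2
      have r := hrelm m le_rfl
      rw [sub_self] at r
      have h3 : |(A m : ℝ)| * G 0 = |F m - G m - A k * G (m - k) - A l * G (m - l)| := by
        rw [r, show G m + A k * G (m - k) + A l * G (m - l) + A m * G 0 - G m -
          A k * G (m - k) - A l * G (m - l) = A m * G 0 by ring, abs_mul,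
          abs_of_pos (show (0 : ℝ) < G 0 by linarith)]
      have h4 := abs_sub (F m - G m - A k * G (m - k)) (A l * G (m - l))
      have h4' := abs_sub (F m - G m) (A k * G (m - k))
      have h4'' := abs_sub (F m) (G m)
      have h5 := bF m (by omega)
      have h6 := bG m (by omega)
      have h7 := bG (m - k) (by omega)
      have h8 := bG (m - l) (by omega)
      rw [show |(A l : ℝ) * G (m - l)| = |G (m - l)| by rw [hε', abs_sg_mul]] at h4
      rw [show |(A k : ℝ) * G (m - k)| = |G (m - k)| by rw [hε1, abs_sg_mul]] at h4'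
      nlinarith
    obtain ⟨b, τ, hbτ, hb12⟩ : ∃ b τ : ℤ, (A m : ℝ) = b * sg τ ∧ (b = 1 ∨ b = 2) := by
      have h1 := Int.one_le_abs hAm
      rcases abs_cases (A m) with ⟨h, h'⟩ | ⟨h, h'⟩
      · have : A m = 1 ∨ A m = 2 := by omega
        rcases this with h | h
        · exact ⟨1, 0, by rw [h, sg_zero]; norm_num, Or.inl rfl⟩
        · exact ⟨2, 0, by rw [h, sg_zero]; norm_num, Or.inr rfl⟩
      · have : A m = -1 ∨ A m = -2 := by omega
        rcases this with h | h
        · exact ⟨1, 1, by rw [h, sg_one]; norm_num, Or.inl rfl⟩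
        · exact ⟨2, 1, by rw [h, sg_one]; norm_num, Or.inr rfl⟩
    by_cases hbd : b = 1 ∧ (m : ℤ) - l = l - k
    · obtain ⟨rfl, hgap⟩ := hbd
      apply hfin
      refine caseA_equal hG hF nG k (l - k) ε1 ε2 τ (by omega) (by omega) (fun e he => ?_)
      rw [hrelm e (by linarith), hε1, hε'2, hbτ, show e - k - (l - k) = e - (l : ℤ) by ring,
        show e - k - 2 * (l - k) = e - (m : ℤ) by linarith]
      push_cast
      ring
    · apply hfin
      refine caseA_generic hG hF nG k (l - k) (m - l) ε1 ε2 (τ - ε1 - ε2) b (by omega) (by omega)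
        (by omega) ?_ (fun e he => ?_)
      · rcases hb12 with h | h
        · left; exact ⟨h, fun h' => hbd ⟨h, h'⟩⟩
        · right; exact h
      · rw [hrelm e (by linarith), hε1, hε'2, hbτ, show e - k - (l - k) = e - (l : ℤ) by ring,
          show e - (l : ℤ) - (m - l) = e - (m : ℤ) by ring,
          show ε1 + ε2 + (τ - ε1 - ε2) = τ by ring]
  · -- Case B
    push Not at hex
    have hrelm := conv_four nG nF A hrel k l (2 * k) h0k hkl hl2 hA0 (by
      intro i hi h0 hk' hl' hm'
      rcases lt_or_ge i l with h | h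
      · exact hA i (by omega) h hk'
      · exact hex i (by omega) (by omega))
    refine caseB hG hF nG nF hGF M hM hM1 hM2 k (l - k) ε1 ε2 (A (2 * k)) (by omega) (by omega)
      (fun e he => ?_)
    rw [hrelm e (by push_cast; exact he), hε1, hε'2, show e - k - (l - k) = e - (l : ℤ) by ring]
    push_cast
    ring

end Pool.Agent.L0h20.MM
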