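import Mathlib
import Pool.Agent.L0h20.MM.Seq

/-! The lower bound for the Mahler measure. -/

set_option maxHeartbeats 4000000

namespace Pool.Agent.L0h20.MM

open Finset

/-- `reverse` of a product of linear factors -/
theorem reverse_prod (s : Multiset ℂ) :
    ((s.map fun a => Polynomial.X - Polynomial.C a).prod).reverse =
      (s.map fun a => 1 - Polynomial.C a * Polynomial.X).prod := by
  induction s using Multiset.induction_on with
  | empty => simp [Polynomial.reverse]
  | cons a s ih =>
    rw [Multiset.map_cons, Multiset.prod_cons, Polynomial.reverse_mul_of_domain, ih,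
      Multiset.map_cons, Multiset.prod_cons]
    congr 1
    ext n
    rw [Polynomial.coeff_reverse, Polynomial.natDegree_X_sub_C]
    rcases n with _ | _ | n
    · rw [Polynomial.revAt_le (by norm_num)]
      simp [Polynomial.coeff_X, Polynomial.coeff_C]
    · rw [Polynomial.revAt_le (by norm_num)]
      simp [Polynomial.coeff_X, Polynomial.coeff_C, Polynomial.coeff_one]
    · rw [← Polynomial.revAtFun_eq, Polynomial.revAtFun, if_neg (by omega)]
      simp [Polynomial.coeff_X, Polynomial.coeff_C, Polynomial.coeff_one]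

/-- the two contractive multipliers attached to a multiset of complex numbers -/
noncomputable def FF (s : Multiset ℂ) : PowerSeries ℂ :=
  (s.map fun a => if ‖a‖ ≤ 1 then Bl a else 1).prod

noncomputable def GG (s : Multiset ℂ) : PowerSeries ℂ :=
  (s.map fun a => if ‖a‖ ≤ 1 then 1 else Cl a).prod

theorem CM_FF (s : Multiset ℂ) : CM (FF s) := by
  refine CM_multiset_prod _ fun F hF => ?_
  obtain ⟨a, -, rfl⟩ := Multiset.mem_map.mp hF
  split_ifs with h
  · exact CM_Bl h
  · exact CM_one

theorem CM_GG (s : Multiset ℂ) : CM (GG s) := by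
  refine CM_multiset_prod _ fun F hF => ?_
  obtain ⟨a, -, rfl⟩ := Multiset.mem_map.mp hF
  split_ifs with h
  · exact CM_one
  · exact CM_Cl (not_le.mp h)

theorem FF_GG (s : Multiset ℂ) :
    FF s * (s.map fun a => (1 - PowerSeries.C ((starRingEnd ℂ) a) * PowerSeries.X :
      PowerSeries ℂ)).prod =
    GG s * (s.map fun a => (PowerSeries.X - PowerSeries.C a : PowerSeries ℂ)).prod := by
  unfold FF GG
  rw [← Multiset.prod_map_mul, ← Multiset.prod_map_mul]
  congr 1
  refine Multiset.map_congr rfl fun a _ => ?_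
  split_ifs with h
  · rw [Bl_spec, one_mul]
  · rw [Cl_spec, one_mul]
    rintro rfl
    simp at h

theorem norm_constantCoeff_GG (s : Multiset ℂ) :
    ‖PowerSeries.constantCoeff (GG s)‖ * (s.map fun a => max 1 ‖a‖).prod = 1 := by
  induction s using Multiset.induction_on with
  | empty => simp [GG]
  | cons a s ih =>
    have h1 : GG (a ::ₘ s) = (if ‖a‖ ≤ 1 then 1 else Cl a) * GG s := by
      unfold GG
      rw [Multiset.map_cons, Multiset.prod_cons]
    rw [h1, Multiset.map_cons, Multiset.prod_cons, map_mul, norm_mul]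
    have h2 : ‖PowerSeries.constantCoeff (if ‖a‖ ≤ 1 then (1 : PowerSeries ℂ) else Cl a)‖ *
        max 1 ‖a‖ = 1 := by
      split_ifs with h
      · simp [h]
      · rw [constantCoeff_Cl, norm_neg, norm_inv, max_eq_right (not_le.mp h).le]
        exact inv_mul_cancel₀ (by linarith [not_le.mp h])
    calc _ = (‖PowerSeries.constantCoeff (if ‖a‖ ≤ 1 then (1 : PowerSeries ℂ) else Cl a)‖ *
          max 1 ‖a‖) * (‖PowerSeries.constantCoeff (GG s)‖ *
          (s.map fun a => max 1 ‖a‖).prod) := by ring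
      _ = 1 := by rw [h2, ih, one_mul]

/-- the lower bound -/
theorem lower_bound (P : Polynomial ℤ) (hP : P.Monic) (hP0 : P.coeff 0 = 1 ∨ P.coeff 0 = -1)
    (A : PowerSeries ℤ)
    (hA : A * ((P.reverse : Polynomial ℤ) : PowerSeries ℤ) =
      PowerSeries.C (P.coeff 0) * ((P : Polynomial ℤ) : PowerSeries ℤ))
    (k l : ℕ) (h0k : 0 < k) (hkl : k < l) (hl2 : l < 2 * k)
    (hAk : PowerSeries.coeff k A ≠ 0) (hAl : PowerSeries.coeff l A ≠ 0)
    (hAz : ∀ i, 0 < i → i < l → i ≠ k → PowerSeries.coeff i A = 0)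
    (M : ℝ) (hM : M ^ 10 - M ^ 7 - M ^ 6 - 2 * M ^ 5 + M + 1 = 0)
    (hM1 : 1.36419 < M) (hM2 : M < 1.36421) :
    M ≤ (P.map (Int.castRingHom ℂ)).mahlerMeasure := by
  set Pc : Polynomial ℂ := P.map (Int.castRingHom ℂ) with hPc
  have hPcm : Pc.Monic := hP.map _
  set R := Pc.roots with hR
  have hprod : (R.map fun a => Polynomial.X - Polynomial.C a).prod = Pc :=
    (((IsAlgClosed.splits Pc).eq_prod_roots_of_monic hPcm)).symm
  -- constant coefficient of `A`
  have hA0 : PowerSeries.coeff 0 A = 1 := by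
    have h := congrArg (PowerSeries.coeff 0) hA
    simp only [PowerSeries.coeff_zero_eq_constantCoeff, map_mul,
      PowerSeries.constantCoeff_C, Polynomial.constantCoeff_coe, Polynomial.coeff_zero_reverse,
      hP.leadingCoeff, mul_one] at h
    rw [PowerSeries.coeff_zero_eq_constantCoeff_apply, h]
    rcases hP0 with h0 | h0 <;> rw [h0] <;> norm_num
  -- the complex form
  set Ac : PowerSeries ℂ := PowerSeries.map (Int.castRingHom ℂ) A with hAc
  have hrev : (P.reverse).map (Int.castRingHom ℂ) = Pc.reverse := by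
    rw [hPc]
    ext n
    rw [Polynomial.coeff_map, Polynomial.coeff_reverse, Polynomial.coeff_reverse,
      Polynomial.coeff_map, hP.natDegree_map]
  have hAcE : Ac * ((Pc.reverse : Polynomial ℂ) : PowerSeries ℂ) =
      PowerSeries.C ((P.coeff 0 : ℤ) : ℂ) * ((Pc : Polynomial ℂ) : PowerSeries ℂ) := by
    have h := congrArg (PowerSeries.map (Int.castRingHom ℂ)) hA
    rw [map_mul, map_mul, PowerSeries.map_C, ← Polynomial.polynomial_map_coe,
      ← Polynomial.polynomial_map_coe, hrev] at h
    exact h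
  -- conjugation
  have hconj : (R.map fun a => (1 - PowerSeries.C ((starRingEnd ℂ) a) * PowerSeries.X :
      PowerSeries ℂ)).prod = ((Pc.reverse : Polynomial ℂ) : PowerSeries ℂ) := by
    have h1 : ((Pc.reverse).map (starRingEnd ℂ)) = Pc.reverse := by
      rw [← hrev, Polynomial.map_map]
      congr 1
      ext n
      simp
    have h2 : ((R.map fun a => 1 - Polynomial.C a * Polynomial.X).prod).map (starRingEnd ℂ) =
        (R.map fun a => 1 - Polynomial.C ((starRingEnd ℂ) a) * Polynomial.X).prod := by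
      rw [Polynomial.map_multiset_prod, Multiset.map_map]
      congr 1
      refine Multiset.map_congr rfl fun a _ => ?_
      simp
    rw [← h1]
    conv_rhs => rw [← hprod, reverse_prod, h2]
    rw [← Polynomial.coeToPowerSeries.ringHom_apply, map_multiset_prod, Multiset.map_map]
    congr 1
    refine Multiset.map_congr rfl fun a _ => ?_
    simp
  have hpow : (R.map fun a => (PowerSeries.X - PowerSeries.C a : PowerSeries ℂ)).prod =
      ((Pc : Polynomial ℂ) : PowerSeries ℂ) := by
    conv_rhs => rw [← hprod]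
    rw [← Polynomial.coeToPowerSeries.ringHom_apply, map_multiset_prod, Multiset.map_map]
    congr 1
    refine Multiset.map_congr rfl fun a _ => ?_
    simp
  have hFG := FF_GG R
  rw [hconj, hpow] at hFG
  have hQ0 : ((Pc.reverse : Polynomial ℂ) : PowerSeries ℂ) ≠ 0 := by
    rw [Ne, Polynomial.coe_eq_zero_iff, Polynomial.reverse_eq_zero]
    exact hPcm.ne_zero
  have hkey : PowerSeries.C ((P.coeff 0 : ℤ) : ℂ) * FF R = GG R * Ac := by
    apply mul_right_cancel₀ hQ0
    calc PowerSeries.C ((P.coeff 0 : ℤ) : ℂ) * FF R * ((Pc.reverse : Polynomial ℂ) : PowerSeries ℂ)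
        = PowerSeries.C ((P.coeff 0 : ℤ) : ℂ) *
          (FF R * ((Pc.reverse : Polynomial ℂ) : PowerSeries ℂ)) := by ring
      _ = GG R * (PowerSeries.C ((P.coeff 0 : ℤ) : ℂ) * ((Pc : Polynomial ℂ) : PowerSeries ℂ)) := by
        rw [hFG]; ring
      _ = GG R * Ac * ((Pc.reverse : Polynomial ℂ) : PowerSeries ℂ) := by rw [← hAcE]; ring
  -- normalisation
  set g0 := PowerSeries.constantCoeff (GG R) with hg0
  have hnorm := norm_constantCoeff_GG R
  have hg0n : 0 < ‖g0‖ := by
    rcases (norm_nonneg g0).lt_or_eq with h | h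
    · exact h
    · rw [← hg0, ← h, zero_mul] at hnorm; norm_num at hnorm
  set ω : ℂ := (starRingEnd ℂ) g0 / ‖g0‖ with hω
  have hωn : ‖ω‖ = 1 := by
    rw [hω, norm_div, RCLike.norm_conj, Complex.norm_real, norm_norm, div_self hg0n.ne']
  have hP0n : ‖((P.coeff 0 : ℤ) : ℂ)‖ ≤ 1 := by
    rcases hP0 with h0 | h0 <;> rw [h0] <;> simp
  have hGc : CM (PowerSeries.C ω * GG R) := (CM_C hωn.le).mul (CM_GG R)
  have hFc : CM (PowerSeries.C ω * (PowerSeries.C ((P.coeff 0 : ℤ) : ℂ) * FF R)) :=
    (CM_C hωn.le).mul ((CM_C hP0n).mul (CM_FF R))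
  have hb := seq_bound (SC_rc hGc) (SC_rc hFc) (fun n hn => by unfold rc; rw [if_neg (not_le.mpr hn)])
    (fun n hn => by unfold rc; rw [if_neg (not_le.mpr hn)]) (fun i => PowerSeries.coeff i A)
    (fun n => ?_) k l h0k hkl hl2 hA0 hAk hAl hAz M hM hM1 hM2
  · have hr0 : rc (PowerSeries.C ω * GG R) 0 = ‖g0‖ := by
      unfold rc
      rw [if_pos le_rfl, Int.toNat_zero, PowerSeries.coeff_C_mul,
        PowerSeries.coeff_zero_eq_constantCoeff_apply, ← hg0, hω, div_mul_eq_mul_div,
        mul_comm, Complex.mul_conj, Complex.normSq_eq_norm_sq]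
      rw [← Complex.ofReal_div, Complex.ofReal_re, sq, mul_div_assoc, div_self hg0n.ne', mul_one]
    rw [hr0] at hb
    rw [Polynomial.mahlerMeasure_eq_leadingCoeff_mul_prod_roots, hPcm.leadingCoeff, norm_one,
      one_mul]
    have h3 : ‖g0‖ * M ≤ ‖g0‖ * (R.map fun a => max 1 ‖a‖).prod := by rw [hnorm]; exact hb
    exact le_of_mul_le_mul_left h3 hg0n
  · rw [hkey, ← mul_assoc]
    unfold rc
    rw [if_pos (Int.natCast_nonneg n), Int.toNat_natCast, mul_comm _ Ac, PowerSeries.coeff_mul,
      Complex.re_sum, Finset.Nat.sum_antidiagonal_eq_sum_range_succ_mk]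
    refine Finset.sum_congr rfl fun i hi => ?_
    have hin : i ≤ n := by rw [mem_range] at hi; omega
    rw [if_pos (by omega)]
    have : ((n : ℤ) - i).toNat = n - i := by omega
    rw [this, hAc, PowerSeries.coeff_map]
    simp

end Pool.Agent.L0h20.MM
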